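import Mathlib

/-!
Coloured weighted homomorphism sums.
-/

set_option autoImplicit false

open Finset
open scoped Classical

namespace Pool.Agent.PG

section Defs
variable {V T C : Type}

/-- Partition function of `G` with vertex weights `a` and edge weights `w`. -/
noncomputable def Z [Fintype V] [Fintype T] (G : SimpleGraph V) (a : V → T → ℝ)
    (w : Sym2 T → ℝ) : ℝ :=
  ∑ φ : V → T, (∏ v, a v (φ v)) * ∏ e ∈ G.edgeFinset, w (e.map φ)

/-- Vertex weights of coloured maps: the type of `v` must have the colour of `v`. -/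
noncomputable def cw (c : V → C) (col : T → C) (μ : T → ℝ) : V → T → ℝ :=
  fun v t => if col t = c v then μ t else 0

/-- Coloured homomorphism sum. -/
noncomputable def hom [Fintype V] [Fintype T] (G : SimpleGraph V) (c : V → C) (col : T → C)
    (μ : T → ℝ) (w : Sym2 T → ℝ) : ℝ := Z G (cw c col μ) w

/-- Coloured positivity where colours in `S` may carry signed masses. -/
def PosR [Fintype V] (G : SimpleGraph V) (c : V → C) (S : C → Prop) : Prop :=
  ∀ (T : Type) [Fintype T] (col : T → C) (μ : T → ℝ) (w : Sym2 T → ℝ),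
    (∀ t, ¬ S (col t) → 0 ≤ μ t) → 0 ≤ hom G c col μ w

/-- Coloured positivity. -/
def Pos [Fintype V] (G : SimpleGraph V) (c : V → C) : Prop := PosR G c (fun _ => False)

end Defs

section Algebra
variable {V T U C L : Type}

/-- Transport along an isomorphism. -/
theorem Z_iso [Fintype V] [Fintype T] {V' : Type} [Fintype V'] (G : SimpleGraph V)
    (G' : SimpleGraph V') (e : V ≃ V') (hG : ∀ u v, G'.Adj (e u) (e v) ↔ G.Adj u v)
    (a : V → T → ℝ) (a' : V' → T → ℝ) (ha : ∀ v t, a' (e v) t = a v t) (w : Sym2 T → ℝ) :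
    Z G a w = Z G' a' w := by
  unfold Z
  refine Fintype.sum_equiv (e.arrowCongr (Equiv.refl T)) _ _ (fun φ => ?_)
  congr 1
  · refine Fintype.prod_equiv e _ _ (fun v => ?_)
    simp [ha]
  · refine Finset.prod_nbij' (Sym2.map e) (Sym2.map e.symm) ?_ ?_ ?_ ?_ ?_
    · intro x hx
      induction x using Sym2.ind with
      | _ u v => simpa [hG] using hx
    · intro x hx
      induction x using Sym2.ind with
      | _ u v =>
        have := hG (e.symm u) (e.symm v)
        simp only [Equiv.apply_symm_apply] at this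
        simpa [this] using hx
    · intro x hx
      induction x using Sym2.ind with
      | _ u v => simp
    · intro x hx
      induction x using Sym2.ind with
      | _ u v => simp
    · intro x hx
      induction x using Sym2.ind with
      | _ u v => simp

/-- Multiplicativity. -/
theorem Z_mul [Fintype V] [Fintype T] [Fintype U] (G : SimpleGraph V)
    (a : V → T → ℝ) (b : V → U → ℝ) (w : Sym2 T → ℝ) (x : Sym2 U → ℝ) :
    Z G a w * Z G b x =
      Z G (fun v (p : T × U) => a v p.1 * b v p.2)
        (fun e => w (e.map Prod.fst) * x (e.map Prod.snd)) := by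
  unfold Z
  rw [Finset.sum_mul_sum, ← Fintype.sum_prod_type']
  symm
  refine Fintype.sum_equiv (Equiv.arrowProdEquivProdArrow V (fun _ => T) (fun _ => U)) _ _ (fun φ => ?_)
  simp only [Finset.prod_mul_distrib, Sym2.map_map]
  have h1 : (Prod.fst ∘ φ) = ((Equiv.arrowProdEquivProdArrow V (fun _ => T) (fun _ => U)) φ).1 := rfl
  have h2 : (Prod.snd ∘ φ) = ((Equiv.arrowProdEquivProdArrow V (fun _ => T) (fun _ => U)) φ).2 := rfl
  simp only [← h1, ← h2, Function.comp]
  ring

/-- Masses of the coloured product target. -/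
noncomputable def mulMu (col : T → C) (col' : U → C) (μ : T → ℝ) (μ' : U → ℝ) : T × U → ℝ :=
  fun p => if col p.1 = col' p.2 then μ p.1 * μ' p.2 else 0

/-- Kernel of the coloured product target. -/
noncomputable def mulW (w : Sym2 T → ℝ) (w' : Sym2 U → ℝ) : Sym2 (T × U) → ℝ :=
  fun e => w (e.map Prod.fst) * w' (e.map Prod.snd)

theorem hom_mul [Fintype V] [Fintype T] [Fintype U] (G : SimpleGraph V) (c : V → C)
    (col : T → C) (col' : U → C) (μ : T → ℝ) (μ' : U → ℝ) (w : Sym2 T → ℝ) (w' : Sym2 U → ℝ) :
    hom G c (fun p : T × U => col p.1) (mulMu col col' μ μ') (mulW w w') =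
      hom G c col μ w * hom G c col' μ' w' := by
  unfold hom
  rw [Z_mul]
  congr 1
  funext v p
  simp only [cw, mulMu]
  by_cases h1 : col p.1 = c v
  · by_cases h2 : col' p.2 = c v
    · simp [h1, h2]
    · have : ¬ (c v = col' p.2) := fun h => h2 h.symm
      simp [h1, h2, this]
  · simp [h1]

/-- Push-forward of colours along `ρ`. -/
theorem hom_push [Fintype V] [Fintype T] [Fintype L] (G : SimpleGraph V) (c : V → C) (ρ : L → C)
    (col : T → L) (μ : T → ℝ) (w : Sym2 T → ℝ) :
    hom G c (fun t => ρ (col t)) μ w =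
      ∑ σ ∈ (univ : Finset (V → L)).filter (fun σ => ∀ v, ρ (σ v) = c v), hom G σ col μ w := by
  unfold hom Z
  rw [Finset.sum_comm]
  refine Finset.sum_congr rfl (fun φ _ => ?_)
  rw [← Finset.sum_mul]
  congr 1
  by_cases h : ∀ v, ρ (col (φ v)) = c v
  · rw [Finset.sum_eq_single (fun v => col (φ v))]
    · refine Finset.prod_congr rfl (fun v _ => ?_)
      simp [cw, h v]
    · intro σ _ hne
      obtain ⟨v, hv⟩ := Function.ne_iff.1 hne
      refine Finset.prod_eq_zero (mem_univ v) ?_
      have : ¬ (col (φ v) = σ v) := fun h => hv h.symm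
      simp [cw, this]
    · intro hn
      exact absurd (by simpa using h) hn
  · push_neg at h
    obtain ⟨v, hv⟩ := h
    rw [Finset.prod_eq_zero (mem_univ v) (by simp [cw, hv])]
    symm
    refine Finset.sum_eq_zero (fun σ hσ => ?_)
    have hσ' : ∀ v, ρ (σ v) = c v := by simpa using hσ
    refine Finset.prod_eq_zero (mem_univ v) ?_
    have : ¬ (col (φ v) = σ v) := fun h => hv (by rw [h]; exact hσ' v)
    simp [cw, this]

/-- The trivial target: one type for every colour. -/
theorem hom_one [Fintype V] [Fintype C] (G : SimpleGraph V) (c : V → C) :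
    hom G c (fun a : C => a) (fun _ => 1) (fun _ => 1) = 1 := by
  unfold hom Z
  rw [Finset.sum_eq_single c]
  · simp [cw]
  · intro φ _ hne
    obtain ⟨v, hv⟩ := Function.ne_iff.1 hne
    rw [Finset.prod_eq_zero (mem_univ v) (by simp [cw, hv]), zero_mul]
  · intro h; exact absurd (mem_univ _) h

/-- Product over the edges of a kernel of the form `f s t * f t s`. -/
noncomputable def sw (f : T → T → ℝ) : Sym2 T → ℝ :=
  Sym2.lift ⟨fun a b => f a b * f b a, fun a b => mul_comm _ _⟩

@[simp] theorem sw_mk (f : T → T → ℝ) (a b : T) : sw f s(a, b) = f a b * f b a := rfl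

theorem prod_edge_dart [Fintype V] (G : SimpleGraph V) (g : V → V → ℝ) :
    ∏ e ∈ G.edgeFinset, sw g e = ∏ v, ∏ u ∈ univ.filter (fun u => G.Adj v u), g v u := by
  have h1 : ∏ v, ∏ u ∈ univ.filter (fun u => G.Adj v u), g v u =
      ∏ p ∈ (univ : Finset (V × V)).filter (fun p => G.Adj p.1 p.2), g p.1 p.2 := by
    rw [Finset.prod_filter, ← Finset.univ_product_univ, Finset.prod_product]
    refine Finset.prod_congr rfl (fun v _ => ?_)
    rw [Finset.prod_filter]
  rw [h1]
  rw [← Finset.prod_fiberwise_of_maps_to (s := (univ : Finset (V × V)).filter (fun p => G.Adj p.1 p.2))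
    (t := G.edgeFinset) (g := fun p => s(p.1, p.2))]
  · refine Finset.prod_congr rfl (fun e he => ?_)
    induction e using Sym2.ind with
    | _ a b =>
      have hab : G.Adj a b := by simpa using he
      have hne : a ≠ b := hab.ne
      have : ((univ : Finset (V × V)).filter (fun p => G.Adj p.1 p.2)).filter
          (fun p => s(p.1, p.2) = s(a, b)) = {(a, b), (b, a)} := by
        ext ⟨x, y⟩
        simp only [mem_filter, mem_univ, true_and, Sym2.eq_iff, mem_insert, mem_singleton,
          Prod.mk.injEq]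
        constructor
        · rintro ⟨_, h⟩; exact h
        · rintro (⟨rfl, rfl⟩ | ⟨rfl, rfl⟩)
          · exact ⟨hab, Or.inl ⟨rfl, rfl⟩⟩
          · exact ⟨hab.symm, Or.inr ⟨rfl, rfl⟩⟩
      rw [this, Finset.prod_pair (by simp [hne])]
      simp
  · intro p hp
    simpa using hp

theorem prod_edge_dart_map [Fintype V] (G : SimpleGraph V) (f : T → T → ℝ) (φ : V → T) :
    ∏ e ∈ G.edgeFinset, sw f (e.map φ) =
      ∏ v, ∏ u ∈ univ.filter (fun u => G.Adj v u), f (φ v) (φ u) := by
  rw [← prod_edge_dart G (fun v u => f (φ v) (φ u))]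
  refine Finset.prod_congr rfl (fun e _ => ?_)
  induction e using Sym2.ind with
  | _ a b => simp

theorem prod_edge_mul_map [Fintype V] (G : SimpleGraph V) (f : T → T → ℝ) (w : Sym2 T → ℝ)
    (φ : V → T) :
    ∏ e ∈ G.edgeFinset, (fun x => w x * sw f x) (e.map φ) =
      (∏ e ∈ G.edgeFinset, w (e.map φ)) *
      ∏ v, ∏ u ∈ univ.filter (fun u => G.Adj v u), f (φ v) (φ u) := by
  rw [← prod_edge_dart_map, ← Finset.prod_mul_distrib]

end Algebra

end Pool.Agent.PG
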