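import Pool.Agent.Lib.MP_e25ec6_co.H59.Max

/-!
Product formula over connected components, additivity over disjoint unions of targets.
-/

set_option autoImplicit false

open Finset
open scoped Classical

namespace Pool.Agent.PG

variable {V T U C Q : Type}

/-- The fibre graph. -/
abbrev fib (G : SimpleGraph V) (q : V → Q) (κ : Q) : SimpleGraph {v // q v = κ} :=
  G.comap (Subtype.val : {v // q v = κ} → V)

theorem edge_prod_fib [Fintype V] [Fintype Q] (G : SimpleGraph V) (q : V → Q)
    (hq : ∀ u v, G.Adj u v → q u = q v) (F : Sym2 V → ℝ) :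
    ∏ e ∈ G.edgeFinset, F e = ∏ κ : Q, ∏ e ∈ (fib G q κ).edgeFinset, F (e.map Subtype.val) := by
  rw [← Finset.prod_fiberwise_of_maps_to (s := G.edgeFinset) (t := (univ : Finset Q))
    (g := fun e => q e.out.1) (fun _ _ => mem_univ _)]
  refine Finset.prod_congr rfl (fun κ _ => ?_)
  symm
  have hout : ∀ a b : V, G.Adj a b → q (s(a, b) : Sym2 V).out.1 = q a := by
    intro a b hab
    have := Sym2.out_fst_mem (s(a, b) : Sym2 V)
    rw [Sym2.mem_iff] at this
    rcases this with h | h
    · rw [h]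
    · rw [h, hq a b hab]
  refine Finset.prod_nbij (fun e => e.map Subtype.val) ?_ ?_ ?_ ?_
  · intro e he
    induction e using Sym2.ind with
    | _ a b =>
      have hab : G.Adj a.1 b.1 := by simpa using he
      simp only [mem_filter, SimpleGraph.mem_edgeFinset, Sym2.map_mk, SimpleGraph.mem_edgeSet]
      exact ⟨hab, by rw [hout _ _ hab]; exact a.2⟩
  · intro e _ e' _ h
    exact Sym2.map.injective Subtype.val_injective h
  · intro e he
    induction e using Sym2.ind with
    | _ a b =>
      simp only [coe_filter, SimpleGraph.mem_edgeFinset, Set.mem_ofPred_eq,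
        SimpleGraph.mem_edgeSet] at he
      obtain ⟨hab, hκ⟩ := he
      rw [hout _ _ hab] at hκ
      refine ⟨s(⟨a, hκ⟩, ⟨b, by rw [← hq a b hab]; exact hκ⟩), ?_, ?_⟩
      · simpa using hab
      · simp
  · intro e _
    rfl

theorem Z_prod [Fintype V] [Fintype T] [Fintype Q] (G : SimpleGraph V) (q : V → Q)
    (hq : ∀ u v, G.Adj u v → q u = q v) (a : V → T → ℝ) (w : Sym2 T → ℝ) :
    Z G a w = ∏ κ : Q, Z (fib G q κ) (fun v => a v.1) w := by
  unfold Z
  rw [Finset.prod_univ_sum]
  refine Finset.sum_nbij' (fun φ κ v => φ v.1) (fun Ψ v => Ψ (q v) ⟨v, rfl⟩) ?_ ?_ ?_ ?_ ?_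
  · intro φ _
    simp [Fintype.mem_piFinset]
  · intro Ψ _
    exact mem_univ _
  · intro φ _
    rfl
  · intro Ψ _
    funext κ v
    obtain ⟨v, hv⟩ := v
    subst hv
    rfl
  · intro φ _
    rw [Finset.prod_mul_distrib]
    congr 1
    · rw [← Fintype.prod_fiberwise q (fun v => a v (φ v))]
    · rw [edge_prod_fib G q hq (fun x => w (x.map φ))]
      refine Finset.prod_congr rfl (fun κ _ => Finset.prod_congr rfl (fun x _ => ?_))
      rw [Sym2.map_map]
      rfl

theorem hom_prod [Fintype V] [Fintype T] [Fintype Q] (G : SimpleGraph V) (q : V → Q)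
    (hq : ∀ u v, G.Adj u v → q u = q v) (c : V → C) (col : T → C) (μ : T → ℝ) (w : Sym2 T → ℝ) :
    hom G c col μ w = ∏ κ : Q, hom (fib G q κ) (fun v => c v.1) col μ w := by
  unfold hom
  rw [Z_prod G q hq]
  rfl

/-- Kernel of the disjoint union of two targets. -/
noncomputable def sumW (w : Sym2 T → ℝ) (w' : Sym2 U → ℝ) : Sym2 (T ⊕ U) → ℝ :=
  Sym2.lift ⟨fun a b => match a, b with
    | Sum.inl a, Sum.inl b => w s(a, b)
    | Sum.inr a, Sum.inr b => w' s(a, b)
    | _, _ => 0, by
      rintro (a | a) (b | b)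
      · simp only [Sym2.eq_swap]
      · rfl
      · rfl
      · simp only [Sym2.eq_swap]⟩

@[simp] theorem sumW_ll (w : Sym2 T → ℝ) (w' : Sym2 U → ℝ) (a b : T) :
    sumW w w' s(Sum.inl a, Sum.inl b) = w s(a, b) := rfl
@[simp] theorem sumW_rr (w : Sym2 T → ℝ) (w' : Sym2 U → ℝ) (a b : U) :
    sumW w w' s(Sum.inr a, Sum.inr b) = w' s(a, b) := rfl
@[simp] theorem sumW_lr (w : Sym2 T → ℝ) (w' : Sym2 U → ℝ) (a : T) (b : U) :
    sumW w w' s(Sum.inl a, Sum.inr b) = 0 := rfl
@[simp] theorem sumW_rl (w : Sym2 T → ℝ) (w' : Sym2 U → ℝ) (a : U) (b : T) :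
    sumW w w' s(Sum.inr a, Sum.inl b) = 0 := rfl

/-- A connected graph has an edge leaving every proper nonempty set. -/
theorem exists_cross (G : SimpleGraph V) (hconn : G.Connected) (X : Set V) (hX : X.Nonempty)
    (hX' : ∃ v, v ∉ X) : ∃ u ∈ X, ∃ v, v ∉ X ∧ G.Adj u v := by
  by_contra hcon
  push Not at hcon
  obtain ⟨a, ha⟩ := hX
  obtain ⟨b, hb⟩ := hX'
  obtain ⟨w⟩ := hconn.preconnected a b
  have : ∀ {x y : V} (w : G.Walk x y), x ∈ X → y ∈ X := by
    intro x y w
    induction w with
    | nil => exact id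
    | cons hadj _ ih =>
      intro hx
      refine ih ?_
      by_contra hn
      exact hcon _ hx _ hn hadj
  exact hb (this w ha)

theorem hom_add [Fintype V] [Fintype T] [Fintype U] (G : SimpleGraph V) (hconn : G.Connected)
    (c : V → C) (col : T → C) (col' : U → C) (μ : T → ℝ) (μ' : U → ℝ) (w : Sym2 T → ℝ)
    (w' : Sym2 U → ℝ) :
    hom G c (Sum.elim col col') (Sum.elim μ μ') (sumW w w') =
      hom G c col μ w + hom G c col' μ' w' := by
  unfold hom Z
  have hne : Nonempty V := hconn.nonempty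
  have hinjL : ∀ φ ∈ (univ : Finset (V → T)), ∀ φ' ∈ (univ : Finset (V → T)),
      (fun v => (Sum.inl (φ v) : T ⊕ U)) = (fun v => Sum.inl (φ' v)) → φ = φ' := by
    intro φ _ φ' _ h
    funext v
    exact Sum.inl_injective (congrFun h v)
  have hinjR : ∀ φ ∈ (univ : Finset (V → U)), ∀ φ' ∈ (univ : Finset (V → U)),
      (fun v => (Sum.inr (φ v) : T ⊕ U)) = (fun v => Sum.inr (φ' v)) → φ = φ' := by
    intro φ _ φ' _ h
    funext v
    exact Sum.inr_injective (congrFun h v)
  set F : (V → T ⊕ U) → ℝ := fun φ =>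
    (∏ v, cw c (Sum.elim col col') (Sum.elim μ μ') v (φ v)) *
      ∏ e ∈ G.edgeFinset, sumW w w' (e.map φ) with hF
  have hL : ∑ φ : V → T, (∏ v, cw c col μ v (φ v)) * ∏ e ∈ G.edgeFinset, w (e.map φ) =
      ∑ φ ∈ (univ : Finset (V → T)).image (fun φ v => (Sum.inl (φ v) : T ⊕ U)), F φ := by
    rw [Finset.sum_image hinjL]
    refine Finset.sum_congr rfl (fun φ _ => ?_)
    simp only [hF]
    congr 1
    refine Finset.prod_congr rfl (fun e _ => ?_)
    induction e using Sym2.ind with
    | _ a b => simp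
  have hR : ∑ φ : V → U, (∏ v, cw c col' μ' v (φ v)) * ∏ e ∈ G.edgeFinset, w' (e.map φ) =
      ∑ φ ∈ (univ : Finset (V → U)).image (fun φ v => (Sum.inr (φ v) : T ⊕ U)), F φ := by
    rw [Finset.sum_image hinjR]
    refine Finset.sum_congr rfl (fun φ _ => ?_)
    simp only [hF]
    congr 1
    refine Finset.prod_congr rfl (fun e _ => ?_)
    induction e using Sym2.ind with
    | _ a b => simp
  rw [hL, hR, ← Finset.sum_union]
  · symm
    refine Finset.sum_subset (subset_univ _) (fun φ _ hφ => ?_)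
    simp only [mem_union, mem_image, mem_univ, true_and, not_or, not_exists] at hφ
    have h1 : ∃ v, ∃ b, φ v = Sum.inr b := by
      by_contra hcon
      push Not at hcon
      have : ∀ v, ∃ a, φ v = Sum.inl a := by
        intro v
        rcases hv : φ v with a | b
        · exact ⟨a, rfl⟩
        · exact absurd hv (hcon v b)
      choose g hg using this
      exact hφ.1 g (funext (fun v => (hg v).symm))
    have h2 : ∃ v, ∃ a, φ v = Sum.inl a := by
      by_contra hcon
      push Not at hcon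
      have : ∀ v, ∃ b, φ v = Sum.inr b := by
        intro v
        rcases hv : φ v with a | b
        · exact absurd hv (hcon v a)
        · exact ⟨b, rfl⟩
      choose g hg using this
      exact hφ.2 g (funext (fun v => (hg v).symm))
    obtain ⟨u, hu, v, hv, huv⟩ := exists_cross G hconn {v | ∃ b, φ v = Sum.inr b} h1 (by
      obtain ⟨v, a, hva⟩ := h2
      refine ⟨v, ?_⟩
      rintro ⟨b, hb⟩
      rw [hva] at hb
      exact Sum.inl_ne_inr hb)
    obtain ⟨b, hb⟩ := hu
    rcases hva : φ v with a | b'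
    · simp only [hF]
      rw [Finset.prod_eq_zero (i := s(u, v)) (by simpa using huv) (by simp [hb, hva]), mul_zero]
    · exact absurd ⟨b', hva⟩ hv
  · rw [Finset.disjoint_left]
    intro φ h1 h2
    obtain ⟨a, _, rfl⟩ := Finset.mem_image.1 h1
    obtain ⟨b, _, hb⟩ := Finset.mem_image.1 h2
    obtain ⟨v⟩ := hne
    exact Sum.inr_ne_inl (congrFun hb v)

end Pool.Agent.PG
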