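import Pool.Agent.Lib.MP_e25ec6_co.H59.Struct
import Pool.Agent.Lib.MP_e25ec6_co.H59.Product

/-!
A connected coloured graph with signed masses has a negative homomorphism sum: values of the
independence polynomial at negative arguments.
-/

set_option autoImplicit false

open Finset
open scoped Classical

namespace Pool.Agent.PG

variable {V C : Type}

/-- Independent sets of vertices. -/
def Ind (G : SimpleGraph V) (S : Finset V) : Prop := ∀ u ∈ S, ∀ v ∈ S, ¬ G.Adj u v

/-- The independence polynomial of `G[L]` at `-x`. -/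
noncomputable def ip (G : SimpleGraph V) (L : Finset V) (x : ℝ) : ℝ :=
  ∑ S ∈ L.powerset, if Ind G S then (-x) ^ S.card else 0

theorem ip_empty (G : SimpleGraph V) (x : ℝ) : ip G ∅ x = 1 := by
  unfold ip
  simp [Ind]

theorem ip_zero (G : SimpleGraph V) (L : Finset V) : ip G L 0 = 1 := by
  unfold ip
  rw [Finset.sum_eq_single ∅]
  · simp [Ind]
  · intro S _ hS
    have : S.card ≠ 0 := by rwa [Finset.card_ne_zero, Finset.nonempty_iff_ne_empty]
    simp [this]
  · intro h; simp at h

theorem ip_continuous (G : SimpleGraph V) (L : Finset V) : Continuous (ip G L) := by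
  unfold ip
  refine continuous_finsetSum _ (fun S _ => ?_)
  split_ifs
  · exact (continuous_neg.pow _)
  · exact continuous_const

theorem ip_insert (G : SimpleGraph V) (L : Finset V) (v : V) (hv : v ∉ L) (x : ℝ) :
    ip G (insert v L) x = ip G L x - x * ip G (L.filter (fun u => ¬ G.Adj v u)) x := by
  unfold ip
  rw [Finset.sum_powerset_insert hv, sub_eq_add_neg]
  congr 1
  rw [Finset.mul_sum, ← Finset.sum_neg_distrib]
  have h1 : ∀ S ∈ L.powerset, (if Ind G (insert v S) then (-x) ^ (insert v S).card else 0) =
      if S ∈ (L.filter (fun u => ¬ G.Adj v u)).powerset then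
        -(x * (if Ind G S then (-x) ^ S.card else 0)) else 0 := by
    intro S hS
    have hSL : S ⊆ L := by simpa using hS
    have hvS : v ∉ S := fun h => hv (hSL h)
    have hiff : Ind G (insert v S) ↔ Ind G S ∧ S ∈ (L.filter (fun u => ¬ G.Adj v u)).powerset := by
      rw [Finset.mem_powerset]
      constructor
      · intro h
        refine ⟨fun a ha b hb => h a (mem_insert_of_mem ha) b (mem_insert_of_mem hb),
          fun a ha => Finset.mem_filter.2 ⟨hSL ha, h v (mem_insert_self _ _) a
            (mem_insert_of_mem ha)⟩⟩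
      · rintro ⟨h1, h2⟩ a ha b hb
        rcases Finset.mem_insert.1 ha with rfl | ha'
        · rcases Finset.mem_insert.1 hb with rfl | hb'
          · exact G.irrefl
          · exact (Finset.mem_filter.1 (h2 hb')).2
        · rcases Finset.mem_insert.1 hb with rfl | hb'
          · intro hadj
            exact (Finset.mem_filter.1 (h2 ha')).2 hadj.symm
          · exact h1 a ha' b hb'
    rw [Finset.card_insert_of_notMem hvS]
    by_cases h2 : S ∈ (L.filter (fun u => ¬ G.Adj v u)).powerset
    · by_cases h3 : Ind G S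
      · rw [if_pos (hiff.2 ⟨h3, h2⟩), if_pos h2, if_pos h3]
        ring
      · rw [if_neg (fun h => h3 (hiff.1 h).1), if_pos h2, if_neg h3]
        ring
    · rw [if_neg (fun h => h2 (hiff.1 h).2), if_neg h2]
  rw [Finset.sum_congr rfl h1, ← Finset.sum_filter]
  refine Finset.sum_congr ?_ (fun _ _ => rfl)
  ext S
  simp only [mem_filter, mem_powerset]
  constructor
  · exact fun h => h.2
  · exact fun h => ⟨h.trans (Finset.filter_subset _ _), h⟩

theorem exists_ip_neg [Fintype V] (G : SimpleGraph V) (hconn : G.Connected) :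
    ∃ x : ℝ, ip G univ x < 0 := by
  by_contra hcon
  push Not at hcon
  have hne : Nonempty V := hconn.nonempty
  obtain ⟨v₀⟩ := hne
  have hsingle : ∀ (v : V) (x : ℝ), ip G {v} x = 1 - x := by
    intro v x
    have := ip_insert G ∅ v (Finset.notMem_empty _) x
    simpa [ip_empty] using this
  by_cases hcard : (univ : Finset V) = {v₀}
  · have := hcon 2
    rw [hcard, hsingle] at this
    norm_num at this
  · set P : Finset V → Prop := fun L => L.Nonempty ∧ L ≠ univ with hP
    set B : Set ℝ := {x | x ∈ Set.Icc (0 : ℝ) 1 ∧ ∃ L, P L ∧ ip G L x ≤ 0} with hB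
    have hBeq : B = Set.Icc (0 : ℝ) 1 ∩ ⋃ L ∈ {L : Finset V | P L}, {x | ip G L x ≤ 0} := by
      ext x
      simp only [hB, Set.mem_ofPred_eq, Set.mem_inter_iff, Set.mem_iUnion, exists_prop]
    have hBc : IsCompact B := by
      rw [hBeq]
      refine isCompact_Icc.inter_right ?_
      refine Set.Finite.isClosed_biUnion (Set.toFinite _) (fun L _ => ?_)
      exact isClosed_le (ip_continuous G L) continuous_const
    have hBne : B.Nonempty := by
      refine ⟨1, ⟨zero_le_one, le_rfl⟩, {v₀}, ⟨Finset.singleton_nonempty _, fun h => hcard h.symm⟩, ?_⟩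
      rw [hsingle]
      norm_num
    obtain ⟨x₀, hx₀, hleast⟩ := hBc.exists_isLeast hBne
    obtain ⟨⟨h0, h1⟩, L₁, hL₁, hL₁'⟩ := hx₀
    have hx₀pos : 0 < x₀ := by
      refine lt_of_le_of_ne h0 (fun h => ?_)
      rw [← h, ip_zero] at hL₁'
      norm_num at hL₁'
    obtain ⟨L, hL, hmin⟩ := Finset.exists_min_image
      ((univ : Finset (Finset V)).filter (fun L => P L ∧ ip G L x₀ ≤ 0)) (fun L => L.card)
      ⟨L₁, by simp [hL₁, hL₁']⟩
    simp only [mem_filter, mem_univ, true_and] at hL hmin
    obtain ⟨⟨hLne, hLu⟩, hLle⟩ := hL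
    obtain ⟨u, hu, v, hv, huv⟩ := exists_cross G hconn (L : Set V) (by exact_mod_cast hLne) (by
      by_contra hall
      push Not at hall
      exact hLu (Finset.eq_univ_iff_forall.2 (fun a => by exact_mod_cast hall a)))
    have hvL : v ∉ L := by exact_mod_cast hv
    have huL : u ∈ L := by exact_mod_cast hu
    have hins := ip_insert G L v hvL x₀
    set L' := L.filter (fun u => ¬ G.Adj v u) with hL'
    have hL'card : L'.card < L.card := by
      refine Finset.card_lt_card ?_
      rw [hL', Finset.filter_ssubset]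
      exact ⟨u, huL, fun h => h huv.symm⟩
    have hL'pos : 0 < ip G L' x₀ := by
      rcases Finset.eq_empty_or_nonempty L' with h | h
      · rw [h, ip_empty]
        exact one_pos
      · by_contra hcon'
        have := hmin L' ⟨⟨h, fun h' => hLu (Finset.eq_univ_iff_forall.2 (fun a =>
          Finset.filter_subset _ _ (show a ∈ L' by rw [h']; exact mem_univ a)))⟩, not_lt.1 hcon'⟩
        omega
    have hneg : ip G (insert v L) x₀ < 0 := by
      rw [hins]
      have := mul_pos hx₀pos hL'pos
      linarith
    by_cases huniv : insert v L = univ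
    · rw [huniv] at hneg
      exact absurd (hcon x₀) (not_le.2 hneg)
    · have hev : ∀ᶠ x in nhds x₀, ip G (insert v L) x < 0 :=
        (ip_continuous G (insert v L)).continuousAt.eventually_lt continuousAt_const hneg
      have hev2 : ∀ᶠ x in nhdsWithin x₀ (Set.Iio x₀), ip G (insert v L) x < 0 :=
        hev.filter_mono nhdsWithin_le_nhds
      have hev3 : ∀ᶠ x in nhdsWithin x₀ (Set.Iio x₀), x ∈ Set.Ioo 0 x₀ :=
        Ioo_mem_nhdsLT hx₀pos
      obtain ⟨x, hx, hx2⟩ := (hev2.and hev3).exists
      have := hleast (show x ∈ B from ⟨⟨hx2.1.le, hx2.2.le.trans h1⟩, insert v L,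
        ⟨Finset.insert_nonempty _ _, huniv⟩, hx.le⟩)
      exact absurd this (not_le.2 hx2.2)

theorem exists_neg_of_connected [Fintype V] [Fintype C] (G : SimpleGraph V)
    (hconn : G.Connected) (c : V → C) :
    ∃ (μ : C × Bool → ℝ) (w : Sym2 (C × Bool) → ℝ), hom G c (fun t => t.1) μ w < 0 := by
  obtain ⟨x, hx⟩ := exists_ip_neg G hconn
  refine ⟨fun t => if t.2 then -x else 1,
    sw (fun s t => if s.2 = true ∧ t.2 = true then 0 else 1), ?_⟩
  rw [hom_labels_prod]
  refine lt_of_eq_of_lt ?_ hx
  unfold ip
  refine Finset.sum_nbij' (fun β => univ.filter (fun v => β v = true)) (fun S v => decide (v ∈ S))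
    ?_ ?_ ?_ ?_ ?_
  · intro β _
    simp
  · intro S _
    exact mem_univ _
  · intro β _
    funext v
    simp
  · intro S _
    ext v
    simp
  · intro β _
    rw [prod_edge_dart_map]
    simp only
    have h1 : ∏ v, (if β v = true then -x else 1) = (-x) ^ (univ.filter (fun v => β v = true)).card := by
      rw [← Finset.prod_const, Finset.prod_filter]
    rw [h1]
    by_cases h2 : Ind G (univ.filter (fun v => β v = true))
    · rw [if_pos h2]
      rw [Finset.prod_eq_one, mul_one]
      intro v _
      refine Finset.prod_eq_one (fun u hu => ?_)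
      have huv : G.Adj v u := by simpa using hu
      rw [if_neg]
      rintro ⟨h3, h4⟩
      exact h2 v (by simp [h3]) u (by simp [h4]) huv
    · rw [if_neg h2]
      unfold Ind at h2
      push Not at h2
      obtain ⟨u, hu, v, hv, huv⟩ := h2
      rw [Finset.prod_eq_zero (mem_univ u), mul_zero]
      refine Finset.prod_eq_zero (i := v) (by simpa using huv) ?_
      rw [if_pos]
      exact ⟨by simpa using hu, by simpa using hv⟩

end Pool.Agent.PG
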