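import Mathlib

/-!
A lemma on subsemirings of `ι → ℝ`.
-/

set_option autoImplicit false

open Finset
open scoped Classical

namespace Pool.Agent.PG

variable {ι : Type}

theorem semi_step (A : Subsemiring (ι → ℝ)) (R : Finset ι)
    (sep : ∀ i ∈ R, ∀ j ∈ R, i ≠ j → ∃ v ∈ A, (∀ k, 0 ≤ v k) ∧ v i ≠ v j) :
    ∀ n : ℕ, ∀ v ∈ A, (R.filter (fun i => v i < 0)).card = n →
      (R.filter (fun i => v i < 0)).Nonempty → ∃ v' ∈ A, (R.filter (fun i => v' i < 0)).card = 1 := by
  intro n
  induction n using Nat.strong_induction_on with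
  | _ n ih =>
  intro v hv hcard hne
  by_cases h1 : n = 1
  · exact ⟨v, hv, hcard.trans h1⟩
  · have h2 : 1 < (R.filter (fun i => v i < 0)).card := by
      have := Finset.card_pos.2 hne
      omega
    obtain ⟨i, hi, j, hj, hij⟩ := Finset.one_lt_card.1 h2
    -- main construction
    have main : ∀ i ∈ R.filter (fun i => v i < 0), ∀ j ∈ R.filter (fun i => v i < 0), ∀ a ∈ A,
        (∀ k, 0 ≤ a k) → a j < a i → ∃ v' ∈ A, (R.filter (fun i => v' i < 0)).card = 1 := by
      intro i hi j hj a ha hapos haij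
      obtain ⟨hiR, hvi⟩ := Finset.mem_filter.1 hi
      obtain ⟨hjR, hvj⟩ := Finset.mem_filter.1 hj
      set b : ι → ℝ := a + 1 with hb
      have hbA : b ∈ A := A.add_mem ha A.one_mem
      have hb1 : ∀ k, 1 ≤ b k := fun k => by
        simp only [hb, Pi.add_apply, Pi.one_apply]
        linarith [hapos k]
      have hbij : b j < b i := by
        simp only [hb, Pi.add_apply, Pi.one_apply]
        linarith
      have hbj0 : 0 < b j := by linarith [hb1 j]
      have hratio : 1 < b i / b j := (one_lt_div hbj0).2 hbij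
      obtain ⟨m, hm⟩ := pow_unbounded_of_one_lt ((-v j + 1) / (-v i)) hratio
      have hvi' : 0 < -v i := by linarith
      have hvj' : 0 < -v j := by linarith
      have hbm : 1 ≤ b j ^ m := one_le_pow₀ (hb1 j)
      have hkey : (-v j) * b j ^ m + 1 < (-v i) * b i ^ m := by
        rw [div_lt_iff₀ hvi', div_pow, div_mul_eq_mul_div, lt_div_iff₀ (by positivity)] at hm
        nlinarith
      set N : ℕ := ⌈(-v j) * b j ^ m⌉₊ with hN
      have hN1 : (-v j) * b j ^ m ≤ N := Nat.le_ceil _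
      have hN2 : (N : ℝ) < (-v j) * b j ^ m + 1 := Nat.ceil_lt_add_one (by positivity)
      set v' : ι → ℝ := v * b ^ m + (N : ι → ℝ) with hv'
      have hv'A : v' ∈ A := A.add_mem (A.mul_mem hv (A.pow_mem hbA m)) (natCast_mem A N)
      have hv'k : ∀ k, v' k = v k * b k ^ m + N := fun k => by
        simp [hv']
      have hsub : R.filter (fun i => v' i < 0) ⊂ R.filter (fun i => v i < 0) := by
        rw [Finset.ssubset_iff_of_subset]
        · refine ⟨j, hj, fun h => ?_⟩
          have := (Finset.mem_filter.1 h).2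
          rw [hv'k] at this
          linarith
        · intro k hk
          obtain ⟨hkR, hk'⟩ := Finset.mem_filter.1 hk
          refine Finset.mem_filter.2 ⟨hkR, ?_⟩
          by_contra hcon
          rw [hv'k] at hk'
          have h3 : 0 ≤ v k * b k ^ m :=
            mul_nonneg (not_lt.1 hcon) (pow_nonneg (by linarith [hb1 k]) m)
          have h4 : (0 : ℝ) ≤ N := Nat.cast_nonneg N
          linarith
      refine ih _ (by rw [← hcard]; exact Finset.card_lt_card hsub) v' hv'A rfl ⟨i, ?_⟩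
      refine Finset.mem_filter.2 ⟨hiR, ?_⟩
      rw [hv'k]
      linarith
    obtain ⟨a, ha, hapos, haij⟩ := sep i (Finset.mem_filter.1 hi).1 j (Finset.mem_filter.1 hj).1 hij
    rcases lt_or_gt_of_ne haij with h | h
    · exact main j hj i hi a ha hapos h
    · exact main i hi j hj a ha hapos h

theorem semi_lemma [Fintype ι] (A : Subsemiring (ι → ℝ)) (R : Finset ι)
    (sep : ∀ i ∈ R, ∀ j ∈ R, i ≠ j → ∃ v ∈ A, (∀ k, 0 ≤ v k) ∧ v i ≠ v j)
    (neg : ∃ v ∈ A, ∃ i ∈ R, v i < 0) :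
    ∃ v ∈ A, (∏ i ∈ R, v i) < 0 ∧ ∀ i, v i ≠ 0 := by
  obtain ⟨v₀, hv₀, i₀, hi₀, hneg₀⟩ := neg
  obtain ⟨v, hv, hcard⟩ := semi_step A R sep _ v₀ hv₀ rfl ⟨i₀, by simp [hi₀, hneg₀]⟩
  obtain ⟨i, hi⟩ := Finset.card_eq_one.1 hcard
  have hiR : i ∈ R ∧ v i < 0 := by
    have : i ∈ R.filter (fun i => v i < 0) := by rw [hi]; exact mem_singleton_self i
    exact Finset.mem_filter.1 this
  set N : ℕ := ⌈∑ k, |v k|⁻¹⌉₊ + 1 with hN
  have hNk : ∀ k, v k ≠ 0 → 1 < N * |v k| := by
    intro k hk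
    have h1 : 0 < |v k| := abs_pos.2 hk
    have h2 : |v k|⁻¹ ≤ ∑ k, |v k|⁻¹ :=
      Finset.single_le_sum (f := fun k => |v k|⁻¹) (fun k _ => inv_nonneg.2 (abs_nonneg _))
        (mem_univ k)
    have h3 : ∑ k, |v k|⁻¹ ≤ ⌈∑ k, |v k|⁻¹⌉₊ := Nat.le_ceil _
    have h4 : |v k|⁻¹ < N := by
      rw [hN]
      push_cast
      linarith
    calc (1 : ℝ) = |v k|⁻¹ * |v k| := (inv_mul_cancel₀ h1.ne').symm
      _ < N * |v k| := by exact mul_lt_mul_of_pos_right h4 h1
  set v' : ι → ℝ := (N : ι → ℝ) * v + 1 with hv'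
  have hv'k : ∀ k, v' k = N * v k + 1 := fun k => by simp [hv']
  have hpos : ∀ k, 0 ≤ v k → 0 < v' k := by
    intro k hk
    rw [hv'k]
    have : (0 : ℝ) ≤ N := Nat.cast_nonneg N
    positivity
  have hnegk : ∀ k, v k < 0 → v' k < 0 := by
    intro k hk
    have := hNk k hk.ne
    rw [abs_of_neg hk] at this
    rw [hv'k]
    linarith
  refine ⟨v', A.add_mem (A.mul_mem (natCast_mem A N) hv) A.one_mem, ?_, fun k => ?_⟩
  · rw [← Finset.mul_prod_erase R _ hiR.1]
    refine mul_neg_of_neg_of_pos (hnegk i hiR.2) (Finset.prod_pos (fun k hk => hpos k ?_))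
    by_contra hcon
    have : k ∈ R.filter (fun i => v i < 0) :=
      Finset.mem_filter.2 ⟨Finset.mem_of_mem_erase hk, not_le.1 hcon⟩
    rw [hi, mem_singleton] at this
    exact Finset.ne_of_mem_erase hk this
  · rcases le_or_gt 0 (v k) with h | h
    · exact (hpos k h).ne'
    · exact (hnegk k h).ne

end Pool.Agent.PG
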