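import Pool.Agent.Lib.MP_e25ec6_co.H59.Sep
import Pool.Agent.Lib.MP_e25ec6_co.H59.Semi
import Pool.Agent.Lib.MP_e25ec6_co.H59.Indep

/-!
The components of a positive coloured graph: isomorphic components are paired off, all remaining
components are positive.
-/

set_option autoImplicit false

open Finset
open scoped Classical

namespace Pool.Agent.PG

variable {V C : Type}

/-- A partial pairing of isomorphic components: `f` is a colour preserving involutive automorphism
that fixes `R` pointwise and swaps the two parts `A` and `(R ∪ A)ᶜ` of the complement of `R`, all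
three sets being unions of components. -/
structure Pairing (G : SimpleGraph V) (c : V → C) (R A : Set V) (f : V → V) : Prop where
  inv : ∀ v, f (f v) = v
  col : ∀ v, c (f v) = c v
  adj : ∀ u v, G.Adj (f u) (f v) ↔ G.Adj u v
  fix : ∀ v ∈ R, f v = v
  side : ∀ v, v ∉ R → (v ∈ A ↔ f v ∉ A)
  disj : ∀ v ∈ A, v ∉ R
  noRA : ∀ u v, G.Adj u v → (u ∈ R ↔ v ∈ R)
  noAB : ∀ u v, G.Adj u v → (u ∈ A ↔ v ∈ A)

theorem closed_of_adj (G : SimpleGraph V) (X : Set V)
    (h : ∀ u v, G.Adj u v → (u ∈ X ↔ v ∈ X)) {u v : V}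
    (huv : G.connectedComponentMk u = G.connectedComponentMk v) : u ∈ X ↔ v ∈ X := by
  obtain ⟨w⟩ := SimpleGraph.ConnectedComponent.exact huv
  induction w with
  | nil => exact Iff.rfl
  | cons hadj _ ih =>
    refine (h _ _ hadj).trans (ih ?_)
    rw [← huv]
    exact SimpleGraph.ConnectedComponent.sound hadj.reachable.symm

theorem mk_adj {G : SimpleGraph V} {u v : V} (h : G.Adj u v) :
    G.connectedComponentMk u = G.connectedComponentMk v :=
  SimpleGraph.ConnectedComponent.sound h.reachable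

theorem Pairing.extend' {G : SimpleGraph V} {c : V → C} {R A : Set V} {f : V → V}
    (h : Pairing G c R A f) {K : Type} (mk : V → K) (hmk : ∀ u v, G.Adj u v → mk u = mk v)
    (hRc : ∀ u v, mk u = mk v → (u ∈ R ↔ v ∈ R)) (κ₁ κ₂ : K) (hne : κ₁ ≠ κ₂)
    (hex : ∃ v, mk v = κ₁)
    (h₁ : ∀ v, mk v = κ₁ → v ∈ R)
    (h₂ : ∀ v, mk v = κ₂ → v ∈ R)
    (e : {v // mk v = κ₁} ≃ {v // mk v = κ₂})
    (hec : ∀ v, c (e v).1 = c v.1) (hea : ∀ u v, G.Adj (e u).1 (e v).1 ↔ G.Adj u.1 v.1) :
    ∃ (R' A' : Set V) (f' : V → V), Pairing G c R' A' f' ∧ R' ⊂ R := by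
  let f' : V → V := fun v => if h1 : mk v = κ₁ then (e ⟨v, h1⟩).1
    else if h2 : mk v = κ₂ then (e.symm ⟨v, h2⟩).1 else f v
  have f1 : ∀ v (h1 : mk v = κ₁), f' v = (e ⟨v, h1⟩).1 := fun v h1 => dif_pos h1
  have f2 : ∀ v (h2 : mk v = κ₂), f' v = (e.symm ⟨v, h2⟩).1 := fun v h2 => by
    have h1 : ¬ mk v = κ₁ := fun h1 => hne (h1.symm.trans h2)
    simp only [f', dif_neg h1, dif_pos h2]
  have f3 : ∀ v, mk v ≠ κ₁ → mk v ≠ κ₂ → f' v = f v := fun v h1 h2 => by
    simp only [f', dif_neg h1, dif_neg h2]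
  have m1 : ∀ v, mk v = κ₁ → mk (f' v) = κ₂ := fun v h1 => by rw [f1 v h1]; exact (e ⟨v, h1⟩).2
  have m2 : ∀ v, mk v = κ₂ → mk (f' v) = κ₁ := fun v h2 => by
    rw [f2 v h2]; exact (e.symm ⟨v, h2⟩).2
  have hfR : ∀ v, v ∉ R → f v ∉ R := by
    intro v hv hfv
    have := h.fix _ hfv
    rw [h.inv] at this
    exact hv (this ▸ hfv)
  have m3 : ∀ v, mk v ≠ κ₁ → mk v ≠ κ₂ → mk (f' v) ≠ κ₁ ∧ mk (f' v) ≠ κ₂ := by
    intro v h1 h2
    rw [f3 v h1 h2]
    by_cases hv : v ∈ R
    · rw [h.fix v hv]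
      exact ⟨h1, h2⟩
    · exact ⟨fun h' => hfR v hv (h₁ _ h'), fun h' => hfR v hv (h₂ _ h')⟩
  refine ⟨{v | v ∈ R ∧ mk v ≠ κ₁ ∧ mk v ≠ κ₂}, A ∪ {v | mk v = κ₁}, f', ?_, ?_⟩
  · refine ⟨?_, ?_, ?_, ?_, ?_, ?_, ?_, ?_⟩
    · intro v
      by_cases h1 : mk v = κ₁
      · rw [f2 (f' v) (m1 v h1)]
        have : (⟨f' v, m1 v h1⟩ : {v // mk v = κ₂}) = e ⟨v, h1⟩ := Subtype.ext (f1 v h1)
        rw [this, Equiv.symm_apply_apply]
      · by_cases h2 : mk v = κ₂
        · rw [f1 (f' v) (m2 v h2)]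
          have : (⟨f' v, m2 v h2⟩ : {v // mk v = κ₁}) = e.symm ⟨v, h2⟩ := Subtype.ext (f2 v h2)
          rw [this, Equiv.apply_symm_apply]
        · rw [f3 (f' v) (m3 v h1 h2).1 (m3 v h1 h2).2, f3 v h1 h2, h.inv]
    · intro v
      by_cases h1 : mk v = κ₁
      · rw [f1 v h1, hec]
      · by_cases h2 : mk v = κ₂
        · rw [f2 v h2]
          have := hec (e.symm ⟨v, h2⟩)
          rw [Equiv.apply_symm_apply] at this
          exact this.symm
        · rw [f3 v h1 h2, h.col]
    · intro u v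
      have hmix : ∀ a b : V, mk a ≠ mk b → ¬ G.Adj a b := fun a b hab h' => hab (hmk _ _ h')
      by_cases hu1 : mk u = κ₁
      · by_cases hv1 : mk v = κ₁
        · rw [f1 u hu1, f1 v hv1, hea]
        · have h3 : ¬ G.Adj u v := hmix u v (fun h' => hv1 (h'.symm.trans hu1))
          have h4 : ¬ G.Adj (f' u) (f' v) := by
            refine hmix _ _ (fun h' => ?_)
            rw [m1 u hu1] at h'
            by_cases hv2 : mk v = κ₂
            · rw [m2 v hv2] at h'
              exact hne h'.symm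
            · exact (m3 v hv1 hv2).2 h'.symm
          exact ⟨fun h' => absurd h' h4, fun h' => absurd h' h3⟩
      · by_cases hu2 : mk u = κ₂
        · by_cases hv2 : mk v = κ₂
          · rw [f2 u hu2, f2 v hv2, ← hea]
            rw [Equiv.apply_symm_apply, Equiv.apply_symm_apply]
          · have h3 : ¬ G.Adj u v := hmix u v (fun h' => hv2 (h'.symm.trans hu2))
            have h4 : ¬ G.Adj (f' u) (f' v) := by
              refine hmix _ _ (fun h' => ?_)
              rw [m2 u hu2] at h'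
              by_cases hv1 : mk v = κ₁
              · rw [m1 v hv1] at h'
                exact hne h'
              · exact (m3 v hv1 hv2).1 h'.symm
            exact ⟨fun h' => absurd h' h4, fun h' => absurd h' h3⟩
        · by_cases hv1 : mk v = κ₁
          · have h3 : ¬ G.Adj u v := hmix u v (fun h' => hu1 (h'.trans hv1))
            have h4 : ¬ G.Adj (f' u) (f' v) := by
              refine hmix _ _ (fun h' => ?_)
              rw [m1 v hv1] at h'
              exact (m3 u hu1 hu2).2 h'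
            exact ⟨fun h' => absurd h' h4, fun h' => absurd h' h3⟩
          · by_cases hv2 : mk v = κ₂
            · have h3 : ¬ G.Adj u v := hmix u v (fun h' => hu2 (h'.trans hv2))
              have h4 : ¬ G.Adj (f' u) (f' v) := by
                refine hmix _ _ (fun h' => ?_)
                rw [m2 v hv2] at h'
                exact (m3 u hu1 hu2).1 h'
              exact ⟨fun h' => absurd h' h4, fun h' => absurd h' h3⟩
            · rw [f3 u hu1 hu2, f3 v hv1 hv2, h.adj]
    · rintro v ⟨hv, h1, h2⟩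
      rw [f3 v h1 h2, h.fix v hv]
    · intro v hv
      by_cases h1 : mk v = κ₁
      · refine ⟨fun _ => ?_, fun _ => Or.inr h1⟩
        rintro (hA | hA)
        · exact h.disj _ hA (h₂ _ (m1 v h1))
        · exact hne (hA.symm.trans (m1 v h1))
      · by_cases h2 : mk v = κ₂
        · refine ⟨?_, fun hn => absurd (Or.inr (m2 v h2)) hn⟩
          rintro (hA | hA)
          · exact absurd (h₂ v h2) (h.disj v hA)
          · exact absurd hA h1
        · have hvR : v ∉ R := fun h' => hv ⟨h', h1, h2⟩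
          have h3 := h.side v hvR
          rw [f3 v h1 h2]
          have h4 := m3 v h1 h2
          rw [f3 v h1 h2] at h4
          constructor
          · rintro (hA | hA)
            · rintro (hA' | hA')
              · exact h3.1 hA hA'
              · exact h4.1 hA'
            · exact absurd hA h1
          · intro hn
            exact Or.inl (h3.2 (fun h' => hn (Or.inl h')))
    · rintro v (hA | hA) ⟨hR, h1, h2⟩
      · exact h.disj v hA hR
      · exact h1 hA
    · intro u v huv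
      have hm := hmk _ _ huv
      have h3 := hRc u v hm
      simp only [Set.mem_ofPred_eq]
      rw [h3, hm]
    · intro u v huv
      have hm := hmk _ _ huv
      have h3 := h.noAB u v huv
      simp only [Set.mem_union, Set.mem_ofPred_eq]
      rw [h3, hm]
  · refine ⟨fun v hv => hv.1, fun hsub => ?_⟩
    obtain ⟨v, hv⟩ := hex
    exact (hsub (h₁ v hv)).2.1 hv

theorem Pairing.extend {G : SimpleGraph V} {c : V → C} {R A : Set V} {f : V → V}
    (h : Pairing G c R A f) (κ₁ κ₂ : G.ConnectedComponent) (hne : κ₁ ≠ κ₂)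
    (h₁ : ∀ v, G.connectedComponentMk v = κ₁ → v ∈ R)
    (h₂ : ∀ v, G.connectedComponentMk v = κ₂ → v ∈ R)
    (e : {v // G.connectedComponentMk v = κ₁} ≃ {v // G.connectedComponentMk v = κ₂})
    (hec : ∀ v, c (e v).1 = c v.1) (hea : ∀ u v, G.Adj (e u).1 (e v).1 ↔ G.Adj u.1 v.1) :
    ∃ (R' A' : Set V) (f' : V → V), Pairing G c R' A' f' ∧ R' ⊂ R :=
  h.extend' G.connectedComponentMk (fun _ _ => mk_adj) (fun _ _ => closed_of_adj G R h.noRA)
    κ₁ κ₂ hne κ₁.exists_rep h₁ h₂ e hec hea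

/-- The subsemiring of vectors of homomorphism sums of the components. -/
def valSemi [Fintype V] [Fintype C] (G : SimpleGraph V) (c : V → C) (S : C → Prop) :
    Subsemiring (G.ConnectedComponent → ℝ) where
  carrier := {x | ∃ (T : Type) (_ : Fintype T) (col : T → C) (μ : T → ℝ) (w : Sym2 T → ℝ),
    (∀ t, ¬ S (col t) → 0 ≤ μ t) ∧
    ∀ κ, x κ = hom (fib G G.connectedComponentMk κ) (fun v => c v.1) col μ w}
  mul_mem' := by
    rintro x y ⟨T, _, col, μ, w, hμ, hx⟩ ⟨U, _, col', μ', w', hμ', hy⟩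
    refine ⟨T × U, inferInstance, fun p => col p.1, mulMu col col' μ μ', mulW w w', ?_, ?_⟩
    · intro p hp
      simp only [mulMu]
      split_ifs with h
      · exact mul_nonneg (hμ _ hp) (hμ' _ (by rw [← h]; exact hp))
      · exact le_rfl
    · intro κ
      rw [hom_mul, Pi.mul_apply, hx, hy]
  one_mem' := by
    refine ⟨C, inferInstance, fun a => a, fun _ => 1, fun _ => 1, fun _ _ => zero_le_one, ?_⟩
    intro κ
    rw [hom_one]
    rfl
  add_mem' := by
    rintro x y ⟨T, _, col, μ, w, hμ, hx⟩ ⟨U, _, col', μ', w', hμ', hy⟩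
    refine ⟨T ⊕ U, inferInstance, Sum.elim col col', Sum.elim μ μ', sumW w w', ?_, ?_⟩
    · rintro (t | u) ht
      · exact hμ t ht
      · exact hμ' u ht
    · intro κ
      have h1 := hom_add (fib G G.connectedComponentMk κ) κ.connected_toSimpleGraph
        (fun v => c v.1) col col' μ μ' w w'
      rw [Pi.add_apply, hx, hy]
      exact h1.symm
  zero_mem' := by
    refine ⟨Empty, inferInstance, Empty.elim, Empty.elim, fun _ => 0, fun t => t.elim, ?_⟩
    intro κ
    obtain ⟨v⟩ : Nonempty {v // G.connectedComponentMk v = κ} :=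
      κ.connected_toSimpleGraph.nonempty
    have : IsEmpty ({v // G.connectedComponentMk v = κ} → Empty) := ⟨fun φ => (φ v).elim⟩
    simp [hom, Z]

theorem components [Fintype V] [Fintype C] (G : SimpleGraph V) (c : V → C) (S : C → Prop)
    (h : PosR G c S) :
    ∃ (R A : Set V) (f : V → V), Pairing G c R A f ∧
      ∀ κ : G.ConnectedComponent, (∀ v, G.connectedComponentMk v = κ → v ∈ R) →
        PosR (fib G G.connectedComponentMk κ) (fun v => c v.1) S := by
  have hex : ∃ n, ∃ (R A : Set V) (f : V → V), Pairing G c R A f ∧ R.ncard = n := by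
    refine ⟨_, Set.univ, ∅, id, ⟨fun _ => rfl, fun _ => rfl, fun _ _ => Iff.rfl, fun _ _ => rfl,
      fun v hv => absurd (Set.mem_univ v) hv, fun v hv => absurd hv (Set.notMem_empty v),
      fun _ _ _ => by simp, fun _ _ _ => Iff.rfl⟩, rfl⟩
  obtain ⟨R, A, f, hP, hn⟩ := Nat.find_spec hex
  have hmin : ∀ (R' A' : Set V) (f' : V → V), Pairing G c R' A' f' → ¬ R' ⊂ R := by
    intro R' A' f' hP' hlt
    have h1 := Set.ncard_lt_ncard hlt (Set.toFinite R)
    rw [hn] at h1
    exact Nat.find_min hex h1 ⟨R', A', f', hP', rfl⟩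
  refine ⟨R, A, f, hP, ?_⟩
  set mk := G.connectedComponentMk with hmk
  by_contra hcon
  push Not at hcon
  obtain ⟨κ₀, hκ₀, hnot⟩ := hcon
  unfold PosR at hnot
  push Not at hnot
  obtain ⟨T₀, iT₀, col₀, μ₀, w₀, hadm₀, hneg₀⟩ := hnot
  set RC : Finset G.ConnectedComponent :=
    univ.filter (fun κ => ∀ v, mk v = κ → v ∈ R) with hRC
  obtain ⟨x, ⟨T, iT, col, μ, w, hadm, hx⟩, hxneg, hxne⟩ := semi_lemma (valSemi G c S) RC (by
    intro κ hκ κ' hκ' hne
    by_contra hcon
    push Not at hcon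
    have hκR : ∀ v, mk v = κ → v ∈ R := (Finset.mem_filter.1 hκ).2
    have hκR' : ∀ v, mk v = κ' → v ∈ R := (Finset.mem_filter.1 hκ').2
    obtain ⟨e, hec, hea⟩ := iso_of_eqHom (fib G mk κ) (fib G mk κ') (fun v => c v.1)
      (fun v => c v.1) (by
        intro T _ col μ w hμ hw
        have h1 := hcon (fun κ => hom (fib G mk κ) (fun v => c v.1) col μ w)
          ⟨T, inferInstance, col, μ, w, fun t _ => hμ t, fun _ => rfl⟩
          (fun κ => hom_nonneg _ _ _ _ _ hμ hw)
        exact h1)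
    obtain ⟨R', A', f', hP', hlt⟩ := hP.extend κ κ' hne hκR hκR' e hec hea
    exact hmin R' A' f' hP' hlt)
    ⟨fun κ => hom (fib G mk κ) (fun v => c v.1) col₀ μ₀ w₀,
      ⟨T₀, iT₀, col₀, μ₀, w₀, hadm₀, fun _ => rfl⟩, κ₀, by simp [hRC]; exact hκ₀, hneg₀⟩
  have htot := h T col μ w hadm
  rw [hom_prod G mk (fun u v huv => mk_adj huv)] at htot
  have hxx : ∀ κ, hom (fib G mk κ) (fun v => c v.1) col μ w = x κ := fun κ => (hx κ).symm
  simp_rw [hxx] at htot
  -- the involution on components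
  let F : G →g G := ⟨f, fun {a b} hab => (hP.adj a b).2 hab⟩
  set fC : G.ConnectedComponent → G.ConnectedComponent := fun κ => κ.map F with hfC
  have hfCmk : ∀ v, fC (mk v) = mk (f v) := fun v => rfl
  have hfCinv : ∀ κ, fC (fC κ) = κ := by
    intro κ
    obtain ⟨v, rfl⟩ := κ.exists_rep
    show fC (fC (mk v)) = mk v
    rw [hfCmk, hfCmk, hP.inv]
  have hxf : ∀ κ, x (fC κ) = x κ := by
    intro κ
    rw [← hxx, ← hxx]
    symm
    unfold hom
    refine Z_iso _ _ ⟨fun v => ⟨f v.1, by rw [← hfCmk, v.2]⟩,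
      fun v => ⟨f v.1, by rw [← hfCmk, v.2, hfCinv]⟩, fun v => Subtype.ext (hP.inv _),
      fun v => Subtype.ext (hP.inv _)⟩ (fun u v => hP.adj u.1 v.1) _ _ (fun v t => ?_) w
    simp only [cw, Equiv.coe_fn_mk, hP.col]
  set AC : Finset G.ConnectedComponent := univ.filter (fun κ => ∃ v, mk v = κ ∧ v ∈ A) with hAC
  set BC : Finset G.ConnectedComponent :=
    univ.filter (fun κ => ∃ v, mk v = κ ∧ v ∉ R ∧ v ∉ A) with hBC
  have hRcl : ∀ u v, mk u = mk v → (u ∈ R ↔ v ∈ R) := fun u v => closed_of_adj G R hP.noRA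
  have hAcl : ∀ u v, mk u = mk v → (u ∈ A ↔ v ∈ A) := fun u v => closed_of_adj G A hP.noAB
  have hfR : ∀ v, v ∉ R → f v ∉ R := by
    intro v hv hfv
    have := hP.fix _ hfv
    rw [hP.inv] at this
    exact hv (this ▸ hfv)
  have hcompl : univ \ RC = AC ∪ BC := by
    ext κ
    simp only [mem_sdiff, mem_univ, true_and, hRC, hAC, hBC, mem_union, mem_filter]
    constructor
    · intro hn
      push Not at hn
      obtain ⟨u, hu, huR⟩ := hn
      by_cases huA : u ∈ A
      · exact Or.inl ⟨u, hu, huA⟩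
      · exact Or.inr ⟨u, hu, huR, huA⟩
    · rintro (⟨u, hu, huA⟩ | ⟨u, hu, huR, _⟩) hall
      · exact hP.disj u huA (hall u hu)
      · exact huR (hall u hu)
  have hdisj : Disjoint AC BC := by
    rw [Finset.disjoint_left]
    intro κ h1 h2
    obtain ⟨_, u, hu, huA⟩ := Finset.mem_filter.1 h1
    obtain ⟨_, v, hv, _, hvA⟩ := Finset.mem_filter.1 h2
    exact hvA ((hAcl u v (hu.trans hv.symm)).1 huA)
  have hprod : ∏ κ ∈ BC, x κ = ∏ κ ∈ AC, x κ := by
    refine Finset.prod_nbij' fC fC ?_ ?_ (fun κ _ => hfCinv κ) (fun κ _ => hfCinv κ)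
      (fun κ _ => (hxf κ).symm)
    · intro κ hκ
      obtain ⟨_, v, rfl, hvR, hvA⟩ := Finset.mem_filter.1 hκ
      refine Finset.mem_filter.2 ⟨mem_univ _, f v, (hfCmk v).symm, ?_⟩
      by_contra hn
      exact hvA ((hP.side v hvR).2 hn)
    · intro κ hκ
      obtain ⟨_, v, rfl, hvA⟩ := Finset.mem_filter.1 hκ
      exact Finset.mem_filter.2 ⟨mem_univ _, f v, (hfCmk v).symm, hfR v (hP.disj v hvA),
        (hP.side v (hP.disj v hvA)).1 hvA⟩
  have hsplit : ∏ κ, x κ = (∏ κ ∈ RC, x κ) * (∏ κ ∈ AC, x κ) ^ 2 := by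
    rw [← Finset.prod_sdiff (Finset.subset_univ RC), hcompl, Finset.prod_union hdisj, hprod]
    ring
  rw [hsplit] at htot
  have hsq : 0 < (∏ κ ∈ AC, x κ) ^ 2 :=
    sq_pos_of_ne_zero (Finset.prod_ne_zero_iff.2 (fun κ _ => hxne κ))
  exact absurd htot (not_le.2 (mul_neg_of_neg_of_pos hxneg hsq))

end Pool.Agent.PG
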