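import Mathlib

/-!
MP_e25ec6_co (positive graph conjecture, S12021): the two sides of the frozen statement as
definitions, and the statements of the two side modules.

Module T (file `Pool/Agent/Lib/MP_e25ec6_co/H95/Transfer.lean` or `H96`, namespace
`Pool.Agent.PGT`), to be proved:

theorem transfer (n : ℕ) (H : SimpleGraph (Fin n)) [DecidableRel H.Adj] (hpos : LeftSide n H)
    (T : Type) [Fintype T] (μ : T → ℝ) (hμ : ∀ t, 0 ≤ μ t) (w : Sym2 T → ℝ) :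
    0 ≤ ∑ φ : Fin n → T, (∏ v, μ (φ v)) *
      ∏ p ∈ Finset.univ.filter (fun p : Fin n × Fin n => p.1 < p.2 ∧ H.Adj p.1 p.2),
        w s(φ p.1, φ p.2)

Module I (file `Pool/Agent/Lib/MP_e25ec6_co/H67/IfDir.lean`, namespace `Pool.Agent.PGI`), to be
proved:

theorem if_dir (n : ℕ) (H : SimpleGraph (Fin n)) [DecidableRel H.Adj] (h : RightSide n H) :
    LeftSide n H
-/

set_option autoImplicit false

namespace Pool.Agent.PG

/-- Left side of S12021. -/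
def LeftSide (n : ℕ) (H : SimpleGraph (Fin n)) [DecidableRel H.Adj] : Prop :=
  ∀ W : ℝ → ℝ → ℝ, Measurable (Function.uncurry W) →
    (∀ x ∈ Set.Icc (0:ℝ) 1, ∀ y ∈ Set.Icc (0:ℝ) 1, W x y = W y x ∧ |W x y| ≤ 1) →
    0 ≤ ∫ x in Set.pi Set.univ (fun _ : Fin n => Set.Icc (0:ℝ) 1),
          ∏ p ∈ Finset.univ.filter (fun p : Fin n × Fin n => p.1 < p.2 ∧ H.Adj p.1 p.2),
            W (x p.1) (x p.2)

/-- Right side of S12021. -/
def RightSide (n : ℕ) (H : SimpleGraph (Fin n)) : Prop :=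
  ∃ I A B : Set (Fin n), Disjoint I A ∧ Disjoint I B ∧ Disjoint A B ∧
    I ∪ A ∪ B = Set.univ ∧
    (∀ u ∈ I, ∀ v ∈ I, ¬ H.Adj u v) ∧
    (∀ a ∈ A, ∀ b ∈ B, ¬ H.Adj a b) ∧
    ∃ f : Fin n → Fin n, Set.BijOn f (I ∪ A) (I ∪ B) ∧ (∀ i ∈ I, f i = i) ∧
      ∀ u ∈ I ∪ A, ∀ v ∈ I ∪ A, (H.Adj u v ↔ H.Adj (f u) (f v))

end Pool.Agent.PG
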