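import Pool.Agent.Lib.MP_e25ec6_co.H59.Split
import Pool.Agent.Lib.MP_e25ec6_co.H59.Interfaces

/-!
Conversion between the finite form and the two sides of the frozen statement.
-/

set_option autoImplicit false

open Finset
open scoped Classical

namespace Pool.Agent.PG

theorem edge_prod_lt (n : ℕ) (H : SimpleGraph (Fin n)) (F : Sym2 (Fin n) → ℝ) :
    ∏ p ∈ (univ : Finset (Fin n × Fin n)).filter (fun p => p.1 < p.2 ∧ H.Adj p.1 p.2),
      F s(p.1, p.2) = ∏ e ∈ H.edgeFinset, F e := by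
  refine Finset.prod_bij (fun p _ => s(p.1, p.2)) ?_ ?_ ?_ ?_
  · intro p hp
    simp only [mem_filter, mem_univ, true_and] at hp
    simpa using hp.2
  · intro p hp q hq h
    simp only [mem_filter, mem_univ, true_and] at hp hq
    rcases Sym2.eq_iff.1 h with ⟨h1, h2⟩ | ⟨h1, h2⟩
    · exact Prod.ext h1 h2
    · exfalso
      have := hp.1
      rw [h1, h2] at this
      exact absurd (this.trans hq.1) (lt_irrefl _)
  · intro e he
    induction e using Sym2.ind with
    | _ x y =>
      have hxy : H.Adj x y := by simpa using he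
      rcases lt_or_gt_of_ne hxy.ne with h | h
      · exact ⟨(x, y), by simp [h, hxy], rfl⟩
      · exact ⟨(y, x), by simp [h, hxy.symm], Sym2.eq_swap⟩
  · intro p _
    rfl

theorem pos_of_transfer (n : ℕ) (H : SimpleGraph (Fin n)) [DecidableRel H.Adj] (v₀ : Fin n)
    (h : ∀ (T : Type) [Fintype T] (μ : T → ℝ), (∀ t, 0 ≤ μ t) → ∀ w : Sym2 T → ℝ,
      0 ≤ ∑ φ : Fin n → T, (∏ v, μ (φ v)) *
        ∏ p ∈ Finset.univ.filter (fun p : Fin n × Fin n => p.1 < p.2 ∧ H.Adj p.1 p.2),
          w s(φ p.1, φ p.2)) : Pos H (fun _ => v₀) := by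
  intro T _ col μ w hμ
  have h1 := h T (fun t => if col t = v₀ then μ t else 0) (fun t => by
    split_ifs
    · exact hμ t not_false
    · exact le_rfl) w
  refine h1.trans (le_of_eq ?_)
  unfold hom Z
  refine Finset.sum_congr (by ext φ; simp) (fun φ _ => ?_)
  congr 1
  · refine Finset.prod_congr rfl (fun v _ => ?_)
    by_cases hv : col (φ v) = v₀
    · simp [cw, hv]
    · simp [cw, hv]
  · rw [← edge_prod_lt n H (fun e => w (e.map φ))]
    refine Finset.prod_congr ?_ (fun p _ => rfl)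
    ext p
    simp

theorem right_of_splits (n : ℕ) (H : SimpleGraph (Fin n)) (f : Fin n → Fin n) (A : Set (Fin n))
    (h : Splits H f A) : RightSide n H := by
  have hAB : ∀ v, f v ≠ v → f (f v) ≠ f v := by
    intro v hv hv'
    rw [h.inv] at hv'
    exact hv hv'.symm
  refine ⟨{v | f v = v}, A, {v | f v ≠ v ∧ v ∉ A}, ?_, ?_, ?_, ?_, ?_, ?_, f, ⟨?_, ?_, ?_⟩, ?_, ?_⟩
  · rw [Set.disjoint_left]
    intro v hv hA
    exact h.mem v hA hv
  · rw [Set.disjoint_left]
    intro v hv hB
    exact hB.1 hv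
  · rw [Set.disjoint_left]
    intro v hv hB
    exact hB.2 hv
  · ext v
    simp only [Set.mem_union, Set.mem_ofPred_eq, Set.mem_univ, iff_true]
    by_cases h1 : f v = v
    · exact Or.inl (Or.inl h1)
    · by_cases h2 : v ∈ A
      · exact Or.inl (Or.inr h2)
      · exact Or.inr ⟨h1, h2⟩
  · intro u hu v hv
    exact h.ind u v hu hv
  · intro a ha b hb hab
    exact hb.2 ((h.noAB a b (h.mem a ha) hb.1 hab).1 ha)
  · rintro v (hv | hv)
    · left
      have hv' : f v = v := hv
      show f (f v) = f v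
      rw [hv']
      exact hv'
    · right
      have h1 := h.mem v hv
      exact ⟨hAB v h1, (h.side v h1).1 hv⟩
  · intro u _ v _ huv
    rw [← h.inv u, ← h.inv v, huv]
  · rintro w (hw | hw)
    · exact ⟨w, Or.inl hw, hw⟩
    · refine ⟨f w, Or.inr ?_, h.inv w⟩
      by_contra hn
      exact hw.2 ((h.side w hw.1).2 hn)
  · intro i hi
    exact hi
  · intro u _ v _
    exact (h.adj u v).symm

theorem right_of_transfer (n : ℕ) (H : SimpleGraph (Fin n)) [DecidableRel H.Adj]
    (h : ∀ (T : Type) [Fintype T] (μ : T → ℝ), (∀ t, 0 ≤ μ t) → ∀ w : Sym2 T → ℝ,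
      0 ≤ ∑ φ : Fin n → T, (∏ v, μ (φ v)) *
        ∏ p ∈ Finset.univ.filter (fun p : Fin n × Fin n => p.1 < p.2 ∧ H.Adj p.1 p.2),
          w s(φ p.1, φ p.2)) : RightSide n H := by
  rcases Nat.eq_zero_or_pos n with hn | hn
  · subst hn
    refine ⟨∅, ∅, ∅, by simp, by simp, by simp, ?_, by simp, by simp, id, by simp, by simp,
      by simp⟩
    ext v
    exact v.elim0
  · obtain ⟨f, A, hf⟩ := splits_of_pos H (fun _ => (⟨0, hn⟩ : Fin n))
      (pos_of_transfer n H ⟨0, hn⟩ h)
    exact right_of_splits n H f A hf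

end Pool.Agent.PG
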