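import Pool.Agent.Lib.MP_e25ec6_co.H59.Struct

/-!
Combinatorial consequences of the structure of finest positive colourings.
-/

set_option autoImplicit false

open Finset
open scoped Classical

namespace Pool.Agent.PG

variable {V C : Type}

/-- A vertex is odd for `c` if it has an odd number of neighbours of some colour. -/
def OddV [Fintype V] (G : SimpleGraph V) (c : V → C) (v : V) : Prop := ∃ b, Odd (dg G c v b)

/-- Combinatorial structure of a finest positive colouring. -/
structure Fine [Fintype V] (G : SimpleGraph V) (c : V → V) : Prop where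
  equit : ∀ u v b, c u = c v → dg G c u b = dg G c v b
  retr : ∀ x, ∃ σ : V → V, σ x = x ∧ (∀ v, c (σ v) = c v) ∧ (∀ u v, c u = c v → σ u = σ v) ∧
      (∀ u v, G.Adj u v → G.Adj (σ u) (σ v)) ∧
      (∀ v, OddV G c v → ∀ w, G.Adj (σ v) w → ∃ u, G.Adj v u ∧ σ u = w)

theorem Finest.fine [Fintype V] {G : SimpleGraph V} {c : V → V} (hc : Finest G c) : Fine G c := by
  refine ⟨finest_equit G c hc, fun x => ?_⟩
  obtain ⟨σ, h1, h2, h3, h4, h5⟩ := finest_retr G c hc x
  refine ⟨σ, h1, h2, h3, h4, fun v hv w hw => h5 v ?_ w hw⟩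
  obtain ⟨b, hb⟩ := hv
  refine ⟨{b}, fun v' hv' => ?_⟩
  have := finest_equit G c hc v' v b hv'
  simp only [Set.mem_singleton_iff]
  unfold dg at this hb
  rw [this]
  exact hb

namespace Fine

variable [Fintype V] {G : SimpleGraph V} {c : V → V} (h : Fine G c)

include h

theorem indep {u v : V} (huv : G.Adj u v) : c u ≠ c v := by
  intro hc
  obtain ⟨σ, _, _, h3, h4, _⟩ := h.retr u
  have := h4 u v huv
  rw [h3 u v hc] at this
  exact G.irrefl this

theorem oddV_congr {u v : V} (huv : c u = c v) (hu : OddV G c u) : OddV G c v := by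
  obtain ⟨b, hb⟩ := hu
  exact ⟨b, by rw [← h.equit u v b huv]; exact hb⟩

/-- An odd vertex has at most one neighbour of each colour. -/
theorem odd_nbr {v w w' : V} (hv : OddV G c v) (hw : G.Adj v w) (hw' : G.Adj v w')
    (hc : c w = c w') : w = w' := by
  obtain ⟨σ, h1, h2, h3, _, h5⟩ := h.retr v
  obtain ⟨u, _, hu⟩ := h5 v hv w (by rw [h1]; exact hw)
  obtain ⟨u', _, hu'⟩ := h5 v hv w' (by rw [h1]; exact hw')
  rw [← hu, ← hu']
  refine h3 u u' ?_
  rw [← h2 u, ← h2 u', hu, hu', hc]

theorem exists_nbr {u v w : V} (huv : c u = c v) (hw : G.Adj u w) :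
    ∃ w', G.Adj v w' ∧ c w' = c w := by
  have h1 : dg G c u (c w) ≠ 0 := by
    unfold dg
    rw [Finset.card_ne_zero]
    exact ⟨w, by simp [hw]⟩
  rw [h.equit u v _ huv] at h1
  unfold dg at h1
  rw [Finset.card_ne_zero] at h1
  obtain ⟨w', hw'⟩ := h1
  exact ⟨w', by simpa using hw'⟩

/-- An even vertex has at least two neighbours of each colour it sees. -/
theorem even_nbr {u w : V} (hu : ¬ OddV G c u) (hw : G.Adj u w) :
    ∃ w', w' ≠ w ∧ G.Adj u w' ∧ c w' = c w := by
  have h1 : Even (dg G c u (c w)) := by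
    rw [← Nat.not_odd_iff_even]
    exact fun h' => hu ⟨_, h'⟩
  have h2 : 0 < dg G c u (c w) := Finset.card_pos.2 ⟨w, by simp [hw]⟩
  have h3 : 1 < dg G c u (c w) := by
    obtain ⟨k, hk⟩ := h1
    omega
  unfold dg at h3
  obtain ⟨w', hw', hne⟩ := Finset.exists_mem_ne h3 w
  exact ⟨w', hne, by simpa using hw'⟩

/-- Along a walk whose inner vertices are odd, all vertices have different colours unless they
coincide.  More precisely: if `x` is odd and `σ` fixes `x`, then `σ` fixes all neighbours of `x`. -/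
theorem fix_nbr {σ : V → V} (h2 : ∀ v, c (σ v) = c v) (h3 : ∀ u v, c u = c v → σ u = σ v)
    (h5 : ∀ v, OddV G c v → ∀ w, G.Adj (σ v) w → ∃ u, G.Adj v u ∧ σ u = w)
    {x w : V} (hx : σ x = x) (hodd : OddV G c x) (hw : G.Adj x w) : σ w = w := by
  obtain ⟨u, _, hu⟩ := h5 x hodd w (by rw [hx]; exact hw)
  have : c w = c u := by rw [← hu, h2]
  rw [h3 w u this, hu]

end Fine

end Pool.Agent.PG
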