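import Mathlib
import Pool.Agent.Lib.MP_e25ec6_co.H59.Interfaces

/-!
A graph with a symmetric splitting is positive (integral form).
-/

set_option autoImplicit false

open Finset MeasureTheory

namespace Pool.Agent.PG

theorem mp_theta {ι₁ ι₂ ι : Type} [Fintype ι₁] [Fintype ι₂] [Fintype ι]
    (e : ι₁ ⊕ (ι₂ ⊕ ι₂) ≃ ι) (ν : Measure ℝ) [SigmaFinite ν] :
    MeasurePreserving (fun x : ι → ℝ => ((fun i : ι₁ => x (e (Sum.inl i))),
        ((fun a : ι₂ => x (e (Sum.inr (Sum.inl a)))), (fun a : ι₂ => x (e (Sum.inr (Sum.inr a)))))))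
      (Measure.pi fun _ => ν)
      ((Measure.pi fun _ => ν).prod ((Measure.pi fun _ => ν).prod (Measure.pi fun _ => ν))) := by
  have h1 := (measurePreserving_piCongrLeft (fun _ : ι => ν) e).symm
  have h2 := measurePreserving_sumPiEquivProdPi (fun _ : ι₁ ⊕ (ι₂ ⊕ ι₂) => ν)
  have h3 := measurePreserving_sumPiEquivProdPi (fun _ : ι₂ ⊕ ι₂ => ν)
  have h4 := (MeasurePreserving.id (Measure.pi fun _ : ι₁ => ν)).prod h3
  exact h4.comp (h2.comp h1)

theorem square_int {X Y : Type} [MeasurableSpace X] [MeasurableSpace Y] (μ : Measure X)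
    (ν : Measure Y) [SigmaFinite μ] [SigmaFinite ν] (g : X → Y → ℝ) :
    0 ≤ ∫ p : X × (Y × Y), g p.1 p.2.1 * g p.1 p.2.2 ∂(μ.prod (ν.prod ν)) := by
  by_cases hi : Integrable (fun p : X × (Y × Y) => g p.1 p.2.1 * g p.1 p.2.2)
      (μ.prod (ν.prod ν))
  · rw [integral_prod _ hi]
    refine integral_nonneg (fun x => ?_)
    show 0 ≤ ∫ q : Y × Y, g x q.1 * g x q.2 ∂(ν.prod ν)
    rw [integral_prod_mul (fun y => g x y) (fun y => g x y)]
    exact mul_self_nonneg _
  · rw [integral_undef hi]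

theorem if_dir (n : ℕ) (H : SimpleGraph (Fin n)) [DecidableRel H.Adj] (h : RightSide n H) :
    LeftSide n H := by
  classical
  obtain ⟨I, A, B, hIA, hIB, hAB, hun, hII, hnoAB, f, hbij, hfix, hiso⟩ := h
  intro W₀ hW₀m hW₀
  -- symmetric everywhere
  set W : ℝ → ℝ → ℝ := fun x y => if x ∈ Set.Icc (0:ℝ) 1 ∧ y ∈ Set.Icc (0:ℝ) 1 then W₀ x y else 0
    with hW
  have hWs : ∀ x y, W x y = W y x := by
    intro x y
    simp only [hW]
    by_cases h1 : x ∈ Set.Icc (0:ℝ) 1 ∧ y ∈ Set.Icc (0:ℝ) 1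
    · rw [if_pos h1, if_pos ⟨h1.2, h1.1⟩]
      exact (hW₀ x h1.1 y h1.2).1
    · rw [if_neg h1, if_neg (fun h => h1 ⟨h.2, h.1⟩)]
  have hWm : Measurable (Function.uncurry W) := by
    have hs : MeasurableSet {z : ℝ × ℝ | z.1 ∈ Set.Icc (0:ℝ) 1 ∧ z.2 ∈ Set.Icc (0:ℝ) 1} :=
      (measurable_fst measurableSet_Icc).inter (measurable_snd measurableSet_Icc)
    exact Measurable.ite hs hW₀m measurable_const
  let w : Sym2 ℝ → ℝ := Sym2.lift ⟨W, hWs⟩
  -- edges
  set EA : Finset (Sym2 (Fin n)) := univ.filter (fun e => e ∈ H.edgeSet ∧ ∀ v ∈ e, v ∈ I ∪ A)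
    with hEA
  set EB : Finset (Sym2 (Fin n)) := univ.filter (fun e => e ∈ H.edgeSet ∧ ∀ v ∈ e, v ∈ I ∪ B)
    with hEB
  have hfA : ∀ a ∈ A, f a ∈ B := by
    intro a ha
    rcases hbij.mapsTo (Or.inr ha) with h1 | h1
    · exfalso
      have h2 := hbij.injOn (Or.inl h1) (Or.inr ha) (hfix _ h1)
      exact Set.disjoint_left.1 hIA h1 (by rw [h2]; exact ha)
    · exact h1
  have hAf : ∀ b ∈ B, ∃ a ∈ A, f a = b := by
    intro b hb
    obtain ⟨a, ha, hab⟩ := hbij.surjOn (Or.inr hb)
    rcases ha with ha | ha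
    · exfalso
      rw [hfix a ha] at hab
      exact Set.disjoint_left.1 hIB ha (hab ▸ hb)
    · exact ⟨a, ha, hab⟩
  -- the factorisation of the integrand
  let PA : (Fin n → ℝ) → ℝ := fun u => ∏ e ∈ EA, w (e.map u)
  have hfac : ∀ x : Fin n → ℝ,
      ∏ p ∈ Finset.univ.filter (fun p : Fin n × Fin n => p.1 < p.2 ∧ H.Adj p.1 p.2),
        W (x p.1) (x p.2) = PA x * PA (x ∘ f) := by
    intro x
    have h1 : ∏ p ∈ Finset.univ.filter (fun p : Fin n × Fin n => p.1 < p.2 ∧ H.Adj p.1 p.2),
        W (x p.1) (x p.2) = ∏ e ∈ EA ∪ EB, w (e.map x) := by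
      refine Finset.prod_bij (fun p _ => s(p.1, p.2)) ?_ ?_ ?_ ?_
      · intro p hp
        simp only [mem_filter, mem_univ, true_and] at hp
        have hm : ∀ v : Fin n, v ∈ I ∨ v ∈ A ∨ v ∈ B := by
          intro v
          have : v ∈ I ∪ A ∪ B := by rw [hun]; exact Set.mem_univ v
          rcases this with (h | h) | h
          · exact Or.inl h
          · exact Or.inr (Or.inl h)
          · exact Or.inr (Or.inr h)
        have hadj := hp.2
        simp only [hEA, hEB, mem_union, mem_filter, mem_univ, true_and, SimpleGraph.mem_edgeSet,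
          Sym2.mem_iff, forall_eq_or_imp, forall_eq, Set.mem_union]
        rcases hm p.1 with h1 | h1 | h1 <;> rcases hm p.2 with h2 | h2 | h2
        · exact absurd hadj (hII _ h1 _ h2)
        · exact Or.inl ⟨hadj, Or.inl h1, Or.inr h2⟩
        · exact Or.inr ⟨hadj, Or.inl h1, Or.inr h2⟩
        · exact Or.inl ⟨hadj, Or.inr h1, Or.inl h2⟩
        · exact Or.inl ⟨hadj, Or.inr h1, Or.inr h2⟩
        · exact absurd hadj (hnoAB _ h1 _ h2)
        · exact Or.inr ⟨hadj, Or.inr h1, Or.inl h2⟩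
        · exact absurd hadj.symm (hnoAB _ h2 _ h1)
        · exact Or.inr ⟨hadj, Or.inr h1, Or.inr h2⟩
      · intro p hp q hq hpq
        simp only [mem_filter, mem_univ, true_and] at hp hq
        rcases Sym2.eq_iff.1 hpq with ⟨h1, h2⟩ | ⟨h1, h2⟩
        · exact Prod.ext h1 h2
        · exfalso
          have := hp.1
          rw [h1, h2] at this
          exact absurd (this.trans hq.1) (lt_irrefl _)
      · intro e he
        have he' : e ∈ H.edgeSet := by
          rcases Finset.mem_union.1 he with h | h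
          · exact (Finset.mem_filter.1 h).2.1
          · exact (Finset.mem_filter.1 h).2.1
        clear he
        induction e using Sym2.ind with
        | _ a b =>
          have hab : H.Adj a b := he'
          rcases lt_or_gt_of_ne hab.ne with h | h
          · exact ⟨(a, b), by simp [h, hab], rfl⟩
          · exact ⟨(b, a), by simp [h, hab.symm], Sym2.eq_swap⟩
      · intro p _
        rfl
    have hdisj : Disjoint EA EB := by
      rw [Finset.disjoint_left]
      intro e he he'
      have h1 := (Finset.mem_filter.1 he).2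
      have h2 := (Finset.mem_filter.1 he').2
      clear he he'
      induction e using Sym2.ind with
      | _ a b =>
        have hmem : ∀ v : Fin n, v ∈ I ∪ A → v ∈ I ∪ B → v ∈ I := by
          rintro v (h | h) (h' | h')
          · exact h
          · exact h
          · exact h'
          · exact absurd h' (Set.disjoint_left.1 hAB h)
        exact hII a (hmem a (h1.2 a (Sym2.mem_mk_left a b)) (h2.2 a (Sym2.mem_mk_left a b)))
          b (hmem b (h1.2 b (Sym2.mem_mk_right a b)) (h2.2 b (Sym2.mem_mk_right a b))) h1.1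
    rw [h1, Finset.prod_union hdisj]
    congr 1
    symm
    refine Finset.prod_bij (fun e _ => e.map f) ?_ ?_ ?_ ?_
    · intro e he
      have h2 := (Finset.mem_filter.1 he).2
      clear he
      induction e using Sym2.ind with
      | _ a b =>
        have ha := h2.2 a (Sym2.mem_mk_left a b)
        have hb := h2.2 b (Sym2.mem_mk_right a b)
        rw [Sym2.map_mk, hEB, Finset.mem_filter]
        refine ⟨mem_univ _, (hiso a ha b hb).1 h2.1, ?_⟩
        intro v hv
        rcases Sym2.mem_iff.1 hv with rfl | rfl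
        · exact hbij.mapsTo ha
        · exact hbij.mapsTo hb
    · intro e he e' he' hee
      have h2 := (Finset.mem_filter.1 he).2
      have h3 := (Finset.mem_filter.1 he').2
      clear he he'
      induction e using Sym2.ind with
      | _ a b =>
        induction e' using Sym2.ind with
        | _ a' b' =>
          have ha := h2.2 a (Sym2.mem_mk_left a b)
          have hb := h2.2 b (Sym2.mem_mk_right a b)
          have ha' := h3.2 a' (Sym2.mem_mk_left a' b')
          have hb' := h3.2 b' (Sym2.mem_mk_right a' b')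
          simp only [Sym2.map_mk] at hee
          rcases Sym2.eq_iff.1 hee with ⟨h4, h5⟩ | ⟨h4, h5⟩
          · rw [hbij.injOn ha ha' h4, hbij.injOn hb hb' h5]
          · rw [hbij.injOn ha hb' h4, hbij.injOn hb ha' h5, Sym2.eq_swap]
    · intro e he
      have h2 := (Finset.mem_filter.1 he).2
      clear he
      induction e using Sym2.ind with
      | _ a b =>
        obtain ⟨a', ha', rfl⟩ := hbij.surjOn (h2.2 a (Sym2.mem_mk_left a b))
        obtain ⟨b', hb', rfl⟩ := hbij.surjOn (h2.2 b (Sym2.mem_mk_right (f a') b))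
        refine ⟨s(a', b'), ?_, rfl⟩
        rw [hEA, Finset.mem_filter]
        refine ⟨mem_univ _, (hiso a' ha' b' hb').2 h2.1, ?_⟩
        intro v hv
        rcases Sym2.mem_iff.1 hv with rfl | rfl
        · exact ha'
        · exact hb'
    · intro e _
      rw [Sym2.map_map]
  -- the index equivalence
  let ι₁ := {v : Fin n // v ∈ I}
  let ι₂ := {v : Fin n // v ∈ A}
  let e₀ : ι₁ ⊕ (ι₂ ⊕ ι₂) → Fin n :=
    Sum.elim (fun i => i.1) (Sum.elim (fun a => a.1) (fun a => f a.1))
  have he₀ : Function.Bijective e₀ := by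
    constructor
    · rintro (i | a | a) (i' | a' | a') hh
      · exact congrArg Sum.inl (Subtype.ext hh)
      · have hh' : i.1 = a'.1 := hh
        exact absurd a'.2 (hh' ▸ Set.disjoint_left.1 hIA i.2)
      · have hh' : i.1 = f a'.1 := hh
        exact absurd (hfA _ a'.2) (hh' ▸ Set.disjoint_left.1 hIB i.2)
      · have hh' : a.1 = i'.1 := hh
        exact absurd a.2 (hh' ▸ Set.disjoint_left.1 hIA i'.2)
      · exact congrArg (fun z => Sum.inr (Sum.inl z)) (Subtype.ext hh)
      · have hh' : a.1 = f a'.1 := hh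
        exact absurd (hfA _ a'.2) (hh' ▸ Set.disjoint_left.1 hAB a.2)
      · have hh' : f a.1 = i'.1 := hh
        exact absurd (hfA _ a.2) (hh' ▸ Set.disjoint_left.1 hIB i'.2)
      · have hh' : f a.1 = a'.1 := hh
        exact absurd (hfA _ a.2) (hh' ▸ Set.disjoint_left.1 hAB a'.2)
      · have hh' : f a.1 = f a'.1 := hh
        exact congrArg (fun z => Sum.inr (Sum.inr z))
          (Subtype.ext (hbij.injOn (Or.inr a.2) (Or.inr a'.2) hh'))
    · intro v
      have : v ∈ I ∪ A ∪ B := by rw [hun]; exact Set.mem_univ v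
      rcases this with (hv | hv) | hv
      · exact ⟨Sum.inl ⟨v, hv⟩, rfl⟩
      · exact ⟨Sum.inr (Sum.inl ⟨v, hv⟩), rfl⟩
      · obtain ⟨a, ha, hav⟩ := hAf v hv
        exact ⟨Sum.inr (Sum.inr ⟨a, ha⟩), hav⟩
  let e : ι₁ ⊕ (ι₂ ⊕ ι₂) ≃ Fin n := Equiv.ofBijective e₀ he₀
  let ext : (ι₁ → ℝ) → (ι₂ → ℝ) → (Fin n → ℝ) := fun y z v =>
    if h : v ∈ I then y ⟨v, h⟩ else if h : v ∈ A then z ⟨v, h⟩ else 0
  let g : (ι₁ → ℝ) → (ι₂ → ℝ) → ℝ := fun y z => PA (ext y z)
  have hPA : ∀ u : Fin n → ℝ, PA u = g (fun i => u i.1) (fun a => u a.1) := by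
    intro u
    refine Finset.prod_congr rfl (fun e he => ?_)
    have h2 := (Finset.mem_filter.1 he).2.2
    clear he
    have hv : ∀ v, v ∈ I ∪ A → ext (fun i => u i.1) (fun a => u a.1) v = u v := by
      intro v hv
      simp only [ext]
      by_cases h1 : v ∈ I
      · rw [dif_pos h1]
      · have h3 : v ∈ A := hv.resolve_left h1
        rw [dif_neg h1, dif_pos h3]
    induction e using Sym2.ind with
    | _ a b =>
      rw [Sym2.map_mk, Sym2.map_mk, hv a (h2 a (Sym2.mem_mk_left a b)),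
        hv b (h2 b (Sym2.mem_mk_right a b))]
  have hcomb : ∀ x : Fin n → ℝ,
      ∏ p ∈ Finset.univ.filter (fun p : Fin n × Fin n => p.1 < p.2 ∧ H.Adj p.1 p.2),
        W (x p.1) (x p.2) = g (fun i => x (e (Sum.inl i))) (fun a => x (e (Sum.inr (Sum.inl a)))) *
          g (fun i => x (e (Sum.inl i))) (fun a => x (e (Sum.inr (Sum.inr a)))) := by
    intro x
    rw [hfac x, hPA x, hPA (x ∘ f)]
    have h1 : (fun i : ι₁ => (x ∘ f) i.1) = fun i => x (e (Sum.inl i)) := by
      funext i
      show x (f i.1) = x i.1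
      rw [hfix i.1 i.2]
    rw [h1]
    rfl
  -- replace W₀ by W
  have hrep : ∫ x in Set.pi Set.univ (fun _ : Fin n => Set.Icc (0:ℝ) 1),
      ∏ p ∈ Finset.univ.filter (fun p : Fin n × Fin n => p.1 < p.2 ∧ H.Adj p.1 p.2),
        W₀ (x p.1) (x p.2) = ∫ x in Set.pi Set.univ (fun _ : Fin n => Set.Icc (0:ℝ) 1),
      ∏ p ∈ Finset.univ.filter (fun p : Fin n × Fin n => p.1 < p.2 ∧ H.Adj p.1 p.2),
        W (x p.1) (x p.2) := by
    refine setIntegral_congr_fun (MeasurableSet.univ_pi (fun _ => measurableSet_Icc)) ?_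
    intro x hx
    refine Finset.prod_congr rfl (fun p _ => ?_)
    simp only [hW]
    rw [if_pos ⟨hx p.1 (Set.mem_univ _), hx p.2 (Set.mem_univ _)⟩]
  rw [hrep]
  set ν : Measure ℝ := volume.restrict (Set.Icc (0:ℝ) 1) with hν
  have hpi : (volume : Measure (Fin n → ℝ)).restrict
      (Set.pi Set.univ (fun _ : Fin n => Set.Icc (0:ℝ) 1)) = Measure.pi (fun _ => ν) := by
    rw [volume_pi, Measure.restrict_pi_pi]
  rw [hpi]
  simp_rw [hcomb]
  have hmp := mp_theta e ν
  have hgm : Measurable (fun p : (ι₁ → ℝ) × (ι₂ → ℝ) => g p.1 p.2) := by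
    refine Finset.measurable_prod _ (fun e _ => ?_)
    have hext : ∀ v : Fin n, Measurable (fun p : (ι₁ → ℝ) × (ι₂ → ℝ) => ext p.1 p.2 v) := by
      intro v
      simp only [ext]
      by_cases h1 : v ∈ I
      · simp only [dif_pos h1]
        exact (measurable_pi_apply _).comp measurable_fst
      · by_cases h2 : v ∈ A
        · simp only [dif_neg h1, dif_pos h2]
          exact (measurable_pi_apply _).comp measurable_snd
        · simp only [dif_neg h1, dif_neg h2]
          exact measurable_const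
    induction e using Sym2.ind with
    | _ a b =>
      have : (fun p : (ι₁ → ℝ) × (ι₂ → ℝ) => w ((s(a, b) : Sym2 (Fin n)).map (ext p.1 p.2))) =
          fun p => Function.uncurry W (ext p.1 p.2 a, ext p.1 p.2 b) := rfl
      rw [this]
      exact hWm.comp ((hext a).prodMk (hext b))
  have hhm : Measurable (fun p : (ι₁ → ℝ) × ((ι₂ → ℝ) × (ι₂ → ℝ)) =>
      g p.1 p.2.1 * g p.1 p.2.2) :=
    (hgm.comp (measurable_fst.prodMk (measurable_fst.comp measurable_snd))).mul
      (hgm.comp (measurable_fst.prodMk (measurable_snd.comp measurable_snd)))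
  have hmap := integral_map (μ := Measure.pi fun _ : Fin n => ν) (φ := fun x : Fin n → ℝ => ((fun i : ι₁ => x (e (Sum.inl i))),
        ((fun a : ι₂ => x (e (Sum.inr (Sum.inl a)))), (fun a : ι₂ => x (e (Sum.inr (Sum.inr a)))))))
    hmp.measurable.aemeasurable (f := fun p : (ι₁ → ℝ) × ((ι₂ → ℝ) × (ι₂ → ℝ)) =>
      g p.1 p.2.1 * g p.1 p.2.2) hhm.aestronglyMeasurable
  rw [hmp.map_eq] at hmap
  rw [← hmap]
  exact square_int _ _ g

end Pool.Agent.PG
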