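import Pool.Agent.Lib.MP_e25ec6_co.H59.Sign

/-!
The max rule: a labelling maximising the homomorphism sum into a labelled target is positive.
-/

set_option autoImplicit false

open Finset
open scoped Classical

namespace Pool.Agent.PG

/-- Limits of even and odd powers. -/
theorem limit_pows {ι : Type} (F : Finset ι) (h g : ι → ℝ) (M : ℝ) (hM : 0 < M)
    (hle : ∀ i ∈ F, |h i| ≤ M) (hk : ∀ k : ℕ, 0 ≤ ∑ i ∈ F, h i ^ k * g i) :
    0 ≤ (∑ i ∈ F.filter (fun i => h i = M), g i) + ∑ i ∈ F.filter (fun i => h i = -M), g i ∧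
    0 ≤ (∑ i ∈ F.filter (fun i => h i = M), g i) - ∑ i ∈ F.filter (fun i => h i = -M), g i := by
  have hMne : M ≠ 0 := hM.ne'
  have hodd1 : M ≠ -M := by intro h; linarith
  have key : ∀ (r : ℕ), ∀ i ∈ F, Filter.Tendsto (fun k : ℕ => (h i / M) ^ (2 * k + r) * g i)
      Filter.atTop (nhds ((if h i = M then g i else 0) + (if h i = -M then (-1) ^ r * g i else 0))) := by
    intro r i hi
    by_cases h1 : h i = M
    · have h2 : ¬ (h i = -M) := by rw [h1]; exact hodd1
      have : (fun k : ℕ => (h i / M) ^ (2 * k + r) * g i) = fun _ => g i := by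
        funext k
        rw [h1, div_self hMne, one_pow, one_mul]
      rw [this, if_pos h1, if_neg h2, add_zero]
      exact tendsto_const_nhds
    · by_cases h2 : h i = -M
      · have : (fun k : ℕ => (h i / M) ^ (2 * k + r) * g i) = fun _ => (-1) ^ r * g i := by
          funext k
          rw [h2, neg_div, div_self hMne, pow_add, pow_mul]
          norm_num
        rw [this, if_neg h1, if_pos h2, zero_add]
        exact tendsto_const_nhds
      · rw [if_neg h1, if_neg h2, add_zero]
        have hlt : |h i / M| < 1 := by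
          rw [abs_div, abs_of_pos hM, div_lt_one hM]
          refine lt_of_le_of_ne (hle i hi) (fun h3 => ?_)
          rcases (abs_eq hM.le).1 h3 with h4 | h4
          · exact h1 h4
          · exact h2 h4
        have h5 : Filter.Tendsto (fun k : ℕ => (h i / M) ^ (2 * k + r)) Filter.atTop (nhds 0) := by
          refine (tendsto_pow_atTop_nhds_zero_of_abs_lt_one hlt).comp ?_
          refine Filter.tendsto_atTop_mono (fun k => ?_) Filter.tendsto_id
          simp only [id]
          omega
        simpa using h5.mul_const (g i)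
  have hpos : ∀ n : ℕ, 0 ≤ ∑ i ∈ F, (h i / M) ^ n * g i := by
    intro n
    have : ∑ i ∈ F, (h i / M) ^ n * g i = (∑ i ∈ F, h i ^ n * g i) / M ^ n := by
      rw [Finset.sum_div]
      refine Finset.sum_congr rfl (fun i _ => ?_)
      rw [div_pow]
      ring
    rw [this]
    exact div_nonneg (hk n) (pow_nonneg hM.le n)
  have lim : ∀ r : ℕ, 0 ≤ ∑ i ∈ F, ((if h i = M then g i else 0) +
      (if h i = -M then (-1) ^ r * g i else 0)) := by
    intro r
    refine ge_of_tendsto' (tendsto_finsetSum F (fun i hi => key r i hi)) (fun k => hpos _)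
  constructor
  · have := lim 0
    rw [Finset.sum_add_distrib] at this
    rw [Finset.sum_filter, Finset.sum_filter]
    simpa using this
  · have := lim 1
    rw [Finset.sum_add_distrib] at this
    rw [Finset.sum_filter, Finset.sum_filter, sub_eq_add_neg, ← Finset.sum_neg_distrib]
    refine this.trans (le_of_eq ?_)
    congr 1
    refine Finset.sum_congr rfl (fun i _ => ?_)
    split_ifs <;> simp

variable {V T U C L : Type}

/-- Two labellings with equal sums into all nonnegative targets have equal sums. -/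
theorem poly_trick [Fintype V] (G : SimpleGraph V) (σ τ : V → L)
    (hall : ∀ (T : Type) [Fintype T] (col : T → L) (μ : T → ℝ) (w : Sym2 T → ℝ),
      (∀ t, 0 ≤ μ t) → (∀ e, 0 ≤ w e) → hom G σ col μ w = hom G τ col μ w) :
    ∀ (T : Type) [Fintype T] (col : T → L) (μ : T → ℝ) (w : Sym2 T → ℝ),
      hom G σ col μ w = hom G τ col μ w := by
  intro T _ col μ w
  let P : (V → L) → Polynomial ℝ := fun σ => ∑ φ : V → T,
    (∏ v, if col (φ v) = σ v then Polynomial.C (μ (φ v)) + Polynomial.X else 0) *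
      ∏ e ∈ G.edgeFinset, (Polynomial.C (w (e.map φ)) + Polynomial.X)
  have hP : ∀ (σ : V → L) (s : ℝ), (P σ).eval s =
      hom G σ col (fun t => μ t + s) (fun e => w e + s) := by
    intro σ s
    simp only [P, hom, Z, cw, Polynomial.eval_finsetSum, Polynomial.eval_mul,
      Polynomial.eval_prod]
    refine Finset.sum_congr rfl (fun φ _ => ?_)
    congr 1
    · refine Finset.prod_congr rfl (fun v _ => ?_)
      split_ifs <;> simp
    · refine Finset.prod_congr rfl (fun e _ => ?_)
      simp
  have heq : P σ = P τ := by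
    refine Polynomial.eq_of_infinite_eval_eq _ _ ?_
    refine (Set.Ici_infinite ((∑ t, |μ t|) + ∑ e : Sym2 T, |w e|)).mono (fun s hs => ?_)
    have hs' : (∑ t, |μ t|) + ∑ e : Sym2 T, |w e| ≤ s := hs
    have hA : 0 ≤ ∑ t, |μ t| := Finset.sum_nonneg (fun t _ => abs_nonneg _)
    have hB : 0 ≤ ∑ e : Sym2 T, |w e| := Finset.sum_nonneg (fun t _ => abs_nonneg _)
    show (P σ).eval s = (P τ).eval s
    rw [hP, hP]
    refine hall T col _ _ (fun t => ?_) (fun e => ?_)
    · have h1 : |μ t| ≤ ∑ t, |μ t| :=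
        Finset.single_le_sum (f := fun t => |μ t|) (fun t _ => abs_nonneg _) (mem_univ t)
      have h2 := neg_abs_le (μ t)
      linarith
    · have h1 : |w e| ≤ ∑ e, |w e| :=
        Finset.single_le_sum (f := fun e => |w e|) (fun t _ => abs_nonneg _) (mem_univ e)
      have h2 := neg_abs_le (w e)
      linarith
  have h0 : ∀ σ : V → L, (P σ).eval 0 = hom G σ col μ w := by
    intro σ
    rw [hP]
    simp
  rw [← h0, ← h0, heq]

theorem hom_nonneg [Fintype V] [Fintype T] (G : SimpleGraph V) (c : V → C) (col : T → C)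
    (μ : T → ℝ) (w : Sym2 T → ℝ) (hμ : ∀ t, 0 ≤ μ t) (hw : ∀ e, 0 ≤ w e) :
    0 ≤ hom G c col μ w := by
  unfold hom Z
  refine Finset.sum_nonneg (fun φ _ => mul_nonneg ?_ ?_)
  · refine Finset.prod_nonneg (fun v _ => ?_)
    simp only [cw]
    split_ifs
    · exact hμ _
    · exact le_rfl
  · exact Finset.prod_nonneg (fun e _ => hw _)

/-- Isolation: if a finite family of labellings has nonnegative total sum into every target,
one of them is positive. -/
theorem exists_pos_of_sum [Fintype V] [Fintype L] (G : SimpleGraph V) (F : Finset (V → L)) :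
    F.Nonempty → (∀ (T : Type) [Fintype T] (col : T → L) (μ : T → ℝ) (w : Sym2 T → ℝ),
      (∀ t, 0 ≤ μ t) → 0 ≤ ∑ σ ∈ F, hom G σ col μ w) → ∃ σ ∈ F, Pos G σ := by
  induction F using Finset.strongInduction with
  | _ F ih =>
  intro hne hF
  by_cases hcase : ∃ (T : Type) (_ : Fintype T) (col : T → L) (μ : T → ℝ) (w : Sym2 T → ℝ),
      (∀ t, 0 ≤ μ t) ∧ (∀ e, 0 ≤ w e) ∧ ∃ σ ∈ F, ∃ τ ∈ F, hom G σ col μ w < hom G τ col μ w
  · obtain ⟨T, iT, col, μ, w, hμ, hw, σ, hσ, τ, hτ, hlt⟩ := hcase
    obtain ⟨τ₀, hτ₀, hmax⟩ := Finset.exists_max_image F (fun σ => hom G σ col μ w) hne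
    set M := hom G τ₀ col μ w with hMdef
    have hMpos : 0 < M := by
      have h1 := hmax τ hτ
      have h2 := hom_nonneg G σ col μ w hμ hw
      linarith
    have hsub : F.filter (fun σ => hom G σ col μ w = M) ⊂ F := by
      refine Finset.filter_ssubset.2 ⟨σ, hσ, fun h => ?_⟩
      have h1 := hmax τ hτ
      rw [h] at hlt
      exact absurd hlt (not_lt.2 h1)
    have hpow : ∀ (k : ℕ) (T' : Type) [Fintype T'] (col' : T' → L) (μ' : T' → ℝ)
        (w' : Sym2 T' → ℝ), (∀ t, 0 ≤ μ' t) →
        0 ≤ ∑ σ ∈ F, hom G σ col μ w ^ k * hom G σ col' μ' w' := by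
      intro k
      induction k with
      | zero =>
        intro T' _ col' μ' w' hμ'
        simpa using hF T' col' μ' w' hμ'
      | succ k ihk =>
        intro T' _ col' μ' w' hμ'
        have := ihk (T × T') (fun p => col p.1) (mulMu col col' μ μ') (mulW w w') (fun p => by
          simp only [mulMu]
          split_ifs
          · exact mul_nonneg (hμ _) (hμ' _)
          · exact le_rfl)
        refine this.trans (le_of_eq (Finset.sum_congr rfl (fun σ _ => ?_)))
        rw [hom_mul, pow_succ]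
        ring
    obtain ⟨σ₁, hσ₁, hp⟩ := ih _ hsub ⟨τ₀, by simp [hτ₀, hMdef]⟩ (by
      intro T' _ col' μ' w' hμ'
      have := limit_pows F (fun σ => hom G σ col μ w) (fun σ => hom G σ col' μ' w') M hMpos
        (fun i hi => by
          rw [abs_of_nonneg (hom_nonneg G i col μ w hμ hw)]
          exact hmax i hi)
        (fun k => hpow k T' col' μ' w' hμ')
      linarith [this.1, this.2])
    exact ⟨σ₁, (Finset.mem_filter.1 hσ₁).1, hp⟩
  · obtain ⟨σ₀, hσ₀⟩ := hne
    refine ⟨σ₀, hσ₀, ?_⟩
    intro T _ col μ w hμ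
    have heq : ∀ σ ∈ F, hom G σ col μ w = hom G σ₀ col μ w := by
      intro σ hσ
      refine poly_trick G σ σ₀ ?_ T col μ w
      intro T' _ col' μ' w' hμ' hw'
      by_contra hne
      rcases lt_or_gt_of_ne hne with h | h
      · exact hcase ⟨T', inferInstance, col', μ', w', hμ', hw', σ, hσ, σ₀, hσ₀, h⟩
      · exact hcase ⟨T', inferInstance, col', μ', w', hμ', hw', σ₀, hσ₀, σ, hσ, h⟩
    have hsum := hF T col μ w (fun t => hμ t not_false)
    rw [Finset.sum_congr rfl heq, Finset.sum_const, nsmul_eq_mul] at hsum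
    have hcard : (0 : ℝ) < F.card := by exact_mod_cast Finset.card_pos.2 ⟨σ₀, hσ₀⟩
    exact nonneg_of_mul_nonneg_right hsum hcard

/-- The max rule. -/
theorem max_rule [Fintype V] [Fintype L] [Fintype U] (G : SimpleGraph V) (c : V → C)
    (hc : Pos G c) (ρ : L → C) (col : U → L) (μ : U → ℝ) (w : Sym2 U → ℝ)
    (hμ : ∀ u, ¬ OddCol G c (ρ (col u)) → 0 ≤ μ u) (σ₀ : V → L) (hσ₀ : ∀ v, ρ (σ₀ v) = c v)
    (hne : hom G σ₀ col μ w ≠ 0) :
    ∃ σ : V → L, (∀ v, ρ (σ v) = c v) ∧
      (∀ τ : V → L, (∀ v, ρ (τ v) = c v) → |hom G τ col μ w| ≤ hom G σ col μ w) ∧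
      Pos G σ := by
  set F : Finset (V → L) := univ.filter (fun σ => ∀ v, ρ (σ v) = c v) with hFdef
  have hF0 : σ₀ ∈ F := by simp [hFdef, hσ₀]
  obtain ⟨τ₀, hτ₀, hmax⟩ := Finset.exists_max_image F (fun σ => |hom G σ col μ w|) ⟨σ₀, hF0⟩
  set M := |hom G τ₀ col μ w| with hMdef
  have hMpos : 0 < M := lt_of_lt_of_le (abs_pos.2 hne) (hmax σ₀ hF0)
  have hpow : ∀ (k : ℕ) (T' : Type) [Fintype T'] (col' : T' → L) (μ' : T' → ℝ)
      (w' : Sym2 T' → ℝ), (∀ t, ¬ OddCol G c (ρ (col' t)) → 0 ≤ μ' t) →
      0 ≤ ∑ σ ∈ F, hom G σ col μ w ^ k * hom G σ col' μ' w' := by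
    intro k
    induction k with
    | zero =>
      intro T' _ col' μ' w' hμ'
      have := pos_signed G c hc T' (fun t => ρ (col' t)) μ' w' hμ'
      rw [hom_push] at this
      simpa using this
    | succ k ihk =>
      intro T' _ col' μ' w' hμ'
      have := ihk (U × T') (fun p => col p.1) (mulMu col col' μ μ') (mulW w w') (fun p hp => by
        simp only [mulMu]
        split_ifs with h
        · exact mul_nonneg (hμ _ hp) (hμ' _ (by rw [← h]; exact hp))
        · exact le_rfl)
      refine this.trans (le_of_eq (Finset.sum_congr rfl (fun σ _ => ?_)))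
      rw [hom_mul, pow_succ]
      ring
  have hlim := fun (T' : Type) (_ : Fintype T') (col' : T' → L) (μ' : T' → ℝ)
      (w' : Sym2 T' → ℝ) (hμ' : ∀ t, ¬ OddCol G c (ρ (col' t)) → 0 ≤ μ' t) =>
    limit_pows F (fun σ => hom G σ col μ w) (fun σ => hom G σ col' μ' w') M hMpos hmax
      (fun k => hpow k T' col' μ' w' hμ')
  have hnonempty : (F.filter (fun σ => hom G σ col μ w = M)).Nonempty := by
    by_contra hemp
    rw [Finset.not_nonempty_iff_eq_empty] at hemp
    have h1 := (hlim L inferInstance (fun a => a) (fun _ => 1) (fun _ => 1)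
      (fun _ _ => zero_le_one)).2
    simp only [hemp, hom_one, Finset.sum_const, nsmul_eq_mul, mul_one, Finset.card_empty,
      Nat.cast_zero] at h1
    have h2 : hom G τ₀ col μ w = -M := by
      rcases abs_choice (hom G τ₀ col μ w) with h | h
      · exfalso
        have : τ₀ ∈ F.filter (fun σ => hom G σ col μ w = M) := by
          simp only [Finset.mem_filter]
          exact ⟨hτ₀, by rw [hMdef, h]⟩
        rw [hemp] at this
        exact absurd this (Finset.notMem_empty _)
      · rw [hMdef, h, neg_neg]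
    have h3 : (0 : ℝ) < (F.filter (fun σ => hom G σ col μ w = -M)).card := by
      exact_mod_cast Finset.card_pos.2 ⟨τ₀, by simp only [Finset.mem_filter]; exact ⟨hτ₀, h2⟩⟩
    linarith
  obtain ⟨σ, hσ, hpos⟩ := exists_pos_of_sum G _ hnonempty (by
    intro T' _ col' μ' w' hμ'
    have := hlim T' inferInstance col' μ' w' (fun t _ => hμ' t)
    linarith [this.1, this.2])
  obtain ⟨hσF, hσM⟩ := Finset.mem_filter.1 hσ
  refine ⟨σ, (Finset.mem_filter.1 hσF).2, fun τ hτ => ?_, hpos⟩
  rw [hσM]
  exact hmax τ (by simp [hFdef, hτ])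

end Pool.Agent.PG
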