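import Pool.Agent.Lib.MP_e25ec6_co.H59.Second

/-!
The classes of a finest positive colouring have at most two elements.
-/

set_option autoImplicit false

open Finset
open scoped Classical

namespace Pool.Agent.PG

variable {V T U C L : Type}

/-- `Z` as a multilinear map in the vertex weights. -/
noncomputable def MZ [Fintype V] [Fintype T] (G : SimpleGraph V) (w : Sym2 T → ℝ) :
    MultilinearMap ℝ (fun _ : V => (T → ℝ)) ℝ :=
  ∑ φ : V → T, (∏ e ∈ G.edgeFinset, w (e.map φ)) •
    (MultilinearMap.mkPiAlgebra ℝ V ℝ).compLinearMap (fun v => LinearMap.proj (φ v))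

theorem MZ_apply [Fintype V] [Fintype T] (G : SimpleGraph V) (w : Sym2 T → ℝ)
    (m : V → T → ℝ) : MZ G w m = Z G m w := by
  unfold MZ Z
  rw [_root_.sum_apply]
  refine Finset.sum_congr rfl (fun φ _ => ?_)
  rw [smul_apply, MultilinearMap.compLinearMap_apply,
    MultilinearMap.mkPiAlgebra_apply, smul_eq_mul, mul_comm]
  rfl

theorem rule_dir [Fintype V] [Fintype T] (G : SimpleGraph V) (c : V → V) (hc : Finest G c)
    (w : Sym2 T → ℝ) (A E : V → T → ℝ) (hA : ∀ u v, c u = c v → A u = A v)
    (hE : ∀ u v, c u = c v → E u = E v) (a : V) (hEa : ∀ v, c v ≠ a → E v = 0)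
    (hZ : 0 ≤ MZ G w A) (x : V → ℝ) (hx : ∀ v t, 0 ≤ A v t + x v * E v t) :
    ∃ y : ℝ, (y = 0 ∨ ∃ v, y = x v) ∧
      MZ G w (fun u => A u + x u • E u) ≤ MZ G w (fun u => A u + y • E u) := by
  by_cases hD : MZ G w (fun u => A u + x u • E u) = 0
  · refine ⟨0, Or.inl rfl, ?_⟩
    rw [hD]
    simpa using hZ
  · obtain ⟨σ, h1, h2, h3⟩ := finest_labels G c (fun _ => False) hc hc.1
      (fun u => A u + x u • E u) (fun v t _ => by simpa using hx v t) w (by
        rw [← MZ_apply]
        exact hD)
    have h4 := h3 id (fun _ => rfl)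
    have h5 : MZ G w (fun u => A u + x u • E u) ≤ MZ G w (fun v => A (σ v) + x (σ v) • E (σ v)) := by
      rw [MZ_apply, MZ_apply]
      exact (le_abs_self _).trans h4
    by_cases hex : ∃ v₀, c v₀ = a
    · obtain ⟨v₀, hv₀⟩ := hex
      refine ⟨x (σ v₀), Or.inr ⟨_, rfl⟩, h5.trans (le_of_eq ?_)⟩
      congr 1
      funext v
      rw [hA (σ v) v (h1 v), hE (σ v) v (h1 v)]
      by_cases hv : c v = a
      · rw [h2 v v₀ (hv.trans hv₀.symm)]
      · rw [hEa v hv, smul_zero, smul_zero]
    · push Not at hex
      refine ⟨0, Or.inl rfl, h5.trans (le_of_eq ?_)⟩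
      congr 1
      funext v
      rw [hA (σ v) v (h1 v), hE (σ v) v (h1 v), hEa v (hex v), smul_zero, smul_zero]

theorem exists_delta {ι : Type} [Fintype ι] (p q : ι → ℝ) (hp : ∀ i, 0 ≤ p i)
    (hpq : ∀ i, p i = 0 → q i = 0) : ∃ δ : ℝ, 0 < δ ∧ ∀ i, δ * |q i| ≤ p i := by
  have key : ∀ s : Finset ι, ∃ δ : ℝ, 0 < δ ∧ ∀ i ∈ s, δ * |q i| ≤ p i := by
    intro s
    induction s using Finset.induction_on with
    | empty => exact ⟨1, one_pos, fun i hi => absurd hi (Finset.notMem_empty i)⟩
    | insert i s _ ih =>
      obtain ⟨δ, hδ, h⟩ := ih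
      by_cases hi : p i = 0
      · refine ⟨δ, hδ, fun j hj => ?_⟩
        rcases Finset.mem_insert.1 hj with rfl | hj
        · rw [hpq _ hi, hi]; simp
        · exact h j hj
      · have hpi : 0 < p i := lt_of_le_of_ne (hp i) (Ne.symm hi)
        have hq : 0 < |q i| + 1 := by positivity
        refine ⟨min δ (p i / (|q i| + 1)), lt_min hδ (div_pos hpi hq), fun j hj => ?_⟩
        rcases Finset.mem_insert.1 hj with rfl | hj
        · have h1 := (le_div_iff₀ hq).1 (min_le_right δ (p j / (|q j| + 1)))
          have h2 : 0 < min δ (p j / (|q j| + 1)) := lt_min hδ (div_pos hpi hq)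
          nlinarith [abs_nonneg (q j)]
        · exact (mul_le_mul_of_nonneg_right (min_le_left _ _) (abs_nonneg _)).trans (h j hj)
  obtain ⟨δ, hδ, h⟩ := key univ
  exact ⟨δ, hδ, fun i => h i (mem_univ i)⟩

/-- The second order inequality for strictly positive masses. -/
theorem pair_sum_pos [Fintype V] [Fintype T] (G : SimpleGraph V) (c : V → V) (hc : Finest G c)
    (a : V) (hK : (univ.filter (fun v => c v = a)).Nonempty) (col : T → V) (μ : T → ℝ)
    (hμ : ∀ t, 0 < μ t) (w : Sym2 T → ℝ) (hZ : 0 < Z G (cw c col μ) w) (g : T → ℝ) :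
    0 ≤ ∑ P ∈ powersetCard 2 (univ.filter (fun v => c v = a)),
      Z G (P.piecewise (fun _ t => if col t = a then g t else 0) (cw c col μ)) w := by
  set K := univ.filter (fun v => c v = a) with hKdef
  set A : V → T → ℝ := cw c col μ with hA
  set E : V → T → ℝ := fun v => if c v = a then (fun t => if col t = a then g t else 0) else 0
    with hE
  have h1 := second_gen (MZ G w) A E K hK (fun v hv => by
    have : ¬ c v = a := by simpa [hKdef] using hv
    simp only [hE, if_neg this]) (by rw [MZ_apply]; exact hZ) (fun α β => by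
      set E' : V → T → ℝ := fun u => α • E u - β • (if u ∈ K then A u else 0) with hE'
      obtain ⟨δ, hδ, hδ'⟩ := exists_delta (ι := V × T) (fun p => A p.1 p.2) (fun p => E' p.1 p.2)
        (fun p => by
          simp only [hA, cw]
          split_ifs
          · exact (hμ _).le
          · exact le_rfl)
        (fun p hp => by
          have hp' : ¬ col p.2 = c p.1 := by
            intro h'
            simp only [hA, cw, if_pos h'] at hp
            exact absurd hp (hμ _).ne'
          by_cases hpK : c p.1 = a
          · have h2 : ¬ col p.2 = a := fun h' => hp' (h'.trans hpK.symm)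
            simp [hE', hE, hA, cw, h2, hpK, hKdef]
          · simp [hE', hE, hpK, hKdef])
      refine ⟨δ, hδ, fun x hx => ?_⟩
      refine rule_dir G c hc w A E' (fun u v huv => ?_) (fun u v huv => ?_) a (fun v hv => ?_) ?_ x
        (fun v t => ?_)
      · funext t
        simp only [hA, cw, huv]
      · have hAuv : cw c col μ u = cw c col μ v := by
          funext t
          simp only [cw, huv]
        simp only [hE', hE, hA, huv, hAuv, hKdef, mem_filter, mem_univ, true_and]
      · simp [hE', hE, hv, hKdef]
      · rw [MZ_apply]; exact hZ.le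
      · have h3 := hδ' (v, t)
        simp only at h3
        have h4 : |x v * E' v t| ≤ A v t := by
          rw [abs_mul]
          exact (mul_le_mul_of_nonneg_right (hx v) (abs_nonneg _)).trans h3
        linarith [neg_abs_le (x v * E' v t)])
  refine h1.trans (le_of_eq (Finset.sum_congr rfl (fun P hP => ?_)))
  rw [MZ_apply]
  congr 1
  funext v
  by_cases hv : v ∈ P
  · have hvK : v ∈ K := (Finset.mem_powersetCard.1 hP).1 hv
    have hva : c v = a := by simpa [hKdef] using hvK
    rw [Finset.piecewise_eq_of_mem _ _ _ hv, Finset.piecewise_eq_of_mem _ _ _ hv]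
    simp only [hE, if_pos hva]
  · rw [Finset.piecewise_eq_of_notMem _ _ _ hv, Finset.piecewise_eq_of_notMem _ _ _ hv]

/-- The colouring `c` with the vertices of `P` marked. -/
noncomputable def mark (c : V → V) (P : Finset V) : V → V × Bool := fun v => (c v, decide (v ∈ P))

theorem mark_inj (c : V → V) {P Q : Finset V} (h : mark c P = mark c Q) : P = Q := by
  ext v
  have := congrArg Prod.snd (congrFun h v)
  simpa [mark] using this

theorem pair_sum_nonneg [Fintype V] [Fintype T] (G : SimpleGraph V) (c : V → V)
    (hc : Finest G c) (a : V) (hK : (univ.filter (fun v => c v = a)).Nonempty)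
    (col : T → V × Bool) (μ : T → ℝ) (hμ : ∀ t, 0 ≤ μ t) (w : Sym2 T → ℝ) :
    0 ≤ ∑ P ∈ powersetCard 2 (univ.filter (fun v => c v = a)), hom G (mark c P) col μ w := by
  set K := univ.filter (fun v => c v = a) with hKdef
  by_cases hcol : ∀ v, ∃ t, (col t).1 = c v
  swap
  · push Not at hcol
    obtain ⟨v, hv⟩ := hcol
    refine le_of_eq (Finset.sum_eq_zero (fun P _ => ?_)).symm
    unfold hom Z
    refine Finset.sum_eq_zero (fun φ _ => ?_)
    rw [Finset.prod_eq_zero (mem_univ v), zero_mul]
    have : ¬ col (φ v) = mark c P v := fun h => hv (φ v) (by rw [h]; rfl)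
    simp [cw, this]
  -- the deformation
  set μl : ℝ → T → ℝ := fun l t => (if (col t).2 then 0 else μ t) + l with hμl
  set wl : ℝ → Sym2 T → ℝ := fun l e => w e + l with hwl
  set g : T → ℝ := fun t => if (col t).2 then μ t else 0 with hg
  set q : ℝ → ℝ := fun l => ∑ P ∈ powersetCard 2 K,
    Z G (P.piecewise (fun _ t => if (col t).1 = a then g t else 0)
      (cw c (fun t => (col t).1) (μl l))) (wl l) with hq
  have hq0 : q 0 = ∑ P ∈ powersetCard 2 K, hom G (mark c P) col μ w := by
    rw [hq]
    refine Finset.sum_congr rfl (fun P hP => ?_)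
    unfold hom
    congr 1
    · funext v t
      by_cases hv : v ∈ P
      · have hvK : v ∈ K := (Finset.mem_powersetCard.1 hP).1 hv
        have hva : c v = a := by simpa [hKdef] using hvK
        rw [Finset.piecewise_eq_of_mem _ _ _ hv]
        simp only [cw, mark, hv, decide_true, hg, hva]
        by_cases h1 : (col t).1 = a
        · by_cases h2 : (col t).2 = true
          · rw [if_pos h1, if_pos h2, if_pos (Prod.ext h1 h2)]
          · rw [if_pos h1, if_neg h2, if_neg (fun h => h2 (by rw [h]))]
        · rw [if_neg h1, if_neg (fun h => h1 (by rw [h]))]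
      · rw [Finset.piecewise_eq_of_notMem _ _ _ hv]
        simp only [cw, mark, hv, decide_false, hμl, add_zero]
        by_cases h1 : (col t).1 = c v
        · by_cases h2 : (col t).2 = true
          · rw [if_pos h1, if_pos h2, if_neg (fun h => by rw [h] at h2; simp at h2)]
          · rw [if_pos h1, if_neg h2, if_pos (Prod.ext h1 (by simpa using h2))]
        · rw [if_neg h1, if_neg (fun h => h1 (by rw [h]))]
    · funext e
      simp [hwl]
  have hqc : Continuous q := by
    rw [hq]
    refine continuous_finsetSum _ (fun P _ => ?_)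
    unfold Z
    refine continuous_finsetSum _ (fun φ _ => ?_)
    refine (continuous_finsetProd _ (fun v _ => ?_)).mul (continuous_finsetProd _ (fun e _ => ?_))
    · by_cases hv : v ∈ P
      · simp only [Finset.piecewise_eq_of_mem _ _ _ hv]
        exact continuous_const
      · simp only [Finset.piecewise_eq_of_notMem _ _ _ hv, cw, hμl]
        split_ifs
        · exact continuous_const.add continuous_id
        · exact continuous_const.add continuous_id
        · exact continuous_const
    · exact continuous_const.add continuous_id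
  -- the polynomial
  let p : Polynomial ℝ := ∑ φ : V → T,
    (∏ v, if (col (φ v)).1 = c v then
      Polynomial.C (if (col (φ v)).2 then 0 else μ (φ v)) + Polynomial.X else 0) *
      ∏ e ∈ G.edgeFinset, (Polynomial.C (w (e.map φ)) + Polynomial.X)
  have hp : ∀ s : ℝ, p.eval s = Z G (cw c (fun t => (col t).1) (μl s)) (wl s) := by
    intro s
    simp only [p, Z, cw, Polynomial.eval_finsetSum, Polynomial.eval_mul,
      Polynomial.eval_prod]
    refine Finset.sum_congr rfl (fun φ _ => ?_)
    congr 1
    · refine Finset.prod_congr rfl (fun v _ => ?_)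
      simp only [hμl]
      split_ifs <;> simp
    · refine Finset.prod_congr rfl (fun e _ => ?_)
      simp [hwl]
  have hpne : p ≠ 0 := by
    intro h0
    choose φ₀ hφ₀ using hcol
    set s : ℝ := (∑ e : Sym2 T, |w e|) + 1 with hs
    have hws : ∀ e, 0 < wl s e := by
      intro e
      have h1 : |w e| ≤ ∑ e : Sym2 T, |w e| :=
        Finset.single_le_sum (f := fun e => |w e|) (fun t _ => abs_nonneg _) (mem_univ e)
      simp only [hwl]
      linarith [neg_abs_le (w e)]
    have hs0 : 0 < s := by
      have : 0 ≤ ∑ e : Sym2 T, |w e| := Finset.sum_nonneg (fun _ _ => abs_nonneg _)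
      linarith
    have hms : ∀ t, 0 < μl s t := by
      intro t
      simp only [hμl]
      split_ifs
      · linarith
      · linarith [hμ t]
    have h1 := hp s
    rw [h0, Polynomial.eval_zero] at h1
    have h2 : 0 < Z G (cw c (fun t => (col t).1) (μl s)) (wl s) := by
      unfold Z
      refine Finset.sum_pos' (fun φ _ => ?_) ⟨φ₀, mem_univ _, ?_⟩
      · refine mul_nonneg (Finset.prod_nonneg (fun v _ => ?_))
          (Finset.prod_nonneg (fun e _ => (hws _).le))
        simp only [cw]
        split_ifs
        · exact (hms _).le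
        · exact le_rfl
      · refine mul_pos (Finset.prod_pos (fun v _ => ?_)) (Finset.prod_pos (fun e _ => hws _))
        simp only [cw, if_pos (hφ₀ v)]
        exact hms _
    linarith
  rw [← hq0]
  by_contra hneg
  push Not at hneg
  have hev : ∀ᶠ l in nhdsWithin (0 : ℝ) (Set.Ioi 0), q l < 0 :=
    (hqc.continuousAt.eventually (gt_mem_nhds hneg)).filter_mono nhdsWithin_le_nhds
  have hroot : ∀ᶠ l in nhdsWithin (0 : ℝ) (Set.Ioi 0), p.eval l ≠ 0 := by
    have h1 : (p.rootSet ℝ).Finite := Polynomial.rootSet_finite p ℝ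
    have h2 : (({l : ℝ | p.eval l = 0}) \ {0}).Finite := by
      refine (Set.Finite.subset (p.roots.toFinset.finite_toSet) (fun l hl => ?_))
      simp only [Finset.mem_coe, Multiset.mem_toFinset]
      exact (Polynomial.mem_roots hpne).2 hl.1
    have h3 : (({l : ℝ | p.eval l = 0}) \ {0})ᶜ ∈ nhds (0 : ℝ) :=
      h2.isClosed.isOpen_compl.mem_nhds (by simp)
    filter_upwards [nhdsWithin_le_nhds h3, self_mem_nhdsWithin] with l hl hl0 hz
    exact hl ⟨hz, by simpa using (ne_of_gt hl0)⟩
  have hne : (nhdsWithin (0 : ℝ) (Set.Ioi 0)).NeBot := inferInstance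
  obtain ⟨l, hl1, hl2, hl3⟩ := (hev.and (hroot.and self_mem_nhdsWithin)).exists
  have hl0 : (0 : ℝ) < l := hl3
  have hms : ∀ t, 0 < μl l t := by
    intro t
    simp only [hμl]
    split_ifs
    · linarith
    · linarith [hμ t]
  have hz0 : 0 ≤ Z G (cw c (fun t => (col t).1) (μl l)) (wl l) :=
    hc.1 T (fun t => (col t).1) (μl l) (wl l) (fun t _ => (hms t).le)
  have hz : 0 < Z G (cw c (fun t => (col t).1) (μl l)) (wl l) := by
    rw [hp] at hl2
    exact lt_of_le_of_ne hz0 (Ne.symm hl2)
  have := pair_sum_pos G c hc a hK (fun t => (col t).1) (μl l) hms (wl l) hz g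
  exact absurd this (not_le.2 hl1)

/-- Every colouring can be replaced by an equivalent one with colours in `V`. -/
theorem exists_canon [Fintype V] (G : SimpleGraph V) (d : V → L) (hd : Pos G d) :
    ∃ r : V → V, Pos G r ∧ ∀ u v, r u = r v ↔ d u = d v := by
  have hex : ∀ v, ∃ u, d u = d v := fun v => ⟨v, rfl⟩
  let r : V → V := fun v => (hex v).choose
  have hr : ∀ v, d (r v) = d v := fun v => (hex v).choose_spec
  have hr2 : ∀ u v, d u = d v → r u = r v := by
    intro u v huv
    simp only [r]
    congr 1
    rw [huv]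
  refine ⟨r, ?_, fun u v => ⟨fun h => by rw [← hr u, ← hr v, h], hr2 u v⟩⟩
  intro T _ col μ w hμ
  have h1 := hd T (fun t => d (col t)) (fun t => if r (col t) = col t then μ t else 0) w
    (fun t _ => by
      split_ifs
      · exact hμ t not_false
      · exact le_rfl)
  refine h1.trans (le_of_eq ?_)
  unfold hom
  congr 1
  funext v t
  simp only [cw]
  by_cases h2 : col t = r v
  · have h3 : d (col t) = d v := by rw [h2, hr]
    have h4 : r (col t) = col t := by rw [hr2 _ _ h3, h2]
    rw [if_pos h2, if_pos h3, if_pos h4]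
  · rw [if_neg h2]
    by_cases h3 : d (col t) = d v
    · have h4 : ¬ r (col t) = col t := by
        rw [hr2 _ _ h3]
        exact fun h => h2 h.symm
      rw [if_pos h3, if_neg h4]
    · rw [if_neg h3]

/-- The classes of a finest positive colouring have at most two elements. -/
theorem class_le_two [Fintype V] (G : SimpleGraph V) (c : V → V) (hc : Finest G c) (a : V) :
    (univ.filter (fun v => c v = a)).card ≤ 2 := by
  by_contra hcon
  push Not at hcon
  set K := univ.filter (fun v => c v = a) with hKdef
  have hKne : K.Nonempty := Finset.card_pos.1 (by omega)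
  obtain ⟨σ, hσ, hpos⟩ := exists_pos_of_sum G ((powersetCard 2 K).image (mark c))
    ((Finset.powersetCard_nonempty.2 hcon.le).image _) (fun T _ col μ w hμ => by
      rw [Finset.sum_image (fun P _ Q _ h => mark_inj c h)]
      exact pair_sum_nonneg G c hc a hKne col μ hμ w)
  obtain ⟨P, hP, rfl⟩ := Finset.mem_image.1 hσ
  obtain ⟨hPK, hP2⟩ := Finset.mem_powersetCard.1 hP
  obtain ⟨r, hr, hr'⟩ := exists_canon G (mark c P) hpos
  have href : ∀ u v, r u = r v → c u = c v := by
    intro u v huv
    have := (hr' u v).1 huv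
    exact congrArg Prod.fst this
  have hfin := hc.2 r hr href
  obtain ⟨u, hu⟩ : P.Nonempty := Finset.card_pos.1 (by omega)
  obtain ⟨v, hvK, hvP⟩ : ∃ v ∈ K, v ∉ P := by
    by_contra h
    push Not at h
    have := Finset.card_le_card (show K ⊆ P from h)
    omega
  have hcu : c u = a := by simpa [hKdef] using hPK hu
  have hcv : c v = a := by simpa [hKdef] using hvK
  have h1 := (hr' u v).1 (hfin u v (hcu.trans hcv.symm))
  have h2 := congrArg Prod.snd h1
  simp [mark, hu, hvP] at h2

end Pool.Agent.PG
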