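import Pool.Agent.Lib.MP_e25ec6_co.H59.Struct

/-!
The max rule with signed masses on a set of colours, and its version for labelled masses.
-/

set_option autoImplicit false

open Finset
open scoped Classical

namespace Pool.Agent.PG

variable {V T U C L : Type}

/-- The max rule with signed masses on the colours in `S`. -/
theorem max_ruleS [Fintype V] [Fintype L] [Fintype U] (G : SimpleGraph V) (c : V → C)
    (S : C → Prop) (hc : PosR G c S) (ρ : L → C) (col : U → L) (μ : U → ℝ) (w : Sym2 U → ℝ)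
    (hμ : ∀ u, ¬ S (ρ (col u)) → 0 ≤ μ u) (σ₀ : V → L) (hσ₀ : ∀ v, ρ (σ₀ v) = c v)
    (hne : hom G σ₀ col μ w ≠ 0) :
    ∃ σ : V → L, (∀ v, ρ (σ v) = c v) ∧
      (∀ τ : V → L, (∀ v, ρ (τ v) = c v) → |hom G τ col μ w| ≤ hom G σ col μ w) ∧
      Pos G σ := by
  set F : Finset (V → L) := univ.filter (fun σ => ∀ v, ρ (σ v) = c v) with hFdef
  have hF0 : σ₀ ∈ F := by simp [hFdef, hσ₀]
  obtain ⟨τ₀, hτ₀, hmax⟩ := Finset.exists_max_image F (fun σ => |hom G σ col μ w|) ⟨σ₀, hF0⟩
  set M := |hom G τ₀ col μ w| with hMdef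
  have hMpos : 0 < M := lt_of_lt_of_le (abs_pos.2 hne) (hmax σ₀ hF0)
  have hpow : ∀ (k : ℕ) (T' : Type) [Fintype T'] (col' : T' → L) (μ' : T' → ℝ)
      (w' : Sym2 T' → ℝ), (∀ t, ¬ S (ρ (col' t)) → 0 ≤ μ' t) →
      0 ≤ ∑ σ ∈ F, hom G σ col μ w ^ k * hom G σ col' μ' w' := by
    intro k
    induction k with
    | zero =>
      intro T' _ col' μ' w' hμ'
      have := hc T' (fun t => ρ (col' t)) μ' w' hμ'
      rw [hom_push] at this
      simpa using this
    | succ k ihk =>
      intro T' _ col' μ' w' hμ'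
      have := ihk (U × T') (fun p => col p.1) (mulMu col col' μ μ') (mulW w w') (fun p hp => by
        simp only [mulMu]
        split_ifs with h
        · exact mul_nonneg (hμ _ hp) (hμ' _ (by rw [← h]; exact hp))
        · exact le_rfl)
      refine this.trans (le_of_eq (Finset.sum_congr rfl (fun σ _ => ?_)))
      rw [hom_mul, pow_succ]
      ring
  have hlim := fun (T' : Type) (_ : Fintype T') (col' : T' → L) (μ' : T' → ℝ)
      (w' : Sym2 T' → ℝ) (hμ' : ∀ t, ¬ S (ρ (col' t)) → 0 ≤ μ' t) =>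
    limit_pows F (fun σ => hom G σ col μ w) (fun σ => hom G σ col' μ' w') M hMpos hmax
      (fun k => hpow k T' col' μ' w' hμ')
  have hnonempty : (F.filter (fun σ => hom G σ col μ w = M)).Nonempty := by
    by_contra hemp
    rw [Finset.not_nonempty_iff_eq_empty] at hemp
    have h1 := (hlim L inferInstance (fun a => a) (fun _ => 1) (fun _ => 1)
      (fun _ _ => zero_le_one)).2
    simp only [hemp, hom_one, Finset.sum_const, nsmul_eq_mul, mul_one, Finset.card_empty,
      Nat.cast_zero] at h1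
    have h2 : hom G τ₀ col μ w = -M := by
      rcases abs_choice (hom G τ₀ col μ w) with h | h
      · exfalso
        have : τ₀ ∈ F.filter (fun σ => hom G σ col μ w = M) := by
          simp only [Finset.mem_filter]
          exact ⟨hτ₀, by rw [hMdef, h]⟩
        rw [hemp] at this
        exact absurd this (Finset.notMem_empty _)
      · rw [hMdef, h, neg_neg]
    have h3 : (0 : ℝ) < (F.filter (fun σ => hom G σ col μ w = -M)).card := by
      exact_mod_cast Finset.card_pos.2 ⟨τ₀, by simp only [Finset.mem_filter]; exact ⟨hτ₀, h2⟩⟩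
    linarith
  obtain ⟨σ, hσ, hpos⟩ := exists_pos_of_sum G _ hnonempty (by
    intro T' _ col' μ' w' hμ'
    have := hlim T' inferInstance col' μ' w' (fun t _ => hμ' t)
    linarith [this.1, this.2])
  obtain ⟨hσF, hσM⟩ := Finset.mem_filter.1 hσ
  refine ⟨σ, (Finset.mem_filter.1 hσF).2, fun τ hτ => ?_, hpos⟩
  rw [hσM]
  exact hmax τ (by simp [hFdef, hτ])

/-- The max rule for a finest colouring, for vertex weights indexed by labels. -/
theorem finest_labels [Fintype V] [Fintype T] (G : SimpleGraph V) (c : V → V) (S : V → Prop)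
    (hc : Finest G c) (hS : PosR G c S) (m : V → T → ℝ) (hm : ∀ v t, ¬ S (c v) → 0 ≤ m v t)
    (w : Sym2 T → ℝ) (hne : Z G m w ≠ 0) :
    ∃ σ : V → V, (∀ v, c (σ v) = c v) ∧ (∀ u v, c u = c v → σ u = σ v) ∧
      ∀ τ : V → V, (∀ v, c (τ v) = c v) →
        |Z G (fun v => m (τ v)) w| ≤ Z G (fun v => m (σ v)) w := by
  have key : ∀ τ : V → V, hom G τ (fun x : V × T => x.1) (fun x => m x.1 x.2)
      (fun e => w (e.map Prod.snd)) = Z G (fun v => m (τ v)) w := by
    intro τ
    rw [hom_labels_prod]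
    unfold Z
    refine Finset.sum_congr rfl (fun β _ => ?_)
    congr 1
    refine Finset.prod_congr rfl (fun e _ => ?_)
    rw [Sym2.map_map]
    rfl
  obtain ⟨σ, h1, h2, h3⟩ := max_ruleS G c S hS c (fun x : V × T => x.1) (fun x => m x.1 x.2)
    (fun e => w (e.map Prod.snd)) (fun x hx => hm x.1 x.2 hx) id (fun v => rfl) (by
      rw [key]
      exact hne)
  refine ⟨σ, h1, hc.2 σ h3 (fun u v huv => ?_), fun τ hτ => ?_⟩
  · rw [← h1 u, ← h1 v, huv]
  · rw [← key, ← key]
    exact h2 τ hτ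

end Pool.Agent.PG
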