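import Pool.Agent.Lib.MP_e25ec6_co.H59.Rule

/-!
The second order argument.
-/

set_option autoImplicit false

open Finset
open scoped Classical

namespace Pool.Agent.PG

variable {V T U C L : Type}

section Abstract

variable [Fintype V] {E₀ : Type} [AddCommGroup E₀] [Module ℝ E₀]

theorem ml_expand (M : MultilinearMap ℝ (fun _ : V => E₀) ℝ) (A E : V → E₀) (x : V → ℝ) :
    M (fun u => A u + x u • E u) = ∑ S : Finset V, (∏ u ∈ S, x u) * M (S.piecewise E A) := by
  have h1 : (fun u => A u + x u • E u) = (fun u => x u • E u) + A := by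
    funext u
    simp [add_comm]
  rw [h1, MultilinearMap.map_add_univ]
  refine Finset.sum_congr rfl (fun S _ => ?_)
  have h2 : S.piecewise (fun u => x u • E u) A =
      S.piecewise (fun i => x i • (S.piecewise E A) i) (S.piecewise E A) := by
    funext u
    by_cases hu : u ∈ S
    · simp [hu]
    · simp [hu]
  rw [h2, MultilinearMap.map_piecewise_smul, smul_eq_mul]

theorem ml_bound (M : MultilinearMap ℝ (fun _ : V => E₀) ℝ) (A E : V → E₀) (y : ℝ)
    (hy : |y| ≤ 1) :
    |M (fun u => A u + y • E u) - (M A + y * (∑ v, M (({v} : Finset V).piecewise E A)) +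
      y ^ 2 * ∑ P ∈ powersetCard 2 (univ : Finset V), M (P.piecewise E A))| ≤
      |y| ^ 3 * ∑ S : Finset V, |M (S.piecewise E A)| := by
  have h1 := ml_expand M A E (fun _ => y)
  simp only [Finset.prod_const] at h1
  rw [h1]
  have h0 : M A = ∑ S : Finset V, if S.card = 0 then M (S.piecewise E A) else 0 := by
    rw [Finset.sum_eq_single (∅ : Finset V)]
    · simp
    · intro S _ hS
      rw [if_neg (by rwa [Finset.card_eq_zero])]
    · intro h; exact absurd (mem_univ _) h
  have h11 : ∑ v, M (({v} : Finset V).piecewise E A) =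
      ∑ S : Finset V, if S.card = 1 then M (S.piecewise E A) else 0 := by
    rw [← Finset.sum_filter]
    refine Finset.sum_bij (fun v _ => {v}) ?_ ?_ ?_ ?_
    · intro v _; simp
    · intro v _ v' _ h; simpa using h
    · intro S hS
      obtain ⟨v, hv⟩ := Finset.card_eq_one.1 (by simpa using hS)
      exact ⟨v, mem_univ _, hv.symm⟩
    · intro v _; rfl
  have h12 : ∑ P ∈ powersetCard 2 (univ : Finset V), M (P.piecewise E A) =
      ∑ S : Finset V, if S.card = 2 then M (S.piecewise E A) else 0 := by
    rw [← Finset.sum_filter]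
    refine Finset.sum_congr ?_ (fun _ _ => rfl)
    ext S
    simp
  rw [h0, h11, h12, Finset.mul_sum, Finset.mul_sum, ← Finset.sum_add_distrib,
    ← Finset.sum_add_distrib, ← Finset.sum_sub_distrib, Finset.mul_sum]
  refine (Finset.abs_sum_le_sum_abs _ _).trans (Finset.sum_le_sum (fun S _ => ?_))
  by_cases c0 : S.card = 0
  · simp only [c0, pow_zero, if_true]
    norm_num
    positivity
  by_cases c1 : S.card = 1
  · simp only [c1, pow_one, if_true]
    norm_num
    positivity
  by_cases c2 : S.card = 2
  · simp only [c2, if_true]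
    norm_num
    positivity
  rw [if_neg c0, if_neg c1, if_neg c2]
  simp only [mul_zero, add_zero, sub_zero, abs_mul, abs_pow]
  refine mul_le_mul_of_nonneg_right ?_ (abs_nonneg _)
  exact pow_le_pow_of_le_one (abs_nonneg _) hy (by omega)

theorem ml_single (M : MultilinearMap ℝ (fun _ : V => E₀) ℝ) (A E : V → E₀) (v : V) (y : ℝ) :
    M (fun u => A u + (if u = v then y else 0) • E u) =
      M A + y * M (({v} : Finset V).piecewise E A) := by
  rw [ml_expand]
  have hsub : (({v} : Finset V).powerset) ⊆ univ := subset_univ _
  rw [← Finset.sum_subset hsub]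
  · have : (({v} : Finset V).powerset) = {∅, {v}} := by
      ext S
      simp [Finset.subset_singleton_iff]
    rw [this, Finset.sum_pair (by simp)]
    simp
  · intro S _ hS
    obtain ⟨u, hu, huv⟩ := Finset.not_subset.1 (fun h => hS (Finset.mem_powerset.2 h))
    rw [Finset.prod_eq_zero hu (by
      have : u ≠ v := by simpa using huv
      simp [this]), zero_mul]

theorem ml_pair (M : MultilinearMap ℝ (fun _ : V => E₀) ℝ) (A E : V → E₀) (v v' : V)
    (hne : v ≠ v') (y : ℝ) :
    M (fun u => A u + (if u = v then y else if u = v' then -y else 0) • E u) =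
      M A + y * M (({v} : Finset V).piecewise E A) - y * M (({v'} : Finset V).piecewise E A) -
        y ^ 2 * M (({v, v'} : Finset V).piecewise E A) := by
  rw [ml_expand]
  have hsub : (({v, v'} : Finset V).powerset) ⊆ univ := subset_univ _
  rw [← Finset.sum_subset hsub]
  · have hv : v ∉ ({v'} : Finset V) := by simpa using hne
    rw [Finset.sum_powerset_insert hv]
    have : (({v'} : Finset V).powerset) = {∅, {v'}} := by
      ext S
      simp [Finset.subset_singleton_iff]
    rw [this, Finset.sum_pair (by simp), Finset.sum_pair (by simp), Finset.prod_pair hne]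
    have hne' : ¬ v' = v := fun h => hne h.symm
    simp [hne']
    ring_nf
    congr
  · intro S _ hS
    obtain ⟨u, hu, huv⟩ := Finset.not_subset.1 (fun h => hS (Finset.mem_powerset.2 h))
    have h1 : u ≠ v ∧ u ≠ v' := by
      simp only [mem_insert, mem_singleton, not_or] at huv
      exact huv
    rw [Finset.prod_eq_zero hu (by simp [h1.1, h1.2]), zero_mul]

/-- Second order lemma when the first order term vanishes. -/
theorem second_zero (M : MultilinearMap ℝ (fun _ : V => E₀) ℝ) (A E : V → E₀)
    (hS : ∑ v, M (({v} : Finset V).piecewise E A) = 0) (δ : ℝ) (hδ : 0 < δ)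
    (hrule : ∀ x : V → ℝ, (∀ v, |x v| ≤ δ) → ∃ y : ℝ, (y = 0 ∨ ∃ v, y = x v) ∧
      M (fun u => A u + x u • E u) ≤ M (fun u => A u + y • E u)) :
    (∀ v, M (({v} : Finset V).piecewise E A) = 0) ∧
      0 ≤ ∑ P ∈ powersetCard 2 (univ : Finset V), M (P.piecewise E A) := by
  set B := ∑ P ∈ powersetCard 2 (univ : Finset V), M (P.piecewise E A) with hB
  set K := ∑ S : Finset V, |M (S.piecewise E A)| with hK
  have hK0 : 0 ≤ K := Finset.sum_nonneg (fun _ _ => abs_nonneg _)
  have hF : ∀ y : ℝ, |y| ≤ 1 → M (fun u => A u + y • E u) ≤ M A + y ^ 2 * B + |y| ^ 3 * K := by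
    intro y hy
    have h1 := ml_bound M A E y hy
    rw [hS, mul_zero, add_zero] at h1
    have h2 := (abs_le.1 h1).2
    linarith
  have hF0 : M (fun u => A u + (0 : ℝ) • E u) = M A := by simp
  have hle : ∀ v, M (({v} : Finset V).piecewise E A) ≤ 0 := by
    intro v
    by_contra hpos
    push Not at hpos
    set h := M (({v} : Finset V).piecewise E A) with hh
    set y := min (min δ 1) (h / (2 * (|B| + K + 1))) with hy
    have hden : 0 < 2 * (|B| + K + 1) := by positivity
    have hy0 : 0 < y := by
      rw [hy]
      exact lt_min (lt_min hδ one_pos) (div_pos hpos hden)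
    have hy1 : y ≤ 1 := (min_le_left _ _).trans (min_le_right _ _)
    have hyδ : y ≤ δ := (min_le_left _ _).trans (min_le_left _ _)
    have hyh : y * (2 * (|B| + K + 1)) ≤ h := by
      have := min_le_right (min δ 1) (h / (2 * (|B| + K + 1)))
      rw [← hy] at this
      exact (le_div_iff₀ hden).1 this
    obtain ⟨z, hz, hle⟩ := hrule (fun u => if u = v then y else 0) (by
      intro u
      by_cases hu : u = v
      · simp [hu, abs_of_pos hy0, hyδ]
      · simp [hu, hδ.le])
    rw [ml_single] at hle
    have hz' : M (fun u => A u + z • E u) ≤ M A + y ^ 2 * (|B| + K) := by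
      have hcase : z = 0 ∨ z = y := by
        rcases hz with h0 | ⟨u, hu⟩
        · exact Or.inl h0
        · by_cases huv : u = v
          · right; rw [hu]; simp [huv]
          · left; rw [hu]; simp [huv]
      rcases hcase with h0 | h0
      · rw [h0, hF0]
        have : 0 ≤ y ^ 2 * (|B| + K) := by positivity
        linarith
      · rw [h0]
        have h1 := hF y (by rw [abs_of_pos hy0]; exact hy1)
        rw [abs_of_pos hy0] at h1
        have h2 : y ^ 3 * K ≤ y ^ 2 * K := by
          have : y ^ 3 ≤ y ^ 2 := pow_le_pow_of_le_one hy0.le hy1 (by norm_num)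
          exact mul_le_mul_of_nonneg_right this hK0
        have h3 : y ^ 2 * B ≤ y ^ 2 * |B| := mul_le_mul_of_nonneg_left (le_abs_self B) (by positivity)
        linarith
    have h4 : y * h ≤ y ^ 2 * (|B| + K) := by linarith
    have h5 : h ≤ y * (|B| + K) := by
      have : y * h ≤ y * (y * (|B| + K)) := by
        calc y * h ≤ y ^ 2 * (|B| + K) := h4
          _ = y * (y * (|B| + K)) := by ring
      exact le_of_mul_le_mul_left this hy0
    have h6 : y * (|B| + K) ≤ h / 2 := by
      have h7 : 0 ≤ |B| + K := by positivity
      nlinarith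
    linarith
  have hzero : ∀ v, M (({v} : Finset V).piecewise E A) = 0 := by
    intro v
    have := (Finset.sum_eq_zero_iff_of_nonpos (fun v _ => hle v)).1 hS
    exact this v (mem_univ v)
  refine ⟨hzero, ?_⟩
  by_contra hneg
  push Not at hneg
  set y := min (min δ 1) (-B / (2 * (K + 1))) with hy
  have hden : 0 < 2 * (K + 1) := by positivity
  have hy0 : 0 < y := by
    rw [hy]
    exact lt_min (lt_min hδ one_pos) (div_pos (by linarith) hden)
  have hy1 : y ≤ 1 := (min_le_left _ _).trans (min_le_right _ _)
  have hyδ : y ≤ δ := (min_le_left _ _).trans (min_le_left _ _)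
  have hyB : y * (2 * (K + 1)) ≤ -B := by
    have := min_le_right (min δ 1) (-B / (2 * (K + 1)))
    rw [← hy] at this
    exact (le_div_iff₀ hden).1 this
  have hsmall : ∀ z : ℝ, |z| = y → M (fun u => A u + z • E u) ≤ M A := by
    intro z hz
    have h1 := hF z (by rw [hz]; exact hy1)
    have h2 : z ^ 2 = y ^ 2 := by rw [← hz, sq_abs]
    rw [h2, hz] at h1
    have h3 : y ^ 2 * B + y ^ 3 * K ≤ 0 := by
      have h4 : B + y * K ≤ 0 := by nlinarith
      have h5 : y ^ 2 * B + y ^ 3 * K = y ^ 2 * (B + y * K) := by ring
      rw [h5]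
      exact mul_nonpos_of_nonneg_of_nonpos (by positivity) h4
    linarith
  have hpair : ∀ P ∈ powersetCard 2 (univ : Finset V), 0 ≤ M (P.piecewise E A) := by
    intro P hP
    obtain ⟨v, v', hne, rfl⟩ := Finset.card_eq_two.1 (Finset.mem_powersetCard.1 hP).2
    obtain ⟨z, hz, hle⟩ := hrule (fun u => if u = v then y else if u = v' then -y else 0) (by
      intro u
      by_cases hu : u = v
      · simp [hu, abs_of_pos hy0, hyδ]
      · by_cases hu' : u = v'
        · simp only [hu', if_neg hne.symm, if_true, abs_neg, abs_of_pos hy0, hyδ]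
        · simp [hu, hu', hδ.le])
    rw [ml_pair M A E v v' hne, hzero, hzero] at hle
    have hz' : M (fun u => A u + z • E u) ≤ M A := by
      have hcase : z = 0 ∨ |z| = y := by
        rcases hz with h0 | ⟨u, hu⟩
        · exact Or.inl h0
        · by_cases huv : u = v
          · right; rw [hu]; simp [huv, abs_of_pos hy0]
          · by_cases huv' : u = v'
            · right; rw [hu]; simp [huv', hne.symm, abs_of_pos hy0]
            · left; rw [hu]; simp [huv, huv']
      rcases hcase with h0 | h0
      · rw [h0, hF0]
      · exact hsmall z h0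
    have h7 : 0 ≤ y ^ 2 * M (({v, v'} : Finset V).piecewise E A) := by linarith
    exact nonneg_of_mul_nonneg_right h7 (by positivity)
  exact absurd (Finset.sum_nonneg hpair) (not_le.2 hneg)

/-- Second order lemma in general. -/
theorem second_gen (M : MultilinearMap ℝ (fun _ : V => E₀) ℝ) (A E : V → E₀) (K : Finset V)
    (hK : K.Nonempty) (hE : ∀ v, v ∉ K → E v = 0) (hZ : 0 < M A)
    (hrule : ∀ α β : ℝ, ∃ δ : ℝ, 0 < δ ∧ ∀ x : V → ℝ, (∀ v, |x v| ≤ δ) →
      ∃ y : ℝ, (y = 0 ∨ ∃ v, y = x v) ∧
      M (fun u => A u + x u • (α • E u - β • (if u ∈ K then A u else 0))) ≤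
        M (fun u => A u + y • (α • E u - β • (if u ∈ K then A u else 0)))) :
    0 ≤ ∑ P ∈ powersetCard 2 K, M (P.piecewise E A) := by
  set h : V → ℝ := fun v => M (({v} : Finset V).piecewise E A) with hh
  set s : ℝ := (∑ v ∈ K, h v) / K.card with hs
  have hKc : (0 : ℝ) < K.card := by exact_mod_cast Finset.card_pos.2 hK
  set E' : V → E₀ := fun u => M A • E u - s • (if u ∈ K then A u else 0) with hE'
  have hE'0 : ∀ v, v ∉ K → E' v = 0 := by
    intro v hv
    simp [hE', hE v hv, hv]
  have h1 : ∀ v, M (({v} : Finset V).piecewise E' A) = if v ∈ K then M A * h v - s * M A else 0 := by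
    intro v
    rw [Finset.piecewise_singleton]
    by_cases hv : v ∈ K
    · rw [if_pos hv]
      have : E' v = M A • E v - s • A v := by simp [hE', hv]
      rw [this, MultilinearMap.map_update_sub, MultilinearMap.map_update_smul,
        MultilinearMap.map_update_smul, Function.update_eq_self, smul_eq_mul, smul_eq_mul, hh]
      simp only [Finset.piecewise_singleton]
    · rw [if_neg hv, hE'0 v hv]
      exact MultilinearMap.map_update_zero _ _ _
  have hsum : ∑ v, M (({v} : Finset V).piecewise E' A) = 0 := by
    simp_rw [h1]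
    rw [← Finset.sum_filter, Finset.filter_mem_eq_inter, Finset.univ_inter,
      Finset.sum_sub_distrib, ← Finset.mul_sum, Finset.sum_const, nsmul_eq_mul]
    have : ∑ v ∈ K, h v = K.card * s := by
      rw [hs]
      field_simp
    rw [this]
    ring
  obtain ⟨δ, hδ, hr⟩ := hrule (M A) s
  obtain ⟨hz, hB⟩ := second_zero M A E' hsum δ hδ hr
  have hv : ∀ v ∈ K, h v = s := by
    intro v hv
    have h2 := hz v
    rw [h1, if_pos hv] at h2
    have h3 : M A * (h v - s) = 0 := by linarith
    rcases mul_eq_zero.1 h3 with h4 | h4
    · exact absurd h4 hZ.ne'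
    · linarith
  have hP : ∀ P ∈ powersetCard 2 (univ : Finset V), M (P.piecewise E' A) =
      if P ⊆ K then (M A) ^ 2 * M (P.piecewise E A) - s ^ 2 * M A else 0 := by
    intro P hP
    by_cases hPK : P ⊆ K
    · rw [if_pos hPK]
      obtain ⟨v, v', hne, rfl⟩ := Finset.card_eq_two.1 (Finset.mem_powersetCard.1 hP).2
      have hvK : v ∈ K := hPK (by simp)
      have hvK' : v' ∈ K := hPK (by simp)
      have e1 : E' v = M A • E v - s • A v := by simp [hE', hvK]
      have e2 : E' v' = M A • E v' - s • A v' := by simp [hE', hvK']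
      have u1 : ∀ F : V → E₀, (({v, v'} : Finset V)).piecewise F A =
          Function.update (Function.update A v' (F v')) v (F v) := by
        intro F
        rw [Finset.piecewise_insert, Finset.piecewise_singleton]
      have u2 : ∀ e : E₀, Function.update (Function.update A v' e) v (A v) =
          Function.update A v' e := by
        intro e
        rw [Function.update_comm hne.symm, Function.update_eq_self]
      have u3 : Function.update (Function.update A v (E v)) v' (A v') =
          Function.update A v (E v) := by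
        rw [Function.update_comm hne, Function.update_eq_self]
      have m1 : M (Function.update A v (E v)) = h v := by
        rw [hh]; simp only [Finset.piecewise_singleton]
      have m2 : M (Function.update A v' (E v')) = h v' := by
        rw [hh]; simp only [Finset.piecewise_singleton]
      rw [u1, u1, e1, MultilinearMap.map_update_sub, MultilinearMap.map_update_smul,
        MultilinearMap.map_update_smul, u2, e2, MultilinearMap.map_update_sub,
        MultilinearMap.map_update_smul, MultilinearMap.map_update_smul,
        Function.update_eq_self, Function.update_comm hne.symm, MultilinearMap.map_update_sub,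
        MultilinearMap.map_update_smul, MultilinearMap.map_update_smul, u3, m1, m2, hv v hvK,
        hv v' hvK', Function.update_comm hne]
      simp only [smul_eq_mul]
      ring
    · rw [if_neg hPK]
      obtain ⟨v, hvP, hvK⟩ := Finset.not_subset.1 hPK
      refine MultilinearMap.map_coord_zero M v ?_
      rw [Finset.piecewise_eq_of_mem _ _ _ hvP]
      exact hE'0 v hvK
  rw [Finset.sum_congr rfl hP, ← Finset.sum_filter] at hB
  have hfil : (powersetCard 2 (univ : Finset V)).filter (fun P => P ⊆ K) = powersetCard 2 K := by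
    ext P
    simp only [mem_filter, mem_powersetCard, subset_univ, true_and]
    exact and_comm
  rw [hfil, Finset.sum_sub_distrib, ← Finset.mul_sum] at hB
  have h5 : 0 ≤ ∑ P ∈ powersetCard 2 K, s ^ 2 * M A :=
    Finset.sum_nonneg (fun _ _ => by positivity)
  have h6 : 0 ≤ (M A) ^ 2 * ∑ P ∈ powersetCard 2 K, M (P.piecewise E A) := by linarith
  exact nonneg_of_mul_nonneg_right h6 (by positivity)

end Abstract

end Pool.Agent.PG
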