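import Pool.Agent.Lib.MP_e25ec6_co.H59.Max

/-!
Coloured graphs with equal homomorphism sums into all nonnegative targets are isomorphic.
-/

set_option autoImplicit false

open Finset
open scoped Classical

namespace Pool.Agent.PG

variable {V V' C : Type}

/-- `(G, c)` and `(G', c')` have equal sums into all nonnegative targets. -/
def EqHom [Fintype V] [Fintype V'] (G : SimpleGraph V) (G' : SimpleGraph V') (c : V → C)
    (c' : V' → C) : Prop :=
  ∀ (T : Type) [Fintype T] (col : T → C) (μ : T → ℝ) (w : Sym2 T → ℝ),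
    (∀ t, 0 ≤ μ t) → (∀ e, 0 ≤ w e) → hom G c col μ w = hom G' c' col μ w

theorem surj_count [Fintype V] [Fintype V'] (G : SimpleGraph V) (G' : SimpleGraph V') (c : V → C)
    (c' : V' → C) :
    ∑ R : Finset V', (-1 : ℝ) ^ R.card *
        hom G c c' (fun x => if x ∈ R then 0 else 1) (fun e => if e ∈ G'.edgeSet then 1 else 0) =
      ∑ φ : V → V', if (∀ v, c' (φ v) = c v) ∧ (∀ u v, G.Adj u v → G'.Adj (φ u) (φ v)) ∧
        Function.Surjective φ then 1 else 0 := by
  unfold hom Z
  simp_rw [Finset.mul_sum]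
  rw [Finset.sum_comm]
  refine Finset.sum_congr rfl (fun φ _ => ?_)
  have hE : ∏ e ∈ G.edgeFinset, (if e.map φ ∈ G'.edgeSet then (1 : ℝ) else 0) =
      if (∀ u v, G.Adj u v → G'.Adj (φ u) (φ v)) then 1 else 0 := by
    by_cases h : ∀ u v, G.Adj u v → G'.Adj (φ u) (φ v)
    · rw [if_pos h]
      refine Finset.prod_eq_one (fun e he => ?_)
      induction e using Sym2.ind with
      | _ a b =>
        have hab : G.Adj a b := by simpa using he
        simp [h a b hab]
    · rw [if_neg h]
      push Not at h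
      obtain ⟨a, b, hab, hn⟩ := h
      exact Finset.prod_eq_zero (i := s(a, b)) (by simpa using hab) (by simp [hn])
  have hV : ∀ R : Finset V', ∏ v, cw c c' (fun x => if x ∈ R then (0 : ℝ) else 1) v (φ v) =
      (if (∀ v, c' (φ v) = c v) then 1 else 0) *
      (if R ⊆ univ \ (univ.image φ) then 1 else 0) := by
    intro R
    by_cases h : ∀ v, c' (φ v) = c v
    · rw [if_pos h, one_mul]
      by_cases hR : R ⊆ univ \ (univ.image φ)
      · rw [if_pos hR]
        refine Finset.prod_eq_one (fun v _ => ?_)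
        have : φ v ∉ R := by
          intro hv
          have := hR hv
          simp at this
        simp [cw, h v, this]
      · rw [if_neg hR]
        obtain ⟨x, hxR, hx⟩ := Finset.not_subset.1 hR
        simp only [mem_sdiff, mem_univ, mem_image, true_and, not_not] at hx
        obtain ⟨v, rfl⟩ := hx
        exact Finset.prod_eq_zero (mem_univ v) (by simp [cw, h v, hxR])
    · rw [if_neg h, zero_mul]
      push Not at h
      obtain ⟨v, hv⟩ := h
      exact Finset.prod_eq_zero (mem_univ v) (by simp [cw, hv])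
  have hsum : ∑ R : Finset V', (-1 : ℝ) ^ R.card *
      (if R ⊆ univ \ (univ.image φ) then (1 : ℝ) else 0) =
      if Function.Surjective φ then 1 else 0 := by
    have h1 : ∑ R : Finset V', (-1 : ℝ) ^ R.card *
        (if R ⊆ univ \ (univ.image φ) then (1 : ℝ) else 0) =
        ∑ R ∈ (univ \ (univ.image φ)).powerset, (-1 : ℝ) ^ R.card := by
      simp_rw [mul_ite, mul_one, mul_zero]
      rw [← Finset.sum_filter]
      refine Finset.sum_congr ?_ (fun _ _ => rfl)
      ext R
      simp
    rw [h1]
    have h3 := Finset.sum_powerset_neg_one_pow_card (x := (univ : Finset V') \ (univ.image φ))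
    have h4 : ∑ R ∈ ((univ : Finset V') \ (univ.image φ)).powerset, (-1 : ℝ) ^ R.card =
        ((∑ m ∈ ((univ : Finset V') \ (univ.image φ)).powerset, (-1 : ℤ) ^ m.card : ℤ) : ℝ) := by
      push_cast; rfl
    rw [h4, h3]
    have h5 : (univ : Finset V') \ (univ.image φ) = ∅ ↔ Function.Surjective φ := by
      rw [Finset.sdiff_eq_empty_iff_subset]
      constructor
      · intro h x
        have := h (mem_univ x)
        simpa using this
      · intro h x _
        simpa using h x
    by_cases h6 : Function.Surjective φ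
    · rw [if_pos (h5.2 h6), if_pos h6]
      simp
    · rw [if_neg (fun h => h6 (h5.1 h)), if_neg h6]
      simp
  simp_rw [hV, hE]
  have : ∀ R : Finset V', (-1 : ℝ) ^ R.card * ((if (∀ v, c' (φ v) = c v) then 1 else 0) *
      (if R ⊆ univ \ (univ.image φ) then 1 else 0) *
      (if (∀ u v, G.Adj u v → G'.Adj (φ u) (φ v)) then 1 else 0)) =
      (if (∀ v, c' (φ v) = c v) then 1 else 0) *
      (if (∀ u v, G.Adj u v → G'.Adj (φ u) (φ v)) then 1 else 0) *
      ((-1 : ℝ) ^ R.card * (if R ⊆ univ \ (univ.image φ) then 1 else 0)) := by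
    intro R
    ring
  rw [Finset.sum_congr rfl (fun R _ => this R), ← Finset.mul_sum, hsum]
  by_cases h1 : ∀ v, c' (φ v) = c v <;>
    by_cases h2 : ∀ u v, G.Adj u v → G'.Adj (φ u) (φ v) <;>
    by_cases h3 : Function.Surjective φ <;> simp [h1, h2, h3]

theorem exists_surj_hom [Fintype V] [Fintype V'] (G : SimpleGraph V) (G' : SimpleGraph V')
    (c : V → C) (c' : V' → C) (h : EqHom G G' c c') :
    ∃ φ : V → V', (∀ v, c' (φ v) = c v) ∧ (∀ u v, G.Adj u v → G'.Adj (φ u) (φ v)) ∧
      Function.Surjective φ := by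
  by_contra hcon
  push Not at hcon
  have h1 := surj_count G G' c c'
  have h2 := surj_count G' G' c' c'
  have h3 : ∀ R : Finset V', hom G c c' (fun x => if x ∈ R then (0 : ℝ) else 1)
      (fun e => if e ∈ G'.edgeSet then 1 else 0) =
      hom G' c' c' (fun x => if x ∈ R then (0 : ℝ) else 1)
      (fun e => if e ∈ G'.edgeSet then 1 else 0) := fun R =>
    h V' c' _ _ (fun t => by split_ifs <;> norm_num) (fun e => by split_ifs <;> norm_num)
  simp_rw [h3] at h1
  rw [h2] at h1
  have h4 : (∑ φ : V → V', if (∀ v, c' (φ v) = c v) ∧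
      (∀ u v, G.Adj u v → G'.Adj (φ u) (φ v)) ∧ Function.Surjective φ then (1 : ℝ) else 0) = 0 := by
    refine Finset.sum_eq_zero (fun φ _ => ?_)
    rw [if_neg]
    rintro ⟨h5, h6, h7⟩
    exact hcon φ h5 h6 h7
  rw [h4] at h1
  have h5 := (Finset.sum_eq_zero_iff_of_nonneg (fun φ _ => by split_ifs <;> norm_num)).1 h1 id
    (mem_univ _)
  rw [if_pos ⟨fun v => rfl, fun u v huv => huv, Function.surjective_id⟩] at h5
  norm_num at h5

theorem EqHom.symm [Fintype V] [Fintype V'] {G : SimpleGraph V} {G' : SimpleGraph V'} {c : V → C}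
    {c' : V' → C} (h : EqHom G G' c c') : EqHom G' G c' c :=
  fun T _ col μ w h1 h2 => (h T col μ w h1 h2).symm

theorem iso_of_eqHom [Fintype V] [Fintype V'] (G : SimpleGraph V) (G' : SimpleGraph V')
    (c : V → C) (c' : V' → C) (h : EqHom G G' c c') :
    ∃ e : V ≃ V', (∀ v, c' (e v) = c v) ∧ ∀ u v, G'.Adj (e u) (e v) ↔ G.Adj u v := by
  obtain ⟨φ, hφ1, hφ2, hφ3⟩ := exists_surj_hom G G' c c' h
  obtain ⟨ψ, _, hψ2, hψ3⟩ := exists_surj_hom G' G c' c h.symm
  have hcard : Fintype.card V = Fintype.card V' :=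
    le_antisymm (Fintype.card_le_of_surjective ψ hψ3) (Fintype.card_le_of_surjective φ hφ3)
  have hφb : Function.Bijective φ := (Fintype.bijective_iff_surjective_and_card φ).2 ⟨hφ3, hcard⟩
  have hψb : Function.Bijective ψ :=
    (Fintype.bijective_iff_surjective_and_card ψ).2 ⟨hψ3, hcard.symm⟩
  have hsub1 : G.edgeFinset.image (Sym2.map φ) ⊆ G'.edgeFinset := by
    intro e he
    obtain ⟨x, hx, rfl⟩ := Finset.mem_image.1 he
    induction x using Sym2.ind with
    | _ a b =>
      have hab : G.Adj a b := by simpa using hx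
      simpa using hφ2 a b hab
  have hsub2 : G'.edgeFinset.image (Sym2.map ψ) ⊆ G.edgeFinset := by
    intro e he
    obtain ⟨x, hx, rfl⟩ := Finset.mem_image.1 he
    induction x using Sym2.ind with
    | _ a b =>
      have hab : G'.Adj a b := by simpa using hx
      simpa using hψ2 a b hab
  have hc1 : G.edgeFinset.card ≤ G'.edgeFinset.card := by
    rw [← Finset.card_image_of_injective _ (Sym2.map.injective hφb.1)]
    exact Finset.card_le_card hsub1
  have hc2 : G'.edgeFinset.card ≤ G.edgeFinset.card := by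
    rw [← Finset.card_image_of_injective _ (Sym2.map.injective hψb.1)]
    exact Finset.card_le_card hsub2
  have heq : G.edgeFinset.image (Sym2.map φ) = G'.edgeFinset := by
    refine Finset.eq_of_subset_of_card_le hsub1 ?_
    rw [Finset.card_image_of_injective _ (Sym2.map.injective hφb.1)]
    exact hc2
  refine ⟨Equiv.ofBijective φ hφb, hφ1, fun u v => ⟨fun huv => ?_, hφ2 u v⟩⟩
  have h1 : s(φ u, φ v) ∈ G'.edgeFinset := by simpa using huv
  rw [← heq] at h1
  obtain ⟨x, hx, hx'⟩ := Finset.mem_image.1 h1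
  have h2 : x = s(u, v) := Sym2.map.injective hφb.1 (by rw [hx']; rfl)
  subst h2
  simpa using hx

end Pool.Agent.PG
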