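import Pool.Agent.Lib.MP_e25ec6_co.H59.Basic

/-!
Signed masses on odd colours.
-/

set_option autoImplicit false

open Finset
open scoped Classical

namespace Pool.Agent.PG

variable {V T C : Type}

/-- A colour is odd if every vertex of that colour has an odd number of neighbours in a fixed
union `W` of colour classes. -/
def OddCol [Fintype V] (G : SimpleGraph V) (c : V → C) (a : C) : Prop :=
  ∃ W : Set C, ∀ v, c v = a → Odd (univ.filter (fun u => G.Adj v u ∧ c u ∈ W)).card

theorem hom_congr [Fintype V] [Fintype T] (G : SimpleGraph V) (c : V → C) (col : T → C)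
    (μ μ' : T → ℝ) (w w' : Sym2 T → ℝ)
    (h : ∀ φ : V → T, (∀ v, col (φ v) = c v) →
      (∏ v, μ (φ v)) * ∏ e ∈ G.edgeFinset, w (e.map φ) =
      (∏ v, μ' (φ v)) * ∏ e ∈ G.edgeFinset, w' (e.map φ)) :
    hom G c col μ w = hom G c col μ' w' := by
  unfold hom Z
  refine Finset.sum_congr rfl (fun φ _ => ?_)
  by_cases hφ : ∀ v, col (φ v) = c v
  · have h1 : ∀ m : T → ℝ, ∏ v, cw c col m v (φ v) = ∏ v, m (φ v) := fun m =>
      Finset.prod_congr rfl (fun v _ => by simp [cw, hφ v])
    rw [h1, h1]
    exact h φ hφ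
  · push Not at hφ
    obtain ⟨v, hv⟩ := hφ
    rw [Finset.prod_eq_zero (mem_univ v) (by simp [cw, hv]),
      Finset.prod_eq_zero (mem_univ v) (by simp [cw, hv])]
    simp

theorem pos_signed [Fintype V] (G : SimpleGraph V) (c : V → C) (h : Pos G c) :
    PosR G c (OddCol G c) := by
  intro T _ col μ w hμ
  have hW : ∀ a : C, ∃ W : Set C, OddCol G c a →
      ∀ v, c v = a → Odd (univ.filter (fun u => G.Adj v u ∧ c u ∈ W)).card := by
    intro a
    by_cases ha : OddCol G c a
    · obtain ⟨W, hW⟩ := ha
      exact ⟨W, fun _ => hW⟩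
    · exact ⟨∅, fun h => absurd h ha⟩
  choose W hW using hW
  let f : T → T → ℝ := fun s t => if μ s < 0 ∧ col t ∈ W (col s) then -1 else 1
  have key : hom G c col μ w = hom G c col (fun t => |μ t|) (fun x => w x * sw f x) := by
    refine hom_congr G c col _ _ _ _ (fun φ hφ => ?_)
    rw [prod_edge_mul_map]
    have h1 : ∀ v, μ (φ v) = |μ (φ v)| *
        ∏ u ∈ univ.filter (fun u => G.Adj v u), f (φ v) (φ u) := by
      intro v
      by_cases hneg : μ (φ v) < 0
      · have hodd : OddCol G c (col (φ v)) := by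
          by_contra hn
          exact absurd (hμ (φ v) hn) (not_le.2 hneg)
        have h2 := hW (col (φ v)) hodd v (hφ v).symm
        have h3 : ∏ u ∈ univ.filter (fun u => G.Adj v u), f (φ v) (φ u) =
            (-1) ^ (univ.filter (fun u => G.Adj v u ∧ c u ∈ W (col (φ v)))).card := by
          rw [← Finset.prod_const, Finset.prod_filter, Finset.prod_filter]
          refine Finset.prod_congr rfl (fun u _ => ?_)
          by_cases h4 : G.Adj v u
          · by_cases h5 : c u ∈ W (col (φ v))
            · simp [f, h4, h5, hneg, hφ u]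
            · simp [f, h4, h5, hφ u]
          · simp [h4]
        rw [h3, h2.neg_one_pow, abs_of_neg hneg]
        ring
      · have h3 : ∏ u ∈ univ.filter (fun u => G.Adj v u), f (φ v) (φ u) = 1 :=
          Finset.prod_eq_one (fun u _ => by simp [f, hneg])
        rw [h3, abs_of_nonneg (not_lt.1 hneg), mul_one]
    calc (∏ v, μ (φ v)) * ∏ e ∈ G.edgeFinset, w (e.map φ)
        = (∏ v, (|μ (φ v)| * ∏ u ∈ univ.filter (fun u => G.Adj v u), f (φ v) (φ u))) *
            ∏ e ∈ G.edgeFinset, w (e.map φ) := by
          congr 1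
          exact Finset.prod_congr rfl (fun v _ => h1 v)
      _ = _ := by
          rw [Finset.prod_mul_distrib]
          ring
  rw [key]
  exact h T col _ _ (fun t _ => abs_nonneg _)

end Pool.Agent.PG
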