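import Pool.Agent.Lib.MP_e25ec6_co.H59.Pair

/-!
Classes of size two of a finest positive colouring may carry signed masses.
-/

set_option autoImplicit false

open Finset
open scoped Classical

namespace Pool.Agent.PG

variable {V T U C L : Type}

theorem cs_trick (α β γ : ℝ) (hα : 0 ≤ α) (hβ : 0 ≤ β)
    (h : ∀ s : ℝ, 0 < s → γ ≤ s * (s * α) ∨ γ ≤ s⁻¹ * (s⁻¹ * β)) : γ ≤ (α + β) / 2 := by
  by_contra hcon
  push Not at hcon
  have hγ : 0 < γ := by linarith
  have hprod : α * β < γ * γ := by nlinarith [sq_nonneg (α - β)]
  set r : ℝ := (β + γ) / (α + γ) with hr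
  have hd : 0 < α + γ := by linarith
  have hn : 0 < β + γ := by linarith
  have hr0 : 0 < r := div_pos hn hd
  have hs : Real.sqrt r * Real.sqrt r = r := Real.mul_self_sqrt hr0.le
  have h1 : r * α < γ := by
    rw [hr, div_mul_eq_mul_div, div_lt_iff₀ hd]
    nlinarith
  have h2 : r⁻¹ * β < γ := by
    rw [hr, inv_div, div_mul_eq_mul_div, div_lt_iff₀ hn]
    nlinarith
  rcases h (Real.sqrt r) (Real.sqrt_pos.2 hr0) with h3 | h3
  · rw [← mul_assoc, hs] at h3
    linarith
  · rw [← mul_assoc, ← mul_inv, hs] at h3
    linarith

/-- One class of size two can be signed. -/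
theorem sign_class [Fintype V] (G : SimpleGraph V) (c : V → V) (hc : Finest G c) (S : V → Prop)
    (hS : PosR G c S) (a u u' : V) (hne : u ≠ u') (hu : c u = a) (hu' : c u' = a)
    (hall : ∀ v, c v = a → v = u ∨ v = u') : PosR G c (fun b => S b ∨ b = a) := by
  intro T _ col μ w hμ
  set A : V → T → ℝ := cw c col μ with hA
  set M := MZ G w with hM
  let Q : (T → ℝ) → (T → ℝ) → ℝ := fun g₁ g₂ => M (Function.update (Function.update A u g₁) u' g₂)
  -- the rule
  have hrule : ∀ g₁ g₂ : T → ℝ, (∀ t, 0 ≤ g₁ t) → (∀ t, 0 ≤ g₂ t) →
      (∀ t, col t ≠ a → g₁ t = 0) → (∀ t, col t ≠ a → g₂ t = 0) →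
      Q g₁ g₂ ≤ Q g₁ g₁ ∨ Q g₁ g₂ ≤ Q g₂ g₂ := by
    intro g₁ g₂ h1 h2 h3 h4
    set m : V → T → ℝ := Function.update (Function.update A u g₁) u' g₂ with hm
    have mu : m u = g₁ := by
      rw [hm, Function.update_of_ne hne, Function.update_self]
    have mu' : m u' = g₂ := by rw [hm, Function.update_self]
    have mo : ∀ v, v ≠ u → v ≠ u' → m v = A v := by
      intro v hv hv'
      rw [hm, Function.update_of_ne hv', Function.update_of_ne hv]
    by_cases hz : Z G m w = 0
    · left
      have h5 : Q g₁ g₂ = 0 := by
        show M m = 0
        rw [hM, MZ_apply, hz]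
      rw [h5]
      have h6 := hS T col (fun t => if col t = a then g₁ t else μ t) w (fun t ht => by
        split_ifs with h7
        · exact h1 t
        · exact hμ t (by
            rintro (h8 | h8)
            · exact ht h8
            · exact h7 h8))
      refine h6.trans (le_of_eq ?_)
      show Z G _ w = MZ G w _
      rw [MZ_apply]
      congr 1
      funext v t
      by_cases hv' : v = u'
      · rw [hv', Function.update_self]
        simp only [cw, hu']
        by_cases h7 : col t = a
        · rw [if_pos h7, if_pos h7]
        · rw [if_neg h7, h3 t h7]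
      · rw [Function.update_of_ne hv']
        by_cases hv : v = u
        · rw [hv, Function.update_self]
          simp only [cw, hu]
          by_cases h7 : col t = a
          · rw [if_pos h7, if_pos h7]
          · rw [if_neg h7, h3 t h7]
        · rw [Function.update_of_ne hv]
          simp only [cw, hA]
          by_cases h7 : col t = c v
          · rw [if_pos h7, if_pos h7, if_neg]
            intro h8
            rcases hall v (h7.symm.trans h8) with h9 | h9
            · exact hv h9
            · exact hv' h9
          · rw [if_neg h7, if_neg h7]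
    · obtain ⟨σ, s1, s2, s3⟩ := finest_labels G c S hc hS m (fun v t hSv => by
        by_cases hv : v = u
        · rw [hv, mu]; exact h1 t
        · by_cases hv' : v = u'
          · rw [hv', mu']; exact h2 t
          · rw [mo v hv hv']
            simp only [hA, cw]
            split_ifs with h7
            · refine hμ t ?_
              rintro (h8 | h8)
              · exact hSv (h7 ▸ h8)
              · rcases hall v (h7.symm.trans h8) with h9 | h9
                · exact hv h9
                · exact hv' h9
            · exact le_rfl) w hz
      have h5 := (le_abs_self _).trans (s3 id (fun _ => rfl))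
      have h6 : Q g₁ g₂ ≤ Z G (fun v => m (σ v)) w := by
        show M m ≤ _
        rw [hM, MZ_apply]
        exact h5
      have h7 : ∀ v, v ≠ u → v ≠ u' → m (σ v) = A v := by
        intro v hv hv'
        have hcv : c v ≠ a := fun h8 => (hall v h8).elim hv hv'
        have h9 : c (σ v) ≠ a := by rw [s1]; exact hcv
        rw [mo (σ v) (fun h => h9 (by rw [h, hu])) (fun h => h9 (by rw [h, hu']))]
        funext t
        simp only [hA, cw, s1]
      have h8 : σ u' = σ u := s2 u' u (hu'.trans hu.symm)
      rcases hall (σ u) (by rw [s1, hu]) with h9 | h9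
      · left
        refine h6.trans (le_of_eq ?_)
        show Z G _ w = MZ G w _
        rw [MZ_apply]
        congr 1
        funext v
        by_cases hv' : v = u'
        · rw [hv', Function.update_self, h8, h9, mu]
        · by_cases hv : v = u
          · rw [hv, Function.update_of_ne hne, Function.update_self, h9, mu]
          · rw [Function.update_of_ne hv', Function.update_of_ne hv, h7 v hv hv']
      · right
        refine h6.trans (le_of_eq ?_)
        show Z G _ w = MZ G w _
        rw [MZ_apply]
        congr 1
        funext v
        by_cases hv' : v = u'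
        · rw [hv', Function.update_self, h8, h9, mu']
        · by_cases hv : v = u
          · rw [hv, Function.update_of_ne hne, Function.update_self, h9, mu']
          · rw [Function.update_of_ne hv', Function.update_of_ne hv, h7 v hv hv']
  -- positive and negative parts
  set p : T → ℝ := fun t => if col t = a then max (μ t) 0 else 0 with hp
  set n : T → ℝ := fun t => if col t = a then max (-μ t) 0 else 0 with hn
  have hp0 : ∀ t, 0 ≤ p t := fun t => by simp only [hp]; split_ifs <;> simp
  have hn0 : ∀ t, 0 ≤ n t := fun t => by simp only [hn]; split_ifs <;> simp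
  have hpa : ∀ t, col t ≠ a → p t = 0 := fun t ht => by simp only [hp, if_neg ht]
  have hna : ∀ t, col t ≠ a → n t = 0 := fun t ht => by simp only [hn, if_neg ht]
  have hAa : ∀ v, c v = a → A v = p - n := by
    intro v hv
    funext t
    simp only [hA, cw, hv, Pi.sub_apply, hp, hn]
    split_ifs
    · rcases le_total 0 (μ t) with h1 | h1
      · rw [max_eq_left h1, max_eq_right (by linarith)]; ring
      · rw [max_eq_right h1, max_eq_left (by linarith)]; ring
    · ring
  have hAu : A = Function.update (Function.update A u (p - n)) u' (p - n) := by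
    have : A u = A u' := by rw [hAa u hu, hAa u' hu']
    rw [← hAa u hu, Function.update_eq_self, this, Function.update_eq_self]
  have hQl : ∀ g g' h : T → ℝ, Q (g - g') h = Q g h - Q g' h := by
    intro g g' h
    show M _ = M _ - M _
    rw [Function.update_comm hne, Function.update_comm hne, Function.update_comm hne,
      MultilinearMap.map_update_sub]
  have hQr : ∀ g h h' : T → ℝ, Q g (h - h') = Q g h - Q g h' := by
    intro g h h'
    exact MultilinearMap.map_update_sub _ _ _ _ _
  have hQs : ∀ (x y : ℝ) (g h : T → ℝ), Q (x • g) (y • h) = x * (y * Q g h) := by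
    intro x y g h
    show M _ = x * (y * M _)
    rw [MultilinearMap.map_update_smul, Function.update_comm hne,
      MultilinearMap.map_update_smul, Function.update_comm hne]
    simp only [smul_eq_mul]
    ring
  have hnn : ∀ g : T → ℝ, (∀ t, 0 ≤ g t) → (∀ t, col t ≠ a → g t = 0) → 0 ≤ Q g g := by
    intro g h1 h3
    have h6 := hS T col (fun t => if col t = a then g t else μ t) w (fun t ht => by
      split_ifs with h7
      · exact h1 t
      · exact hμ t (by
          rintro (h8 | h8)
          · exact ht h8
          · exact h7 h8))
    refine h6.trans (le_of_eq ?_)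
    show Z G _ w = MZ G w _
    rw [MZ_apply]
    congr 1
    funext v t
    by_cases hv' : v = u'
    · rw [hv', Function.update_self]
      simp only [cw, hu']
      by_cases h7 : col t = a
      · rw [if_pos h7, if_pos h7]
      · rw [if_neg h7, h3 t h7]
    · rw [Function.update_of_ne hv']
      by_cases hv : v = u
      · rw [hv, Function.update_self]
        simp only [cw, hu]
        by_cases h7 : col t = a
        · rw [if_pos h7, if_pos h7]
        · rw [if_neg h7, h3 t h7]
      · rw [Function.update_of_ne hv]
        simp only [cw, hA]
        by_cases h7 : col t = c v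
        · rw [if_pos h7, if_pos h7, if_neg]
          intro h8
          rcases hall v (h7.symm.trans h8) with h9 | h9
          · exact hv h9
          · exact hv' h9
        · rw [if_neg h7, if_neg h7]
  have hpp := hnn p hp0 hpa
  have hnn' := hnn n hn0 hna
  have hcross : ∀ g h : T → ℝ, (∀ t, 0 ≤ g t) → (∀ t, 0 ≤ h t) → (∀ t, col t ≠ a → g t = 0) →
      (∀ t, col t ≠ a → h t = 0) → Q g h ≤ (Q g g + Q h h) / 2 := by
    intro g h h1 h2 h3 h4
    refine cs_trick _ _ _ (hnn g h1 h3) (hnn h h2 h4) (fun s hs => ?_)
    have h5 := hrule (s • g) (s⁻¹ • h) (fun t => mul_nonneg hs.le (h1 t))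
      (fun t => mul_nonneg (inv_pos.2 hs).le (h2 t)) (fun t ht => by simp [h3 t ht])
      (fun t ht => by simp [h4 t ht])
    rw [hQs, hQs, hQs] at h5
    have h6 : s * (s⁻¹ * Q g h) = Q g h := by
      rw [← mul_assoc, mul_inv_cancel₀ hs.ne', one_mul]
    rw [h6] at h5
    exact h5
  have hval : hom G c col μ w = Q p p - Q p n - Q n p + Q n n := by
    have h1 : hom G c col μ w = Q (p - n) (p - n) := by
      show Z G A w = M _
      rw [← hAu, hM, MZ_apply]
    rw [h1, hQl, hQr, hQr]
    ring
  rw [hval]
  have h1 := hcross p n hp0 hn0 hpa hna
  have h2 := hcross n p hn0 hp0 hna hpa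
  linarith

/-- All classes of size two can be signed simultaneously. -/
theorem sign_all [Fintype V] (G : SimpleGraph V) (c : V → V) (hc : Finest G c) :
    PosR G c (fun b => ∃ u v, u ≠ v ∧ c u = b ∧ c v = b) := by
  have key : ∀ B : Finset V, (∀ b ∈ B, ∃ u v, u ≠ v ∧ c u = b ∧ c v = b) →
      PosR G c (fun b => b ∈ B) := by
    intro B
    induction B using Finset.induction_on with
    | empty =>
      intro _ T _ col μ w hμ
      exact hc.1 T col μ w (fun t _ => hμ t (Finset.notMem_empty _))
    | insert b B _ ih =>
      intro hB
      obtain ⟨u, v, hne, hu, hv⟩ := hB b (Finset.mem_insert_self b B)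
      have h1 := ih (fun b' hb' => hB b' (Finset.mem_insert_of_mem hb'))
      have hall : ∀ x, c x = b → x = u ∨ x = v := by
        intro x hx
        by_contra hcon
        push Not at hcon
        have h2 := class_le_two G c hc b
        have h3 : ({u, v, x} : Finset V) ⊆ univ.filter (fun v => c v = b) := by
          intro y hy
          simp only [mem_insert, mem_singleton] at hy
          rcases hy with rfl | rfl | rfl
          · simp [hu]
          · simp [hv]
          · simp [hx]
        have h4 := Finset.card_le_card h3
        have h5 : ({u, v, x} : Finset V).card = 3 :=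
          Finset.card_eq_three.2 ⟨u, v, x, hne, hcon.1.symm, hcon.2.symm, rfl⟩
        omega
      have h6 := sign_class G c hc _ h1 b u v hne hu hv hall
      intro T _ col μ w hμ
      refine h6 T col μ w (fun t ht => hμ t (fun h7 => ht ?_))
      rcases Finset.mem_insert.1 h7 with h8 | h8
      · exact Or.inr h8
      · exact Or.inl h8
  have h1 := key (univ.filter (fun b => ∃ u v, u ≠ v ∧ c u = b ∧ c v = b)) (fun b hb => by
    simpa using hb)
  intro T _ col μ w hμ
  exact h1 T col μ w (fun t ht => hμ t (fun h2 => ht (by simpa using h2)))

end Pool.Agent.PG
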