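import Pool.Agent.Lib.MP_e25ec6_co.H59.SignPair
import Pool.Agent.Lib.MP_e25ec6_co.H59.Fine
import Pool.Agent.Lib.MP_e25ec6_co.H59.Comp

/-!
A positive graph has a symmetric splitting.
-/

set_option autoImplicit false

open Finset
open scoped Classical

namespace Pool.Agent.PG

variable {V T U C L : Type}

/-- Symmetric splitting, given by an involutive automorphism `f` and a side `A`. -/
structure Splits (G : SimpleGraph V) (f : V → V) (A : Set V) : Prop where
  inv : ∀ v, f (f v) = v
  adj : ∀ u v, G.Adj (f u) (f v) ↔ G.Adj u v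
  ind : ∀ u v, f u = u → f v = v → ¬ G.Adj u v
  side : ∀ v, f v ≠ v → (v ∈ A ↔ f v ∉ A)
  mem : ∀ v ∈ A, f v ≠ v
  noAB : ∀ u v, f u ≠ u → f v ≠ v → G.Adj u v → (u ∈ A ↔ v ∈ A)

/-- Vertices that are alone in their class. -/
def uniq (c : V → C) : Set V := {v | ∀ u, c u = c v → u = v}

theorem uniq_indep [Fintype V] (G : SimpleGraph V) (c : V → V) (S : V → Prop) (h : PosR G c S)
    (u v : V) (hu : u ∈ uniq c) (hv : v ∈ uniq c) : ¬ G.Adj u v := by
  intro huv
  have h1 := h V (fun x => x) (fun _ => 1) (fun e => if e = s(c u, c v) then -1 else 1)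
    (fun _ _ => zero_le_one)
  rw [hom_labels] at h1
  rw [Finset.prod_eq_single (s(u, v) : Sym2 V)] at h1
  · simp at h1
    norm_num at h1
  · intro e _ hne
    induction e using Sym2.ind with
    | _ x y =>
      rw [Sym2.map_mk, if_neg]
      intro h2
      rcases Sym2.eq_iff.1 h2 with ⟨h3, h4⟩ | ⟨h3, h4⟩
      · exact hne (by rw [hu x h3, hv y h4])
      · exact hne (by rw [hv x h3, hu y h4, Sym2.eq_swap])
  · intro hn
    exact absurd (by simpa using huv) hn

/-- The graph `G` without the edges at `X`. -/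
def cut (G : SimpleGraph V) (X : Set V) : SimpleGraph V where
  Adj u v := G.Adj u v ∧ u ∉ X ∧ v ∉ X
  symm := ⟨fun _ _ h => ⟨h.1.symm, h.2.2, h.2.1⟩⟩
  loopless := ⟨fun _ h => G.irrefl h.1⟩

theorem pos_cut [Fintype V] (G : SimpleGraph V) (c : V → V) (S : V → Prop) (h : PosR G c S) :
    PosR (cut G (uniq c)) c S := by
  intro T _ col μ w hμ
  have h1 := h T col μ (fun e => if ∃ t ∈ e, ∃ v ∈ uniq c, c v = col t then 1 else w e) hμ
  refine h1.trans (le_of_eq ?_)
  unfold hom Z
  refine Finset.sum_congr rfl (fun φ _ => ?_)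
  by_cases hφ : ∀ v, col (φ v) = c v
  swap
  · push Not at hφ
    obtain ⟨v, hv⟩ := hφ
    rw [Finset.prod_eq_zero (mem_univ v) (by simp [cw, hv]), zero_mul, zero_mul]
  congr 1
  have hsub : (cut G (uniq c)).edgeFinset ⊆ G.edgeFinset := by
    intro e he
    induction e using Sym2.ind with
    | _ x y =>
      simp only [SimpleGraph.mem_edgeFinset, SimpleGraph.mem_edgeSet] at he ⊢
      exact he.1
  rw [← Finset.prod_subset hsub]
  · refine Finset.prod_congr rfl (fun e he => ?_)
    induction e using Sym2.ind with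
    | _ x y =>
      simp only [SimpleGraph.mem_edgeFinset, SimpleGraph.mem_edgeSet] at he
      rw [Sym2.map_mk]
      refine if_neg ?_
      rintro ⟨t, ht, v, hv, hcv⟩
      rcases Sym2.mem_iff.1 ht with rfl | rfl
      · rw [hφ] at hcv
        exact he.2.1 (by rw [hv x hcv.symm]; exact hv)
      · rw [hφ] at hcv
        exact he.2.2 (by rw [hv y hcv.symm]; exact hv)
  · intro e he hne
    induction e using Sym2.ind with
    | _ x y =>
      simp only [SimpleGraph.mem_edgeFinset, SimpleGraph.mem_edgeSet] at he hne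
      rw [Sym2.map_mk]
      refine if_pos ?_
      by_cases hx : x ∈ uniq c
      · exact ⟨φ x, Sym2.mem_iff.2 (Or.inl rfl), x, hx, (hφ x).symm⟩
      · by_cases hy : y ∈ uniq c
        · exact ⟨φ y, Sym2.mem_iff.2 (Or.inr rfl), y, hy, (hφ y).symm⟩
        · exact absurd ⟨he, hx, hy⟩ hne

theorem split_of_signed [Fintype V] (G : SimpleGraph V) (c : V → V) (S : V → Prop)
    (hpos : PosR G c S) (hequit : ∀ u v b, c u = c v → dg G c u b = dg G c v b)
    (hS : ∀ v, S (c v) ∨ v ∈ uniq c) : ∃ f A, Splits G f A := by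
  obtain ⟨R, A, f, hP, hcomp⟩ := components (cut G (uniq c)) c S (pos_cut G c S hpos)
  have hRU : ∀ v ∈ R, v ∈ uniq c := by
    intro v hvR
    by_contra hvU
    have hκ := hcomp ((cut G (uniq c)).connectedComponentMk v) (fun u hu =>
      (closed_of_adj _ R hP.noRA hu).2 hvR)
    have hclU : ∀ u, (cut G (uniq c)).connectedComponentMk u =
        (cut G (uniq c)).connectedComponentMk v → u ∉ uniq c := by
      intro u hu huU
      exact hvU ((closed_of_adj (cut G (uniq c)) (uniq c) (fun a b (hab : (cut G (uniq c)).Adj a b) =>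
        ⟨fun h => absurd h hab.2.1, fun h => absurd h hab.2.2⟩) hu).1 huU)
    obtain ⟨μ, w, hneg⟩ := exists_neg_of_connected (fib (cut G (uniq c))
      (cut G (uniq c)).connectedComponentMk ((cut G (uniq c)).connectedComponentMk v))
      ((cut G (uniq c)).connectedComponentMk v).connected_toSimpleGraph (fun x => c x.1)
    have h1 := hκ (V × Bool) (fun t => t.1) (fun t => if S t.1 then μ t else 0) w (fun t ht => by
      rw [if_neg ht])
    refine absurd h1 (not_le.2 (lt_of_eq_of_lt ?_ hneg))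
    refine hom_congr _ _ _ _ _ _ _ (fun φ hφ => ?_)
    congr 1
    refine Finset.prod_congr rfl (fun x _ => ?_)
    have h2 : S (φ x).1 := by
      rw [hφ x]
      rcases hS x.1 with h3 | h3
      · exact h3
      · exact absurd h3 (hclU x.1 x.2)
    rw [if_pos h2]
  have hUf : ∀ v ∈ uniq c, f v = v := fun v hv => hv (f v) (hP.col v)
  have hfR : ∀ v, f v = v → v ∈ R := by
    intro v hv
    by_contra hR
    have := hP.side v hR
    rw [hv] at this
    tauto
  have hfU : ∀ v, f v = v ↔ v ∈ uniq c := fun v => ⟨fun h => hRU v (hfR v h), hUf v⟩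
  have hfnU : ∀ v, v ∉ uniq c → f v ∉ uniq c := by
    intro v hv h
    have h1 := hUf (f v) h
    rw [hP.inv] at h1
    exact hv (h1 ▸ h)
  have hUadj : ∀ u v, u ∈ uniq c → (G.Adj v u ↔ dg G c v (c u) ≠ 0) := by
    intro u v hu
    unfold dg
    rw [Finset.card_ne_zero]
    constructor
    · intro h
      exact ⟨u, by simp [h]⟩
    · rintro ⟨x, hx⟩
      simp only [mem_filter, mem_univ, true_and] at hx
      rw [← hu x hx.2]
      exact hx.1
  have hUadj' : ∀ u v, u ∈ uniq c → (G.Adj (f v) u ↔ G.Adj v u) := by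
    intro u v hu
    rw [hUadj u v hu, hUadj u (f v) hu, hequit (f v) v _ (hP.col v)]
  refine ⟨f, A, hP.inv, ?_, ?_, ?_, ?_, ?_⟩
  · intro u v
    by_cases hu : u ∈ uniq c
    · rw [hUf u hu, G.adj_comm, hUadj' u v hu, G.adj_comm]
    · by_cases hv : v ∈ uniq c
      · rw [hUf v hv, hUadj' v u hv]
      · have h1 := hP.adj u v
        have h2 : (cut G (uniq c)).Adj u v ↔ G.Adj u v := ⟨fun h => h.1, fun h => ⟨h, hu, hv⟩⟩
        have h3 : (cut G (uniq c)).Adj (f u) (f v) ↔ G.Adj (f u) (f v) :=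
          ⟨fun h => h.1, fun h => ⟨h, hfnU u hu, hfnU v hv⟩⟩
        rw [← h2, ← h3, h1]
  · intro u v hu hv
    exact uniq_indep G c S hpos u v ((hfU u).1 hu) ((hfU v).1 hv)
  · intro v hv
    exact hP.side v (fun h => hv (hP.fix v h))
  · intro v hv h
    exact hP.disj v hv (hfR v h)
  · intro u v hu hv huv
    exact hP.noAB u v ⟨huv, fun h => hu (hUf u h), fun h => hv (hUf v h)⟩

/-- **Positive graphs split.** -/
theorem splits_of_pos [Fintype V] (G : SimpleGraph V) (c₀ : V → V) (h : Pos G c₀) :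
    ∃ f A, Splits G f A := by
  obtain ⟨c, hc, _⟩ := exists_finest G c₀ h
  refine split_of_signed G c _ (sign_all G c hc) (finest_equit G c hc) (fun v => ?_)
  by_cases hv : v ∈ uniq c
  · exact Or.inr hv
  · left
    simp only [uniq, Set.mem_ofPred_eq] at hv
    push Not at hv
    obtain ⟨u, hu, hne⟩ := hv
    exact ⟨u, v, hne, hu, rfl⟩

end Pool.Agent.PG
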