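import Pool.Agent.Lib.MP_e25ec6_co.H59.Max

/-!
Finest positive colourings and their combinatorial structure.
-/

set_option autoImplicit false

open Finset
open scoped Classical

namespace Pool.Agent.PG

variable {V T U C L B : Type}

/-- `c` is a finest positive colouring. -/
def Finest [Fintype V] (G : SimpleGraph V) (c : V → V) : Prop :=
  Pos G c ∧ ∀ c' : V → V, Pos G c' → (∀ u v, c' u = c' v → c u = c v) →
    ∀ u v, c u = c v → c' u = c' v

theorem exists_finest [Fintype V] (G : SimpleGraph V) (c₀ : V → V) (h₀ : Pos G c₀) :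
    ∃ c, Finest G c ∧ ∀ u v, c u = c v → c₀ u = c₀ v := by
  obtain ⟨c, hc, hmax⟩ := Finset.exists_max_image
    ((univ : Finset (V → V)).filter (fun c => Pos G c ∧ ∀ u v, c u = c v → c₀ u = c₀ v))
    (fun c => (univ.image c).card) ⟨c₀, by simp [h₀]⟩
  simp only [mem_filter, mem_univ, true_and] at hc hmax
  refine ⟨c, ⟨hc.1, fun c' hc' href u v huv => ?_⟩, hc.2⟩
  have hle := hmax c' ⟨hc', fun a b hab => hc.2 a b (href a b hab)⟩
  have hg : ∀ x : V, ∃ y : V, ∀ v, c' v = x → c v = y := by
    intro x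
    by_cases hx : ∃ v, c' v = x
    · obtain ⟨v, hv⟩ := hx
      exact ⟨c v, fun v' hv' => href _ _ (hv'.trans hv.symm)⟩
    · exact ⟨x, fun v hv => absurd ⟨v, hv⟩ hx⟩
  choose g hg using hg
  have himg : (univ.image c').image g = univ.image c := by
    rw [Finset.image_image]
    refine Finset.image_congr (fun v _ => ?_)
    exact (hg (c' v) v rfl).symm
  have hinj : Set.InjOn g (univ.image c' : Finset V) := by
    refine Finset.injOn_of_card_image_eq ?_
    refine le_antisymm Finset.card_image_le ?_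
    rw [himg]
    exact hle
  refine hinj (by simp) (by simp) ?_
  rw [← hg (c' u) u rfl, ← hg (c' v) v rfl, huv]

theorem finest_rule [Fintype V] [Fintype U] (G : SimpleGraph V) (c : V → V)
    (hc : Finest G c) (col : U → V) (μ : U → ℝ) (w : Sym2 U → ℝ)
    (hμ : ∀ u, ¬ OddCol G c (c (col u)) → 0 ≤ μ u) (σ₀ : V → V) (hσ₀ : ∀ v, c (σ₀ v) = c v)
    (hne : hom G σ₀ col μ w ≠ 0) :
    ∃ σ : V → V, (∀ v, c (σ v) = c v) ∧ (∀ u v, c u = c v → σ u = σ v) ∧
      (∀ τ : V → V, (∀ v, c (τ v) = c v) → |hom G τ col μ w| ≤ hom G σ col μ w) := by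
  obtain ⟨σ, h1, h2, h3⟩ := max_rule G c hc.1 c col μ w hμ σ₀ hσ₀ hne
  refine ⟨σ, h1, hc.2 σ h3 (fun u v huv => ?_), h2⟩
  rw [← h1 u, ← h1 v, huv]

/-- Sum into a target whose types are the labels. -/
theorem hom_labels [Fintype V] [Fintype L] (G : SimpleGraph V) (σ : V → L) (μ : L → ℝ)
    (w : Sym2 L → ℝ) :
    hom G σ (fun x => x) μ w = (∏ v, μ (σ v)) * ∏ e ∈ G.edgeFinset, w (e.map σ) := by
  unfold hom Z
  rw [Finset.sum_eq_single σ]
  · simp [cw]
  · intro φ _ hne
    obtain ⟨v, hv⟩ := Function.ne_iff.1 hne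
    rw [Finset.prod_eq_zero (mem_univ v) (by simp [cw, hv]), zero_mul]
  · intro h; exact absurd (mem_univ _) h

/-- Sum into a target whose types are labels with an extra coordinate. -/
theorem hom_labels_prod [Fintype V] [Fintype L] [Fintype B] (G : SimpleGraph V) (σ : V → L)
    (μ : L × B → ℝ) (w : Sym2 (L × B) → ℝ) :
    hom G σ (fun x => x.1) μ w = ∑ β : V → B, (∏ v, μ (σ v, β v)) *
      ∏ e ∈ G.edgeFinset, w (e.map (fun v => (σ v, β v))) := by
  unfold hom Z
  symm
  have hinj : ∀ β ∈ (univ : Finset (V → B)), ∀ β' ∈ (univ : Finset (V → B)),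
      (fun v => (σ v, β v)) = (fun v => (σ v, β' v)) → β = β' := by
    intro β _ β' _ h
    funext v
    have := congrFun h v
    simpa using this
  rw [← Finset.sum_image (s := (univ : Finset (V → B))) (g := fun β v => (σ v, β v))
    (f := fun φ : V → L × B => (∏ v, μ (φ v)) * ∏ e ∈ G.edgeFinset, w (e.map φ)) hinj]
  have hsub : ((univ : Finset (V → B)).image (fun β v => (σ v, β v))) ⊆ univ := subset_univ _
  rw [← Finset.sum_subset hsub (f := fun φ : V → L × B =>
    (∏ v, cw σ (fun x : L × B => x.1) μ v (φ v)) * ∏ e ∈ G.edgeFinset, w (e.map φ))]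
  · refine Finset.sum_congr rfl (fun φ hφ => ?_)
    obtain ⟨β, _, rfl⟩ := Finset.mem_image.1 hφ
    simp [cw]
  · intro φ _ hφ
    have : ∃ v, (φ v).1 ≠ σ v := by
      by_contra hcon
      push Not at hcon
      refine hφ (Finset.mem_image.2 ⟨fun v => (φ v).2, mem_univ _, ?_⟩)
      funext v
      exact Prod.ext (hcon v).symm rfl
    obtain ⟨v, hv⟩ := this
    rw [Finset.prod_eq_zero (mem_univ v) (by simp [cw, hv]), zero_mul]

/-- Number of neighbours of `v` of colour `b`. -/
noncomputable def dg [Fintype V] (G : SimpleGraph V) (c : V → C) (v : V) (b : C) : ℕ :=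
  (univ.filter (fun u => G.Adj v u ∧ c u = b)).card

theorem finest_equit [Fintype V] (G : SimpleGraph V) (c : V → V) (hc : Finest G c) :
    ∀ u v b, c u = c v → dg G c u b = dg G c v b := by
  set μ : V → ℝ := fun x => Real.exp (-∑ b, (dg G c x b : ℝ) ^ 2) with hμ
  set f : V → V → ℝ := fun x y => Real.exp (2 * (dg G c x (c y) : ℝ)) with hf
  have hval : ∀ σ : V → V, (∀ v, c (σ v) = c v) → hom G σ (fun x => x) μ (sw f) =
      Real.exp (∑ v, ∑ b, ((dg G c v b : ℝ) ^ 2 - ((dg G c (σ v) b : ℝ) - dg G c v b) ^ 2)) := by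
    intro σ hσ
    rw [hom_labels, prod_edge_dart_map, Real.exp_sum, ← Finset.prod_mul_distrib]
    refine Finset.prod_congr rfl (fun v _ => ?_)
    rw [hμ, hf]
    simp only
    rw [← Real.exp_sum, ← Real.exp_add]
    congr 1
    have h1 : ∑ u ∈ univ.filter (fun u => G.Adj v u), 2 * (dg G c (σ v) (c (σ u)) : ℝ) =
        ∑ b, 2 * ((dg G c (σ v) b : ℝ) * dg G c v b) := by
      have h2 : ∀ u, (dg G c (σ v) (c (σ u)) : ℝ) =
          ∑ b, if c u = b then (dg G c (σ v) b : ℝ) else 0 := by
        intro u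
        rw [Finset.sum_ite_eq univ (c u)]
        simp [hσ u]
      simp_rw [h2, Finset.mul_sum]
      rw [Finset.sum_comm]
      refine Finset.sum_congr rfl (fun b _ => ?_)
      rw [← Finset.mul_sum, ← Finset.sum_filter, Finset.filter_filter, Finset.sum_const,
        nsmul_eq_mul, mul_comm ((dg G c (σ v) b : ℝ))]
      rfl
    rw [h1, ← Finset.sum_neg_distrib, ← Finset.sum_add_distrib]
    refine Finset.sum_congr rfl (fun b _ => ?_)
    ring
  have hid : ∀ v, c (id v) = c v := fun v => rfl
  obtain ⟨σ, h1, h2, h3⟩ := finest_rule G c hc (fun x => x) μ (sw f)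
    (fun u _ => (Real.exp_pos _).le) id hid (by
      rw [hval id hid]
      exact (Real.exp_pos _).ne')
  have h4 := h3 id hid
  rw [hval id hid, hval σ h1, abs_of_pos (Real.exp_pos _), Real.exp_le_exp] at h4
  have h5 : ∑ v, ∑ b, ((dg G c (σ v) b : ℝ) - dg G c v b) ^ 2 ≤ 0 := by
    have : ∑ v, ∑ b, ((dg G c v b : ℝ) ^ 2 - ((dg G c (id v) b : ℝ) - dg G c v b) ^ 2) =
        ∑ v, ∑ b, (dg G c v b : ℝ) ^ 2 := by
      refine Finset.sum_congr rfl (fun v _ => Finset.sum_congr rfl (fun b _ => ?_))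
      simp
    rw [this] at h4
    simp only [Finset.sum_sub_distrib] at h4
    linarith
  have h6 : ∀ v b, dg G c (σ v) b = dg G c v b := by
    intro v b
    have h7 : ∑ v, ∑ b, ((dg G c (σ v) b : ℝ) - dg G c v b) ^ 2 = 0 :=
      le_antisymm h5 (Finset.sum_nonneg (fun _ _ => Finset.sum_nonneg (fun _ _ => sq_nonneg _)))
    have h8 := (Finset.sum_eq_zero_iff_of_nonneg (fun v _ =>
      Finset.sum_nonneg (fun _ _ => sq_nonneg _))).1 h7 v (mem_univ v)
    have h9 := (Finset.sum_eq_zero_iff_of_nonneg (fun b _ => sq_nonneg _)).1 h8 b (mem_univ b)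
    have h10 : ((dg G c (σ v) b : ℝ) - dg G c v b) = 0 := by simpa using h9
    have h11 : (dg G c (σ v) b : ℝ) = dg G c v b := by linarith
    exact_mod_cast h11
  intro u v b huv
  rw [← h6 u b, ← h6 v b, h2 u v huv]

/-- Inclusion-exclusion. -/
theorem incl_excl [Fintype V] (A N : Finset V) :
    ∑ Y : Finset V, (if Y ⊆ N then (-1 : ℝ) ^ (N \ Y).card else 0) * (if A ⊆ Y then 1 else 0) =
      if A = N then 1 else 0 := by
  by_cases hAN : A ⊆ N
  · have h1 : ∑ Y : Finset V, (if Y ⊆ N then (-1 : ℝ) ^ (N \ Y).card else 0) *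
        (if A ⊆ Y then 1 else 0) =
        ∑ Y ∈ (univ : Finset (Finset V)).filter (fun Y => Y ⊆ N ∧ A ⊆ Y), (-1 : ℝ) ^ (N \ Y).card := by
      rw [Finset.sum_filter]
      refine Finset.sum_congr rfl (fun Y _ => ?_)
      by_cases h1 : Y ⊆ N <;> by_cases h2 : A ⊆ Y <;> simp [h1, h2]
    have h2 : ∑ Y ∈ (univ : Finset (Finset V)).filter (fun Y => Y ⊆ N ∧ A ⊆ Y),
        (-1 : ℝ) ^ (N \ Y).card = ∑ R ∈ (N \ A).powerset, (-1 : ℝ) ^ R.card := by
      refine Finset.sum_nbij' (fun Y => N \ Y) (fun R => N \ R) ?_ ?_ ?_ ?_ ?_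
      · intro Y hY
        simp only [mem_filter, mem_univ, true_and] at hY
        simp only [mem_powerset]
        exact Finset.sdiff_subset_sdiff le_rfl hY.2
      · intro R hR
        simp only [mem_powerset] at hR
        simp only [mem_filter, mem_univ, true_and]
        refine ⟨Finset.sdiff_subset, fun a ha => ?_⟩
        simp only [mem_sdiff]
        exact ⟨hAN ha, fun h => (mem_sdiff.1 (hR h)).2 ha⟩
      · intro Y hY
        simp only [mem_filter, mem_univ, true_and] at hY
        simp only [sdiff_sdiff_right_self]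
        exact Finset.inter_eq_right.2 hY.1
      · intro R hR
        simp only [mem_powerset] at hR
        simp only [sdiff_sdiff_right_self]
        exact Finset.inter_eq_right.2 (hR.trans Finset.sdiff_subset)
      · intro Y _
        rfl
    rw [h1, h2]
    have h3 := Finset.sum_powerset_neg_one_pow_card (x := N \ A)
    have h4 : ∑ R ∈ (N \ A).powerset, (-1 : ℝ) ^ R.card =
        ((∑ m ∈ (N \ A).powerset, (-1 : ℤ) ^ m.card : ℤ) : ℝ) := by push_cast; rfl
    rw [h4, h3]
    by_cases h5 : A = N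
    · simp [h5]
    · have h6 : ¬ (N \ A = ∅) := by
        rw [Finset.sdiff_eq_empty_iff_subset]
        intro h7
        exact h5 (Finset.Subset.antisymm hAN h7)
      rw [if_neg h6, if_neg h5]
      simp
  · have h5 : ¬ (A = N) := fun h => hAN (h ▸ le_rfl)
    rw [if_neg h5]
    refine Finset.sum_eq_zero (fun Y _ => ?_)
    by_cases h1 : Y ⊆ N
    · have h2 : ¬ (A ⊆ Y) := fun h => hAN (h.trans h1)
      simp [h2]
    · simp [h1]

/-- Retractions of finest positive colourings. -/
theorem finest_retr [Fintype V] (G : SimpleGraph V) (c : V → V) (hc : Finest G c) (x : V) :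
    ∃ σ : V → V, σ x = x ∧ (∀ v, c (σ v) = c v) ∧ (∀ u v, c u = c v → σ u = σ v) ∧
      (∀ u v, G.Adj u v → G.Adj (σ u) (σ v)) ∧
      (∀ v, OddCol G c (c v) → ∀ w, G.Adj (σ v) w → ∃ u, G.Adj v u ∧ σ u = w) := by
  set N : V → Finset V := fun v => univ.filter (fun u => G.Adj v u) with hN
  set m : V × Finset V → ℝ := fun p => (if p.1 = x then 2 else 1) *
    (if OddCol G c (c p.1) then (if p.2 ⊆ N p.1 then (-1 : ℝ) ^ (N p.1 \ p.2).card else 0)
      else (if p.2 = N p.1 then 1 else 0)) with hm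
  set f : V × Finset V → V × Finset V → ℝ := fun p q => if q.1 ∈ p.2 then 1 else 0 with hf
  set k : (V → V) → V → ℝ := fun σ v => (if σ v = x then 2 else 1) *
    (if OddCol G c (c v) then (if (N v).image σ = N (σ v) then 1 else 0)
      else (if (N v).image σ ⊆ N (σ v) then 1 else 0)) with hk
  have hval : ∀ σ : V → V, (∀ v, c (σ v) = c v) →
      hom G σ (fun p : V × Finset V => p.1) m (sw f) = ∏ v, k σ v := by
    intro σ hσ
    rw [hom_labels_prod]
    simp_rw [prod_edge_dart_map, ← Finset.prod_mul_distrib]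
    have hprod : ∀ (v : V) (Y : Finset V),
        ∏ u ∈ univ.filter (fun u => G.Adj v u), (if σ u ∈ Y then (1 : ℝ) else 0) =
          if (N v).image σ ⊆ Y then 1 else 0 := by
      intro v Y
      by_cases h : (N v).image σ ⊆ Y
      · rw [if_pos h]
        refine Finset.prod_eq_one (fun u hu => ?_)
        rw [if_pos (h (Finset.mem_image_of_mem σ hu))]
      · rw [if_neg h]
        obtain ⟨y, hy, hyY⟩ := Finset.not_subset.1 h
        obtain ⟨u, hu, rfl⟩ := Finset.mem_image.1 hy
        exact Finset.prod_eq_zero hu (by rw [if_neg hyY])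
    have hswap := Finset.prod_univ_sum (fun _ : V => (univ : Finset (Finset V)))
      (fun v Y => m (σ v, Y) * (if (N v).image σ ⊆ Y then (1 : ℝ) else 0))
    rw [Fintype.piFinset_univ] at hswap
    have hterm : ∀ β : V → Finset V,
        ∏ v, (m (σ v, β v) * ∏ u ∈ univ.filter (fun u => G.Adj v u),
          f (σ v, β v) (σ u, β u)) =
        ∏ v, (m (σ v, β v) * (if (N v).image σ ⊆ β v then (1 : ℝ) else 0)) := by
      intro β
      refine Finset.prod_congr rfl (fun v _ => ?_)
      rw [← hprod]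
    rw [Finset.sum_congr rfl (fun β _ => hterm β), ← hswap]
    refine Finset.prod_congr rfl (fun v _ => ?_)
    have hmv : ∀ Y : Finset V, m (σ v, Y) = (if σ v = x then 2 else 1) *
        (if OddCol G c (c v) then (if Y ⊆ N (σ v) then (-1 : ℝ) ^ (N (σ v) \ Y).card else 0)
          else (if Y = N (σ v) then 1 else 0)) := fun Y => by
      simp only [hm, hσ v]
    simp_rw [hmv, mul_assoc]
    rw [← Finset.mul_sum]
    simp only [hk]
    congr 1
    by_cases hodd : OddCol G c (c v)
    · simp only [if_pos hodd]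
      exact incl_excl _ _
    · simp only [if_neg hodd]
      rw [Finset.sum_eq_single (N (σ v))]
      · simp
      · intro Y _ hY
        simp [hY]
      · intro h; exact absurd (mem_univ _) h
  have hk01 : ∀ (σ : V → V) (v : V), k σ v ≠ 0 → (N v).image σ ⊆ N (σ v) ∧
      (OddCol G c (c v) → (N v).image σ = N (σ v)) := by
    intro σ v hne
    simp only [hk] at hne
    by_cases hodd : OddCol G c (c v)
    · simp only [if_pos hodd] at hne
      by_cases h : (N v).image σ = N (σ v)
      · exact ⟨h ▸ le_rfl, fun _ => h⟩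
      · exact absurd (by simp [h]) hne
    · simp only [if_neg hodd] at hne
      by_cases h : (N v).image σ ⊆ N (σ v)
      · exact ⟨h, fun h' => absurd h' hodd⟩
      · exact absurd (by simp [h]) hne
  have hid : ∀ v, c (id v) = c v := fun v => rfl
  have hvid : ∏ v, k id v = 2 := by
    have h1 : ∀ v, k id v = if v = x then 2 else 1 := by
      intro v
      simp [hk]
    rw [Finset.prod_congr rfl (fun v _ => h1 v)]
    rw [Finset.prod_ite_eq' univ x]
    simp
  obtain ⟨σ, h1, h2, h3⟩ := finest_rule G c hc (fun p : V × Finset V => p.1) m (sw f)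
    (fun p hp => by
      simp only [hm, if_neg hp]
      refine mul_nonneg ?_ ?_
      · split_ifs <;> norm_num
      · split_ifs <;> norm_num) id hid (by
      rw [hval id hid, hvid]
      norm_num)
  have h4 := h3 id hid
  rw [hval id hid, hvid, hval σ h1] at h4
  have h5 : (2 : ℝ) ≤ ∏ v, k σ v := by simpa using h4
  have hne : ∀ v, k σ v ≠ 0 := by
    intro v h0
    rw [Finset.prod_eq_zero (mem_univ v) h0] at h5
    norm_num at h5
  have hx : ∃ v, σ v = x := by
    by_contra hcon
    push Not at hcon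
    have : ∏ v, k σ v ≤ 1 := by
      refine Finset.prod_le_one (fun v _ => ?_) (fun v _ => ?_)
      · simp only [hk]
        refine mul_nonneg ?_ ?_
        · split_ifs <;> norm_num
        · split_ifs <;> norm_num
      · simp only [hk, if_neg (hcon v)]
        split_ifs <;> norm_num
    linarith
  refine ⟨σ, ?_, h1, h2, fun u v huv => ?_, fun v hv w hw => ?_⟩
  · obtain ⟨v, hv⟩ := hx
    rw [← hv]
    refine (h2 v (σ v) (h1 v).symm).symm.trans ?_
    rfl
  · have := (hk01 σ u (hne u)).1 (Finset.mem_image_of_mem σ (show v ∈ N u by simp [hN, huv]))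
    simpa [hN] using this
  · have := (hk01 σ v (hne v)).2 hv
    have hw' : w ∈ (N v).image σ := by
      rw [this]
      simpa [hN] using hw
    obtain ⟨u, hu, rfl⟩ := Finset.mem_image.1 hw'
    exact ⟨u, by simpa [hN] using hu, rfl⟩

end Pool.Agent.PG
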