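import Mathlib
import Pool.Agent.Lib.MP_e25ec6_co.H59.Interfaces

/-!
From the integral form of positivity to finite weighted sums (step kernels).
-/

set_option autoImplicit false

open Finset MeasureTheory

namespace Pool.Agent.PG

/-- Disjoint half open intervals of prescribed lengths covering `[0,1)`. -/
theorem exists_intervals (T : Type) [Fintype T] (p : T → ℝ) (hp : ∀ t, 0 ≤ p t)
    (hsum : ∑ t, p t = 1) :
    ∃ a b : T → ℝ, (∀ t, b t - a t = p t) ∧
      (∀ x : ℝ, 0 ≤ x → x < 1 → ∃ t, x ∈ Set.Ico (a t) (b t)) ∧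
      (∀ t x, x ∈ Set.Ico (a t) (b t) → 0 ≤ x ∧ x < 1) ∧
      (∀ t t' x, x ∈ Set.Ico (a t) (b t) → x ∈ Set.Ico (a t') (b t') → t = t') := by
  classical
  obtain ⟨e⟩ : Nonempty (T ≃ Fin (Fintype.card T)) := ⟨Fintype.equivFin T⟩
  set k := Fintype.card T with hk
  set q : ℕ → ℝ := fun j => if h : j < k then p (e.symm ⟨j, h⟩) else 0 with hq
  have hq0 : ∀ j, 0 ≤ q j := by
    intro j
    simp only [hq]
    split_ifs
    · exact hp _
    · exact le_rfl
  set S : ℕ → ℝ := fun m => ∑ j ∈ range m, q j with hS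
  have hSmono : Monotone S := by
    refine monotone_nat_of_le_succ (fun m => ?_)
    simp only [hS, Finset.sum_range_succ]
    linarith [hq0 m]
  have hS0 : S 0 = 0 := by simp [hS]
  have hqe : ∀ t, q (e t) = p t := by
    intro t
    simp only [hq]
    rw [dif_pos (e t).2]
    simp
  have hSk : S k = 1 := by
    simp only [hS]
    rw [Finset.sum_range, ← hsum]
    refine Fintype.sum_equiv e.symm _ _ (fun i => ?_)
    simp only [hq]
    rw [dif_pos i.2]
  refine ⟨fun t => S (e t), fun t => S (e t + 1), ?_, ?_, ?_, ?_⟩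
  · intro t
    simp only [hS, Finset.sum_range_succ]
    rw [← hqe t]
    ring
  · intro x hx0 hx1
    have hex : ∃ m, x < S m := ⟨k, by rw [hSk]; exact hx1⟩
    set m := Nat.find hex with hm
    have hm1 : x < S m := Nat.find_spec hex
    have hmpos : 0 < m := by
      rcases Nat.eq_zero_or_pos m with h | h
      · rw [h, hS0] at hm1
        exact absurd hm1 (not_lt.2 hx0)
      · exact h
    have hmk : m ≤ k := Nat.find_min' hex (by rw [hSk]; exact hx1)
    have hlt : m - 1 < k := by omega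
    have hm2 : S (m - 1) ≤ x := not_lt.1 (Nat.find_min hex (by omega))
    refine ⟨e.symm ⟨m - 1, hlt⟩, ?_⟩
    simp only [Equiv.apply_symm_apply]
    have : m - 1 + 1 = m := by omega
    rw [this]
    exact ⟨hm2, hm1⟩
  · intro t x hx
    have h1 : 0 ≤ S (e t) := by rw [← hS0]; exact hSmono (Nat.zero_le _)
    have h2 : S (e t + 1) ≤ 1 := by
      rw [← hSk]
      exact hSmono (e t).2
    exact ⟨h1.trans hx.1, hx.2.trans_le h2⟩
  · have key : ∀ t t' x, x ∈ Set.Ico (S (e t)) (S (e t + 1)) →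
        x ∈ Set.Ico (S (e t')) (S (e t' + 1)) → ¬ ((e t : ℕ) < (e t' : ℕ)) := by
      intro t t' x hx hx' hlt
      have h1 : S (e t + 1) ≤ S (e t') := hSmono hlt
      exact absurd (hx.2.trans_le (h1.trans hx'.1)) (lt_irrefl _)
    intro t t' x hx hx'
    refine e.injective (Fin.ext ?_)
    have h1 := key t t' x hx hx'
    have h2 := key t' t x hx' hx
    omega

theorem transfer_prob (n : ℕ) (H : SimpleGraph (Fin n)) [DecidableRel H.Adj]
    (hpos : LeftSide n H) (T : Type) [Fintype T] (p : T → ℝ) (hp : ∀ t, 0 ≤ p t)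
    (hsum : ∑ t, p t = 1) (w : Sym2 T → ℝ) (hw : ∀ e, |w e| ≤ 1) :
    0 ≤ ∑ φ : Fin n → T, (∏ v, p (φ v)) *
      ∏ q ∈ Finset.univ.filter (fun q : Fin n × Fin n => q.1 < q.2 ∧ H.Adj q.1 q.2),
        w s(φ q.1, φ q.2) := by
  classical
  obtain ⟨a, b, hlen, hcov, hsub, hdis⟩ := exists_intervals T p hp hsum
  have hne : Nonempty T := by
    by_contra h
    rw [not_nonempty_iff] at h
    simp at hsum
  obtain ⟨t₀⟩ := hne
  let τ : ℝ → T := fun x => if h : ∃ t, x ∈ Set.Ico (a t) (b t) then h.choose else t₀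
  have hτ : ∀ t x, x ∈ Set.Ico (a t) (b t) → τ x = t := by
    intro t x hx
    have h : ∃ t, x ∈ Set.Ico (a t) (b t) := ⟨t, hx⟩
    simp only [τ, dif_pos h]
    exact hdis _ _ x h.choose_spec hx
  letI : MeasurableSpace T := ⊤
  have hτm : Measurable τ := by
    refine measurable_to_countable' (fun t => ?_)
    have h1 : MeasurableSet (⋃ t, Set.Ico (a t) (b t)) :=
      MeasurableSet.iUnion (fun t => measurableSet_Ico)
    by_cases ht : t = t₀
    · have : τ ⁻¹' {t} = Set.Ico (a t) (b t) ∪ (⋃ t, Set.Ico (a t) (b t))ᶜ := by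
        ext x
        simp only [Set.mem_preimage, Set.mem_singleton_iff, Set.mem_union, Set.mem_compl_iff,
          Set.mem_iUnion]
        constructor
        · intro hx
          by_cases h : ∃ t, x ∈ Set.Ico (a t) (b t)
          · left
            obtain ⟨t', ht'⟩ := h
            rw [hτ t' x ht'] at hx
            rw [← hx]; exact ht'
          · exact Or.inr h
        · rintro (hx | hx)
          · exact hτ t x hx
          · simp only [τ, dif_neg hx]
            exact ht.symm
      rw [this]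
      exact measurableSet_Ico.union h1.compl
    · have : τ ⁻¹' {t} = Set.Ico (a t) (b t) := by
        ext x
        simp only [Set.mem_preimage, Set.mem_singleton_iff]
        constructor
        · intro hx
          by_cases h : ∃ t, x ∈ Set.Ico (a t) (b t)
          · obtain ⟨t', ht'⟩ := h
            rw [hτ t' x ht'] at hx
            rw [← hx]; exact ht'
          · simp only [τ, dif_neg h] at hx
            exact absurd hx.symm ht
        · exact hτ t x
      rw [this]
      exact measurableSet_Ico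
  have h0 := hpos (fun x y => w s(τ x, τ y)) (by
    have h1 : Measurable (fun z : T × T => w s(z.1, z.2)) := measurable_of_finite _
    have h2 : Measurable (fun z : ℝ × ℝ => (τ z.1, τ z.2)) :=
      (hτm.comp measurable_fst).prodMk (hτm.comp measurable_snd)
    exact h1.comp h2) (fun x _ y _ => ⟨by rw [Sym2.eq_swap], hw _⟩)
  -- decompose the cube
  set F : (Fin n → ℝ) → ℝ := fun x =>
    ∏ q ∈ Finset.univ.filter (fun q : Fin n × Fin n => q.1 < q.2 ∧ H.Adj q.1 q.2),
      w s(τ (x q.1), τ (x q.2)) with hF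
  let box : (Fin n → T) → Set (Fin n → ℝ) := fun φ =>
    Set.univ.pi (fun v => Set.Ico (a (φ v)) (b (φ v)))
  have hcube : (Set.pi Set.univ (fun _ : Fin n => Set.Icc (0:ℝ) 1)) =ᵐ[volume] ⋃ φ, box φ := by
    have h1 : (Set.univ.pi fun _ : Fin n => Set.Ico (0:ℝ) 1) =ᵐ[Measure.pi fun _ => volume]
        Set.Icc (fun _ => 0) (fun _ => 1) := Measure.univ_pi_Ico_ae_eq_Icc
    have h2 : (Set.univ.pi fun _ : Fin n => Set.Ico (0:ℝ) 1) = ⋃ φ, box φ := by
      ext x
      simp only [Set.mem_pi, Set.mem_univ, true_implies, Set.mem_iUnion, box]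
      constructor
      · intro hx
        choose φ hφ using fun v => hcov (x v) (hx v).1 (hx v).2
        exact ⟨φ, hφ⟩
      · rintro ⟨φ, hφ⟩ v
        exact hsub _ _ (hφ v)
    rw [← h2, ← Set.pi_univ_Icc] at *
    exact h1.symm
  have h1 : ∫ x in Set.pi Set.univ (fun _ : Fin n => Set.Icc (0:ℝ) 1), F x =
      ∑ φ, ∫ x in box φ, F x := by
    rw [setIntegral_congr_set hcube]
    refine integral_iUnion_fintype (fun φ => MeasurableSet.univ_pi (fun v => measurableSet_Ico))
      ?_ ?_
    · intro φ ψ hne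
      rw [Function.onFun, Set.disjoint_left]
      intro x hx hx'
      refine hne (funext (fun v => ?_))
      exact hdis _ _ (x v) (hx v (Set.mem_univ v)) (hx' v (Set.mem_univ v))
    · intro φ
      have : Set.EqOn F (fun _ => ∏ q ∈ Finset.univ.filter
          (fun q : Fin n × Fin n => q.1 < q.2 ∧ H.Adj q.1 q.2), w s(φ q.1, φ q.2)) (box φ) := by
        intro x hx
        simp only [hF]
        refine Finset.prod_congr rfl (fun q _ => ?_)
        rw [hτ _ _ (hx q.1 (Set.mem_univ _)), hτ _ _ (hx q.2 (Set.mem_univ _))]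
      refine (integrableOn_congr_fun this
        (MeasurableSet.univ_pi (fun v => measurableSet_Ico))).2 ?_
      refine integrableOn_const ?_
      rw [Real.volume_pi_Ico]
      exact (ENNReal.prod_lt_top (fun _ _ => ENNReal.ofReal_lt_top)).ne
  have h2 : ∀ φ, ∫ x in box φ, F x = (∏ v, p (φ v)) *
      ∏ q ∈ Finset.univ.filter (fun q : Fin n × Fin n => q.1 < q.2 ∧ H.Adj q.1 q.2),
        w s(φ q.1, φ q.2) := by
    intro φ
    rw [setIntegral_congr_fun (g := fun _ => ∏ q ∈ Finset.univ.filter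
          (fun q : Fin n × Fin n => q.1 < q.2 ∧ H.Adj q.1 q.2), w s(φ q.1, φ q.2))
      (MeasurableSet.univ_pi (fun v => measurableSet_Ico)), setIntegral_const, smul_eq_mul]
    · congr 1
      show (volume (Set.univ.pi fun v => Set.Ico (a (φ v)) (b (φ v)))).toReal = _
      rw [Real.volume_pi_Ico_toReal (fun v => by linarith [hlen (φ v), hp (φ v)])]
      exact Finset.prod_congr rfl (fun v _ => hlen (φ v))
    · intro x hx
      simp only [hF]
      refine Finset.prod_congr rfl (fun q _ => ?_)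
      rw [hτ _ _ (hx q.1 (Set.mem_univ _)), hτ _ _ (hx q.2 (Set.mem_univ _))]
  have h3 : 0 ≤ ∫ x in Set.pi Set.univ (fun _ : Fin n => Set.Icc (0:ℝ) 1), F x := h0
  rw [h1, Finset.sum_congr rfl (fun φ _ => h2 φ)] at h3
  exact h3

theorem transfer (n : ℕ) (H : SimpleGraph (Fin n)) [DecidableRel H.Adj] (hpos : LeftSide n H)
    (T : Type) [Fintype T] (μ : T → ℝ) (hμ : ∀ t, 0 ≤ μ t) (w : Sym2 T → ℝ) :
    0 ≤ ∑ φ : Fin n → T, (∏ v, μ (φ v)) *
      ∏ p ∈ Finset.univ.filter (fun p : Fin n × Fin n => p.1 < p.2 ∧ H.Adj p.1 p.2),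
        w s(φ p.1, φ p.2) := by
  classical
  rcases Nat.eq_zero_or_pos n with hn | hn
  · subst hn
    refine Finset.sum_nonneg (fun φ _ => ?_)
    rw [Finset.prod_of_isEmpty, one_mul]
    have : Finset.univ.filter (fun p : Fin 0 × Fin 0 => p.1 < p.2 ∧ H.Adj p.1 p.2) = ∅ := by
      ext p
      exact p.1.elim0
    rw [this, Finset.prod_empty]
    exact zero_le_one
  set M := ∑ t, μ t with hM
  have hM0 : 0 ≤ M := Finset.sum_nonneg (fun t _ => hμ t)
  rcases hM0.eq_or_lt with h0 | hMpos
  · have hz : ∀ t, μ t = 0 := by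
      intro t
      exact (Finset.sum_eq_zero_iff_of_nonneg (fun t _ => hμ t)).1 h0.symm t (mem_univ t)
    refine Finset.sum_nonneg (fun φ _ => ?_)
    rw [Finset.prod_eq_zero (mem_univ (⟨0, hn⟩ : Fin n)) (hz _), zero_mul]
  set B : ℝ := 1 + ∑ e : Sym2 T, |w e| with hB
  have hBpos : 0 < B := by
    have : 0 ≤ ∑ e : Sym2 T, |w e| := Finset.sum_nonneg (fun _ _ => abs_nonneg _)
    linarith
  have h1 := transfer_prob n H hpos T (fun t => μ t / M) (fun t => div_nonneg (hμ t) hM0)
    (by rw [← Finset.sum_div, ← hM, div_self hMpos.ne']) (fun e => w e / B) (fun e => by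
      rw [abs_div, abs_of_pos hBpos, div_le_one hBpos, hB]
      have : |w e| ≤ ∑ e : Sym2 T, |w e| :=
        Finset.single_le_sum (f := fun e => |w e|) (fun t _ => abs_nonneg _) (mem_univ e)
      linarith)
  have h2 : ∑ φ : Fin n → T, (∏ v, μ (φ v)) *
      ∏ p ∈ Finset.univ.filter (fun p : Fin n × Fin n => p.1 < p.2 ∧ H.Adj p.1 p.2),
        w s(φ p.1, φ p.2) = (M ^ n * B ^ (Finset.univ.filter
          (fun p : Fin n × Fin n => p.1 < p.2 ∧ H.Adj p.1 p.2)).card) *
      ∑ φ : Fin n → T, (∏ v, μ (φ v) / M) *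
      ∏ p ∈ Finset.univ.filter (fun p : Fin n × Fin n => p.1 < p.2 ∧ H.Adj p.1 p.2),
        w s(φ p.1, φ p.2) / B := by
    rw [Finset.mul_sum]
    refine Finset.sum_congr rfl (fun φ _ => ?_)
    rw [Finset.prod_div_distrib, Finset.prod_div_distrib, Finset.prod_const, Finset.prod_const,
      Finset.card_univ, Fintype.card_fin]
    have hMn : M ^ n ≠ 0 := pow_ne_zero _ hMpos.ne'
    have hBn : B ^ (Finset.univ.filter
      (fun p : Fin n × Fin n => p.1 < p.2 ∧ H.Adj p.1 p.2)).card ≠ 0 := pow_ne_zero _ hBpos.ne'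
    field_simp
  rw [h2]
  exact mul_nonneg (mul_nonneg (pow_nonneg hM0 _) (pow_nonneg hBpos.le _)) h1

end Pool.Agent.PG
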